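import Mathlib.MeasureTheory.Function.LpSpace.Basic
import Mathlib.MeasureTheory.Measure.Haar.OfBasis
import Mathlib.Analysis.Normed.Module.Bases

/-!
# Weak Chebyshev greedy algorithm: definitions

Definitions for problem MP_30195a_an (optimal phi-greediness of unconditional bases of L_p).
-/

set_option autoImplicit false

open MeasureTheory
open scoped ENNReal

namespace Pool.Agent.MP_30195a_an

section General

variable {X : Type*} [NormedAddCommGroup X] [NormedSpace ℝ X]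

/-- `F` is a norming functional of `f`: `‖F‖ = 1` and `F f = ‖f‖`. -/
def IsNorming (F : StrongDual ℝ X) (f : X) : Prop :=
  ‖F‖ = 1 ∧ F f = ‖f‖

/-- The best `m`-term approximation error of `f` with respect to the dictionary `D`. -/
noncomputable def sigma (D : Set X) (m : ℕ) (f : X) : ℝ :=
  sInf {e : ℝ | ∃ (g : Fin m → X) (c : Fin m → ℝ), (∀ i, g i ∈ D) ∧ e = ‖f - ∑ i, c i • g i‖}

/-- A run of WCGA(t) on `f₀` with dictionary `D`: chosen elements `φ 1, φ 2, ...` and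
residuals `f 0 = f₀, f 1, f 2, ...`. At step `m + 1` the element `φ (m + 1)` satisfies the weak
greedy inequality for the norming functional of `f m` (no condition once `f m = 0`), and
`f₀ - f (m + 1)` is a best approximant to `f₀` from the span of `φ 1, ..., φ (m + 1)`. -/
structure IsRun (D : Set X) (t : ℝ) (f₀ : X) (φ f : ℕ → X) : Prop where
  start : f 0 = f₀
  mem : ∀ m : ℕ, φ (m + 1) ∈ D
  select : ∀ m : ℕ, f m ≠ 0 → ∃ F : StrongDual ℝ X, IsNorming F (f m) ∧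
    t * sSup ((fun g => |F g|) '' D) ≤ |F (φ (m + 1))|
  approx_mem : ∀ m : ℕ, f₀ - f (m + 1) ∈ Submodule.span ℝ (φ '' Set.Icc 1 (m + 1))
  approx_best : ∀ m : ℕ, ∀ G ∈ Submodule.span ℝ (φ '' Set.Icc 1 (m + 1)),
    ‖f (m + 1)‖ ≤ ‖f₀ - G‖

/-- The dictionary `D` is `Φ`-greedy for WCGA(t). -/
def IsGreedy (D : Set X) (t : ℝ) (Φ : ℝ → ℝ) : Prop :=
  ∃ C : ℝ, ∀ (f₀ : X) (m : ℕ), 1 ≤ m → ∀ φ f : ℕ → X, IsRun D t f₀ φ f →
    ‖f ⌊Φ m * m⌋₊‖ ≤ C * sigma D m f₀

/-- A Schauder basis is unconditional if every sign-change operator is bounded. -/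
def IsUnconditional (Ψ : SchauderBasis ℝ X) : Prop :=
  ∀ θ : ℕ → ℝ, (∀ k, θ k = 1 ∨ θ k = -1) →
    ∃ T : X →L[ℝ] X, ∀ x : X,
      HasSum (fun k => (θ k * Ψ.coord k x) • Ψ k) (T x) (SummationFilter.conditional ℕ)

end General

/-- `Φ` is admissible for `p`: every normalized unconditional basis of `L_p([0,1])` is
`cΦ`-greedy for WCGA(t), for every `t ∈ (0,1]`, with some `c ≥ 1`. -/
def Admissible (p : ℝ≥0∞) [Fact (1 ≤ p)] (Φ : ℝ → ℝ) : Prop :=
  ∀ Ψ : SchauderBasis ℝ (Lp ℝ p (volume.restrict (Set.Icc (0 : ℝ) 1))),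
    (∀ k, ‖Ψ k‖ = 1) → IsUnconditional Ψ →
      ∀ t : ℝ, 0 < t → t ≤ 1 → ∃ c : ℝ, 1 ≤ c ∧ IsGreedy (Set.range Ψ) t (fun x => c * Φ x)

end Pool.Agent.MP_30195a_an
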