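import Mathlib.Topology.Sheaves.Presheaf
import Mathlib.Tactic.Monotonicity.Lemmas
import Mathlib.Algebra.Order.Ring.Star
import Mathlib.Combinatorics.Matroid.Basic
import Mathlib.MeasureTheory.Measure.Lebesgue.Basic
import Mathlib.Algebra.Order.Archimedean.Real.Hom
import Mathlib.Algebra.Order.Floor.Semifield
import Mathlib.Algebra.Order.Star.Real
import Mathlib.Analysis.Normed.Module.HahnBanach
import Mathlib.Topology.Metrizable.Urysohn
import Mathlib.Analysis.Convex.Deriv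
import Mathlib.MeasureTheory.Function.ContinuousMapDense
import Mathlib.Analysis.InnerProductSpace.NormPow
import Mathlib.Analysis.Real.OfDigits
import Mathlib.MeasureTheory.Integral.BoundedContinuousFunction
import Mathlib.RingTheory.PiTensorProduct
import Mathlib.MeasureTheory.Function.Floor
import Mathlib.Topology.Separation.CompletelyRegular
import Pool.Agent.MP_30195a_an.Defs

-- ======== part 0: formerly Pool.Agent.MP_30195a_an.Cantor
section MrgPart0

/-!
# The Cantor space of binary digits, with the image of Lebesgue measure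
-/

set_option autoImplicit false

open MeasureTheory Set
open scoped ENNReal

namespace Pool.Agent.MP_30195a_an

/-- Sequences of binary digits. -/
abbrev Om : Type := ℕ → Fin 2

/-- Lebesgue measure on the unit interval. -/
noncomputable abbrev unitMeas : Measure ℝ := volume.restrict (Set.Icc (0 : ℝ) 1)

/-- Binary digits of a real number. -/
noncomputable def dig (x : ℝ) : Om := Real.digits x 2

lemma dig_val (x : ℝ) (k : ℕ) : (dig x k : ℕ) = ⌊x * 2 ^ (k + 1)⌋₊ % 2 := by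
  simp [dig, Real.digits]

lemma measurable_dig : Measurable dig := by
  refine measurable_pi_lambda _ fun k => ?_
  have h1 : Measurable fun x : ℝ => ⌊x * ((2 : ℕ) : ℝ) ^ (k + 1)⌋₊ :=
    Measurable.nat_floor (by fun_prop)
  exact (measurable_from_top (f := fun n : ℕ => Fin.ofNat 2 n)).comp h1

/-- The law of the binary digits. -/
noncomputable def mu : Measure Om := unitMeas.map dig

instance : IsProbabilityMeasure unitMeas := ⟨by simp⟩

instance : IsProbabilityMeasure mu :=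
  Measure.isProbabilityMeasure_map measurable_dig.aemeasurable

lemma mp_dig : MeasurePreserving dig unitMeas mu := ⟨measurable_dig, rfl⟩

/-- Changing the `n`-th digit. -/
def flp (n : ℕ) (ω : Om) : Om := Function.update ω n (ω n + 1)

lemma flp_same (n : ℕ) (ω : Om) : flp n ω n = ω n + 1 := by simp [flp]

lemma flp_ne {n k : ℕ} (h : k ≠ n) (ω : Om) : flp n ω k = ω k := by simp [flp, h]

lemma flp_flp (n : ℕ) (ω : Om) : flp n (flp n ω) = ω := by
  funext k
  by_cases h : k = n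
  · subst h
    rw [flp_same, flp_same]
    generalize ω k = a
    revert a; decide
  · rw [flp_ne h, flp_ne h]

lemma continuous_flp (n : ℕ) : Continuous (flp n) := by
  refine continuous_pi fun k => ?_
  by_cases h : k = n
  · subst h
    simp only [flp_same]
    exact (continuous_of_discreteTopology (f := fun a : Fin 2 => a + 1)).comp (continuous_apply k)
  · simp only [flp_ne h]
    exact continuous_apply k

lemma floor_shift {x : ℝ} (hx : 0 ≤ x) (n j : ℕ) :
    ⌊(x + (2 ^ (n + 1))⁻¹) * 2 ^ (n + j + 1)⌋₊ = ⌊x * 2 ^ (n + j + 1)⌋₊ + 2 ^ j := by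
  have : (x + (2 ^ (n + 1))⁻¹) * 2 ^ (n + j + 1) = x * 2 ^ (n + j + 1) + ((2 ^ j : ℕ) : ℝ) := by
    push_cast
    field_simp
    ring
  rw [this, Nat.floor_add_natCast (by positivity)]

lemma floor_coarse (y : ℝ) (k j : ℕ) :
    ⌊y * 2 ^ (k + 1)⌋₊ = ⌊y * 2 ^ (k + j + 1 + 1)⌋₊ / 2 / 2 ^ j := by
  have : y * 2 ^ (k + 1) = y * 2 ^ (k + j + 1 + 1) / ((2 * 2 ^ j : ℕ) : ℝ) := by
    push_cast
    field_simp
    ring
  rw [this, Nat.floor_div_natCast, Nat.div_div_eq_div_mul]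

lemma dig_shift {x : ℝ} (hx : 0 ≤ x) {n : ℕ} (h0 : dig x n = 0) :
    dig (x + (2 ^ (n + 1))⁻¹) = flp n (dig x) := by
  have hm : ⌊x * 2 ^ (n + 1)⌋₊ % 2 = 0 := by rw [← dig_val, h0]; rfl
  have hs := floor_shift hx n 0
  simp only [add_zero, pow_zero] at hs
  funext k
  apply Fin.ext
  rcases lt_trichotomy k n with h | h | h
  · rw [flp_ne h.ne, dig_val, dig_val]
    obtain ⟨j, rfl⟩ := Nat.exists_eq_add_of_lt h
    rw [floor_coarse _ k j, floor_coarse x k j, hs]
    congr 2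
    omega
  · subst h
    rw [flp_same, h0, dig_val, hs]
    simp only [zero_add, Fin.val_one]
    omega
  · rw [flp_ne h.ne', dig_val, dig_val]
    obtain ⟨j, rfl⟩ := Nat.exists_eq_add_of_lt h
    have := floor_shift hx n (j + 1)
    rw [← add_assoc] at this
    rw [this, pow_succ 2 j]
    omega

lemma shift_mem_iff (n : ℕ) (x : ℝ) :
    (x + (2 ^ (n + 1))⁻¹ ∈ Ico (0 : ℝ) 1 ∧ dig (x + (2 ^ (n + 1))⁻¹) n = 1) ↔
      (x ∈ Ico (0 : ℝ) 1 ∧ dig x n = 0) := by
  have hp : (0 : ℝ) < 2 ^ (n + 1) := by positivity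
  have hc : (0 : ℝ) < (2 ^ (n + 1))⁻¹ := by positivity
  constructor
  · rintro ⟨⟨h1, h2⟩, h3⟩
    have hm : ⌊(x + (2 ^ (n + 1))⁻¹) * 2 ^ (n + 1)⌋₊ % 2 = 1 := by rw [← dig_val, h3]; rfl
    have hx : 0 ≤ x := by
      have h4 : 1 ≤ ⌊(x + (2 ^ (n + 1))⁻¹) * 2 ^ (n + 1)⌋₊ := by omega
      have h5 := Nat.one_le_floor_iff _ |>.1 h4
      rw [add_mul, inv_mul_cancel₀ hp.ne'] at h5
      have h6 : 0 ≤ x * 2 ^ (n + 1) := by linarith
      exact nonneg_of_mul_nonneg_left h6 hp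
    refine ⟨⟨hx, by linarith⟩, ?_⟩
    have hs := floor_shift hx n 0
    simp only [add_zero, pow_zero] at hs
    apply Fin.ext
    rw [dig_val]
    rw [hs] at hm
    simp only [Fin.val_zero]
    omega
  · rintro ⟨⟨h1, h2⟩, h3⟩
    have hm : ⌊x * 2 ^ (n + 1)⌋₊ % 2 = 0 := by rw [← dig_val, h3]; rfl
    have hs := floor_shift h1 n 0
    simp only [add_zero, pow_zero] at hs
    refine ⟨⟨by linarith, ?_⟩, ?_⟩
    · have h4 : ⌊x * 2 ^ (n + 1)⌋₊ < 2 ^ (n + 1) := by
        rw [Nat.floor_lt (by positivity)]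
        push_cast
        nlinarith
      have h5 : ⌊(x + (2 ^ (n + 1))⁻¹) * 2 ^ (n + 1)⌋₊ < 2 ^ (n + 1) := by
        rw [hs, pow_succ] at *
        omega
      rw [Nat.floor_lt (by positivity)] at h5
      push_cast at h5
      by_contra hcon
      push Not at hcon
      nlinarith
    · rw [dig_shift h1 h3, flp_same, h3]; rfl

lemma mp_flp (n : ℕ) : MeasurePreserving (flp n) mu mu := by
  refine ⟨(continuous_flp n).measurable, ?_⟩
  ext S hS
  have hfl := (continuous_flp n).measurable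
  rw [Measure.map_apply hfl hS, mu, Measure.map_apply measurable_dig (hfl hS),
    Measure.map_apply measurable_dig hS, unitMeas, ← restrict_Ico_eq_restrict_Icc,
    Measure.restrict_apply (measurable_dig (hfl hS)), Measure.restrict_apply (measurable_dig hS)]
  set c : ℝ := (2 ^ (n + 1))⁻¹ with hc
  have hD : MeasurableSet {x : ℝ | dig x n = 0} :=
    (measurable_pi_apply n |>.comp measurable_dig) (measurableSet_singleton 0)
  have split : ∀ T : Set ℝ, volume T =
      volume (T ∩ {x : ℝ | dig x n = 0}) + volume (T \ {x : ℝ | dig x n = 0}) :=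
    fun T => (measure_inter_add_diff T hD).symm
  have f01 : ∀ a : Fin 2, ¬ a = 0 ↔ a = 1 := by decide
  have e1 : (dig ⁻¹' (flp n ⁻¹' S) ∩ Ico 0 1) ∩ {x : ℝ | dig x n = 0}
      = (fun x => x + c) ⁻¹' ((dig ⁻¹' S ∩ Ico 0 1) \ {x : ℝ | dig x n = 0}) := by
    ext x
    simp only [mem_inter_iff, mem_preimage, mem_setOf_eq, mem_diff, f01]
    constructor
    · rintro ⟨⟨h1, h2⟩, h3⟩
      have := (shift_mem_iff n x).2 ⟨h2, h3⟩
      exact ⟨⟨by rw [dig_shift h2.1 h3]; exact h1, this.1⟩, this.2⟩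
    · rintro ⟨⟨h1, h2⟩, h3⟩
      have := (shift_mem_iff n x).1 ⟨h2, h3⟩
      exact ⟨⟨by rw [← dig_shift this.1.1 this.2]; exact h1, this.1⟩, this.2⟩
  have e2 : (dig ⁻¹' S ∩ Ico 0 1) ∩ {x : ℝ | dig x n = 0}
      = (fun x => x + c) ⁻¹' ((dig ⁻¹' (flp n ⁻¹' S) ∩ Ico 0 1) \ {x : ℝ | dig x n = 0}) := by
    ext x
    simp only [mem_inter_iff, mem_preimage, mem_setOf_eq, mem_diff, f01]
    constructor
    · rintro ⟨⟨h1, h2⟩, h3⟩
      have := (shift_mem_iff n x).2 ⟨h2, h3⟩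
      exact ⟨⟨by rw [dig_shift h2.1 h3, flp_flp]; exact h1, this.1⟩, this.2⟩
    · rintro ⟨⟨h1, h2⟩, h3⟩
      have := (shift_mem_iff n x).1 ⟨h2, h3⟩
      rw [dig_shift this.1.1 this.2, flp_flp] at h1
      exact ⟨⟨h1, this.1⟩, this.2⟩
  rw [split (dig ⁻¹' (flp n ⁻¹' S) ∩ Ico 0 1), split (dig ⁻¹' S ∩ Ico 0 1), e1, e2,
    measure_preimage_add_right, measure_preimage_add_right, add_comm]

lemma integ {F : Om → ℝ} (hF : Continuous F) : Integrable F mu :=
  (BoundedContinuousFunction.mkOfCompact ⟨F, hF⟩).integrable mu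

lemma integral_flp (n : ℕ) {F : Om → ℝ} (hF : Continuous F) :
    ∫ ω, F (flp n ω) ∂mu = ∫ ω, F ω ∂mu := by
  conv_rhs => rw [← (mp_flp n).map_eq]
  rw [integral_map (continuous_flp n).measurable.aemeasurable hF.aestronglyMeasurable]

lemma integral_dig {F : Om → ℝ} (hF : Continuous F) :
    ∫ x, F (dig x) ∂unitMeas = ∫ ω, F ω ∂mu := by
  rw [mu, integral_map measurable_dig.aemeasurable hF.aestronglyMeasurable]

lemma ofDigits_dig_ae : ∀ᵐ x ∂unitMeas, Real.ofDigits (dig x) = x := by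
  rw [unitMeas, ← restrict_Ico_eq_restrict_Icc]
  filter_upwards [ae_restrict_mem measurableSet_Ico] with x hx
  exact Real.ofDigits_digits (by norm_num) hx

lemma mp_ofDigits : MeasurePreserving (Real.ofDigits (b := 2)) mu unitMeas := by
  refine ⟨Real.continuous_ofDigits.measurable, ?_⟩
  rw [mu, Measure.map_map Real.continuous_ofDigits.measurable measurable_dig]
  have : (Real.ofDigits (b := 2)) ∘ dig =ᵐ[unitMeas] id := ofDigits_dig_ae
  rw [Measure.map_congr this, Measure.map_id]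

variable (p : ℝ≥0∞) [Fact (1 ≤ p)]

/-- A continuous function of the digits, as an element of `L_p[0,1]`. -/
noncomputable def Jm : C(Om, ℝ) →L[ℝ] Lp ℝ p unitMeas :=
  (Lp.compMeasurePreservingₗᵢ ℝ dig mp_dig).toContinuousLinearMap.comp
    (ContinuousMap.toLp p mu ℝ)

lemma Jm_coe (u : C(Om, ℝ)) : Jm p u =ᵐ[unitMeas] fun x => u (dig x) := by
  have h1 := Lp.coeFn_compMeasurePreserving (ContinuousMap.toLp p mu ℝ u) mp_dig
  have h2 := mp_dig.quasiMeasurePreserving.ae_eq_comp (ContinuousMap.coeFn_toLp (p := p) (𝕜 := ℝ) mu u)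
  exact h1.trans h2

lemma Jm_denseRange (hp : p ≠ ∞) : DenseRange (Jm p) := by
  have h1 : Function.Surjective
      (Lp.compMeasurePreservingₗᵢ (E := ℝ) (p := p) ℝ dig mp_dig).toContinuousLinearMap := by
    intro f
    refine ⟨Lp.compMeasurePreserving _ mp_ofDigits f, ?_⟩
    apply Lp.ext
    have a1 := Lp.coeFn_compMeasurePreserving
      (Lp.compMeasurePreserving _ mp_ofDigits f) mp_dig
    have a2 := mp_dig.quasiMeasurePreserving.ae_eq_comp
      (Lp.coeFn_compMeasurePreserving f mp_ofDigits)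
    refine (a1.trans a2).trans ?_
    filter_upwards [ofDigits_dig_ae] with x hx
    simp [hx]
  exact h1.denseRange.comp (ContinuousMap.toLp_denseRange ℝ mu ℝ hp)
    (ContinuousLinearMap.continuous _)

end Pool.Agent.MP_30195a_an

end MrgPart0

-- ======== part 1: formerly Pool.Agent.MP_30195a_an.Bellman
section MrgPart1

/-!
# A Bellman function for Hilbert-valued dyadic martingale transforms (exponent at least two)
-/

set_option autoImplicit false

open Filter Topology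

namespace Pool.Agent.MP_30195a_an

/-- Weight of `a` in the Bellman function. -/
noncomputable def bmu (q : ℝ) : ℝ := 4 * q + 1

/-- Size of the negative part of the Bellman function. -/
noncomputable def bnu (q : ℝ) : ℝ := 2 * (q + 1) * (2 * q + 1) * (1 + bmu q)

/-- The Bellman function. -/
noncomputable def bellW (q a b : ℝ) : ℝ :=
  (b + bmu q * a) ^ (q + 1) - bnu q * a * (b + bmu q * a) ^ q

lemma quad_disc {a α A : ℝ} (h : ∀ s : ℝ, 0 ≤ a + 2 * α * s + A * s ^ 2) : α ^ 2 ≤ a * A := by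
  have h1 : discrim A (2 * α) a ≤ 0 := by
    apply discrim_le_zero
    intro s
    have := h s
    linarith
  unfold discrim at h1
  linarith

lemma quad_deriv_sq {a α A : ℝ} (h : ∀ s : ℝ, 0 ≤ a + 2 * α * s + A * s ^ 2) (t : ℝ) :
    (2 * α + 2 * A * t) ^ 2 ≤ 2 * (a + 2 * α * t + A * t ^ 2) * (2 * A) := by
  have := quad_disc h
  linarith

lemma quad_hasDerivAt (a α A t : ℝ) :
    HasDerivAt (fun t : ℝ => a + 2 * α * t + A * t ^ 2) (2 * α + 2 * A * t) t := by
  have := ((hasDerivAt_const t a).add ((hasDerivAt_id t).const_mul (2 * α))).add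
    ((hasDerivAt_pow 2 t).const_mul A)
  exact this.congr_deriv (by simp; ring)

lemma lin_hasDerivAt (α A t : ℝ) :
    HasDerivAt (fun t : ℝ => 2 * α + 2 * A * t) (2 * A) t := by
  have := (hasDerivAt_const t (2 * α)).add ((hasDerivAt_id t).const_mul (2 * A))
  exact this.congr_deriv (by simp)

lemma bell_alg {q a b u a1 a2 b1 b2 u1 u2 : ℝ} (hq : 0 ≤ q) (ha : 0 ≤ a) (hb : 0 ≤ b)
    (hu : b + bmu q * a ≤ u) (hb1 : b1 ^ 2 ≤ 2 * b * b2)
    (hb2 : 0 ≤ b2) (hba : b2 ≤ a2) (hu1 : u1 = b1 + bmu q * a1) (hu2 : u2 = b2 + bmu q * a2)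
    (huu : u1 ^ 2 ≤ 2 * u * u2) :
    (q + 1) * q * u * u1 ^ 2 + (q + 1) * u ^ 2 * u2 -
      bnu q * (a2 * u ^ 2 + 2 * q * a1 * u1 * u + q * (q - 1) * a * u1 ^ 2 + q * a * u * u2)
      ≤ 0 := by
  have hν : bnu q = 2 * (q + 1) * (2 * q + 1) * (1 + bmu q) := rfl
  have hμq : bmu q = 4 * q + 1 := rfl
  generalize bmu q = μ at *
  have hμ1 : 1 ≤ μ := by linarith
  have ha2 : 0 ≤ a2 := hb2.trans hba
  have hμa : 0 ≤ μ * a := by positivity
  have hu0 : 0 ≤ u := by linarith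
  have hu20 : 0 ≤ u2 := by rw [hu2]; positivity
  have hu2le : u2 ≤ (1 + μ) * a2 := by rw [hu2]; linarith
  have h1 : (q + 1) * q * u * u1 ^ 2 + (q + 1) * u ^ 2 * u2
      ≤ (q + 1) * (2 * q + 1) * (1 + μ) * (a2 * u ^ 2) := by
    have e1 : (q + 1) * q * u * u1 ^ 2 ≤ (q + 1) * q * u * (2 * u * u2) :=
      mul_le_mul_of_nonneg_left huu (by positivity)
    have e2 : (q + 1) * (2 * q + 1) * u ^ 2 * u2 ≤ (q + 1) * (2 * q + 1) * u ^ 2 * ((1 + μ) * a2) :=
      mul_le_mul_of_nonneg_left hu2le (by positivity)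
    linarith
  have h2 : -(a2 * u ^ 2) / 4 ≤ 2 * q * a1 * u1 * u := by
    have e1 : -(b1 ^ 2) ≤ 4 * μ * (a1 * u1) := by
      rw [hu1]; linarith [sq_nonneg (2 * μ * a1 + b1)]
    have e2 : b1 ^ 2 ≤ 2 * u * a2 := by
      have : 2 * b * b2 ≤ 2 * u * a2 := by
        have : b ≤ u := by linarith
        gcongr
      linarith
    have e3 : -(2 * u * a2) ≤ 4 * μ * (a1 * u1) := by linarith
    by_cases hs : 0 ≤ a1 * u1
    · have : 0 ≤ 2 * q * (a1 * u1) * u := by positivity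
      have h' : 0 ≤ a2 * u ^ 2 := by positivity
      linarith
    · push Not at hs
      have e4 : 4 * μ * (a1 * u1) ≤ 16 * q * (a1 * u1) := by
        rw [hμq]; linarith
      have e5 : -(2 * u * a2) ≤ 16 * q * (a1 * u1) := by linarith
      have e6 := mul_le_mul_of_nonneg_right e5 hu0
      linarith
  have h3 : -(a2 * u ^ 2) / 4 ≤ q * (q - 1) * a * u1 ^ 2 + q * a * u * u2 := by
    have e1 : -(u * u2) / 8 ≤ q * (q - 1) * u1 ^ 2 + q * (u * u2) := by
      have f1 : q * u1 ^ 2 ≤ q * (2 * u * u2) := mul_le_mul_of_nonneg_left huu hq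
      have f2 : 0 ≤ (q - 1 / 4) ^ 2 * u1 ^ 2 := by positivity
      linarith
    have e2 := mul_le_mul_of_nonneg_left e1 ha
    have e3 : a * u2 ≤ 2 * u * a2 := by
      have f1 : a * u2 ≤ a * ((1 + μ) * a2) := mul_le_mul_of_nonneg_left hu2le ha
      have f0 : a * 1 ≤ a * μ := mul_le_mul_of_nonneg_left hμ1 ha
      have f2 : a * (1 + μ) ≤ 2 * u := by linarith
      have f3 := mul_le_mul_of_nonneg_right f2 ha2
      linarith
    have e4 := mul_le_mul_of_nonneg_right e3 hu0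
    linarith
  have h4 : (a2 * u ^ 2) / 2 ≤
      a2 * u ^ 2 + 2 * q * a1 * u1 * u + q * (q - 1) * a * u1 ^ 2 + q * a * u * u2 := by
    linarith
  have hν0 : 0 ≤ bnu q := by rw [hν]; positivity
  have h5 := mul_le_mul_of_nonneg_left h4 hν0
  have h6 : bnu q * (a2 * u ^ 2 / 2) = (q + 1) * (2 * q + 1) * (1 + μ) * (a2 * u ^ 2) := by
    rw [hν]; ring
  linarith

lemma bell_second {q ν a u a1 a2 u1 u2 : ℝ} (hu : 0 < u)
    (h : (q + 1) * q * u * u1 ^ 2 + (q + 1) * u ^ 2 * u2 -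
      ν * (a2 * u ^ 2 + 2 * q * a1 * u1 * u + q * (q - 1) * a * u1 ^ 2 + q * a * u * u2) ≤ 0) :
    u2 * (q + 1) * u ^ q + u1 * (q + 1) * (u1 * q * u ^ (q - 1)) -
      ν * (a2 * u ^ q + a1 * (u1 * q * u ^ (q - 1)) +
        (a1 * (u1 * q * u ^ (q - 1)) +
          a * (u2 * q * u ^ (q - 1) + u1 * q * (u1 * (q - 1) * u ^ (q - 1 - 1))))) ≤ 0 := by
  have hz : 0 < u ^ (q - 1 - 1) := Real.rpow_pos_of_pos hu _
  have e1 : u ^ (q - 1) = u ^ (q - 1 - 1) * u := by
    rw [← Real.rpow_add_one hu.ne']; congr 1; ring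
  have e2 : u ^ q = u ^ (q - 1 - 1) * u ^ 2 := by
    rw [pow_two, ← mul_assoc, ← e1, ← Real.rpow_add_one hu.ne']; congr 1; ring
  have key2 := mul_nonpos_of_nonneg_of_nonpos hz.le h
  rw [e2, e1]
  generalize u ^ (q - 1 - 1) = z at *
  linarith

lemma bell_concave {q μ ν : ℝ} {fa fa1 u u1 : ℝ → ℝ} {a2 u2 : ℝ} (upos : ∀ t, 0 < u t)
    (dfa : ∀ t, HasDerivAt fa (fa1 t) t) (dfa1 : ∀ t, HasDerivAt fa1 a2 t)
    (du : ∀ t, HasDerivAt u (u1 t) t) (du1 : ∀ t, HasDerivAt u1 u2 t)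
    (key : ∀ t, (q + 1) * q * u t * u1 t ^ 2 + (q + 1) * u t ^ 2 * u2 -
      ν * (a2 * u t ^ 2 + 2 * q * fa1 t * u1 t * u t + q * (q - 1) * fa t * u1 t ^ 2
        + q * fa t * u t * u2) ≤ 0) (_ : 0 ≤ μ) :
    ConcaveOn ℝ Set.univ (fun t => u t ^ (q + 1) - ν * (fa t * u t ^ q)) := by
  have dw : ∀ t, HasDerivAt (fun t => u t ^ (q + 1) - ν * (fa t * u t ^ q))
      (u1 t * (q + 1) * u t ^ q -
        ν * (fa1 t * u t ^ q + fa t * (u1 t * q * u t ^ (q - 1)))) t := fun t => by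
    have h1 := (du t).rpow_const (p := q + 1) (Or.inl (upos t).ne')
    have h2 := (du t).rpow_const (p := q) (Or.inl (upos t).ne')
    have h3 := h1.sub (((dfa t).mul h2).const_mul ν)
    exact h3.congr_deriv (by simp only [add_sub_cancel_right])
  have dw1 : ∀ t, ∃ y, HasDerivAt (fun t => u1 t * (q + 1) * u t ^ q -
        ν * (fa1 t * u t ^ q + fa t * (u1 t * q * u t ^ (q - 1)))) y t ∧ y ≤ 0 := fun t => by
    have h2 := (du t).rpow_const (p := q) (Or.inl (upos t).ne')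
    have h3 := (du t).rpow_const (p := q - 1) (Or.inl (upos t).ne')
    have h4 := (((du1 t).mul_const (q + 1)).mul h2).sub
      ((((dfa1 t).mul h2).add ((dfa t).mul (((du1 t).mul_const q).mul h3))).const_mul ν)
    exact ⟨_, h4, bell_second (upos t) (key t)⟩
  apply Antitone.concaveOn_univ_of_deriv
  · intro t; exact (dw t).differentiableAt
  · rw [funext fun t => (dw t).deriv]
    apply antitone_of_deriv_nonpos
    · intro t
      obtain ⟨y, hy, _⟩ := dw1 t
      exact hy.differentiableAt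
    · intro t
      obtain ⟨y, hy, hy0⟩ := dw1 t
      rw [hy.deriv]; exact hy0

lemma bell_eps {q a α A b β B ε : ℝ} (hq : 0 ≤ q) (hε : 0 < ε)
    (ha : ∀ s : ℝ, 0 ≤ a + 2 * α * s + A * s ^ 2) (hb : ∀ s : ℝ, 0 ≤ b + 2 * β * s + B * s ^ 2)
    (hB : 0 ≤ B) (hBA : B ≤ A) :
    bellW q (a + 2 * α + A) (b + 2 * β + B + ε) + bellW q (a - 2 * α + A) (b - 2 * β + B + ε)
      ≤ 2 * bellW q a (b + ε) := by
  have hμ0 : 0 ≤ bmu q := by unfold bmu; linarith
  have upos : ∀ t : ℝ, 0 < (b + ε + bmu q * a) + 2 * (β + bmu q * α) * t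
      + (B + bmu q * A) * t ^ 2 := fun t => by
    have h1 := mul_nonneg hμ0 (ha t)
    have h2 := hb t
    linarith
  have hconc := bell_concave (q := q) (μ := bmu q) (ν := bnu q) upos (quad_hasDerivAt a α A)
    (lin_hasDerivAt α A) (quad_hasDerivAt _ _ _) (lin_hasDerivAt _ _) (fun t =>
      bell_alg (b := b + 2 * β * t + B * t ^ 2) (b1 := 2 * β + 2 * B * t) (b2 := 2 * B)
        hq (ha t) (hb t) (by linarith) (quad_deriv_sq hb t) (by linarith) (by linarith)
        (by ring) (by ring) (quad_deriv_sq (fun s => (upos s).le) t)) hμ0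
  have h := hconc.2 (Set.mem_univ (1 : ℝ)) (Set.mem_univ (-1 : ℝ))
    (show (0 : ℝ) ≤ 1 / 2 by norm_num) (show (0 : ℝ) ≤ 1 / 2 by norm_num) (by norm_num)
  have e3 : (1 / 2 : ℝ) • (1 : ℝ) + (1 / 2 : ℝ) • (-1 : ℝ) = 0 := by norm_num
  rw [e3] at h
  simp only [smul_eq_mul] at h
  have e0 : b + ε + bmu q * a + 2 * (β + bmu q * α) * 0 + (B + bmu q * A) * 0 ^ 2
      = b + ε + bmu q * a := by ring
  have e1 : b + ε + bmu q * a + 2 * (β + bmu q * α) * 1 + (B + bmu q * A) * 1 ^ 2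
      = b + 2 * β + B + ε + bmu q * (a + 2 * α + A) := by ring
  have e2 : b + ε + bmu q * a + 2 * (β + bmu q * α) * (-1) + (B + bmu q * A) * (-1) ^ 2
      = b - 2 * β + B + ε + bmu q * (a - 2 * α + A) := by ring
  rw [e0, e1, e2] at h
  unfold bellW
  linarith

lemma continuous_bellW {q : ℝ} (hq : 0 ≤ q) : Continuous (fun z : ℝ × ℝ => bellW q z.1 z.2) := by
  unfold bellW
  have h1 : Continuous (fun z : ℝ × ℝ => z.2 + bmu q * z.1) := by fun_prop
  exact (h1.rpow_const (fun _ => Or.inr (by linarith))).sub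
    ((continuous_const.mul continuous_fst).mul (h1.rpow_const (fun _ => Or.inr hq)))

lemma bell_step {q a α A b β B : ℝ} (hq : 0 ≤ q)
    (ha : ∀ s : ℝ, 0 ≤ a + 2 * α * s + A * s ^ 2) (hb : ∀ s : ℝ, 0 ≤ b + 2 * β * s + B * s ^ 2)
    (hB : 0 ≤ B) (hBA : B ≤ A) :
    bellW q (a + 2 * α + A) (b + 2 * β + B) + bellW q (a - 2 * α + A) (b - 2 * β + B)
      ≤ 2 * bellW q a b := by
  have hc : ∀ x y : ℝ, Tendsto (fun ε : ℝ => bellW q x (y + ε)) (𝓝[>] 0) (𝓝 (bellW q x y)) := by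
    intro x y
    have h1 : Continuous (fun ε : ℝ => bellW q x (y + ε)) :=
      (continuous_bellW hq).comp (f := fun ε : ℝ => (x, y + ε)) (by fun_prop)
    have := h1.tendsto 0
    simp only [add_zero] at this
    exact this.mono_left nhdsWithin_le_nhds
  refine le_of_tendsto_of_tendsto ((hc _ _).add (hc _ _)) ((hc _ _).const_mul 2) ?_
  filter_upwards [self_mem_nhdsWithin] with ε hε
  exact bell_eps hq hε ha hb hB hBA

lemma bell_init {q a b : ℝ} (hq : 0 ≤ q) (hb : 0 ≤ b) (hba : b ≤ a) : bellW q a b ≤ 0 := by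
  have hμ1 : 1 ≤ bmu q := by unfold bmu; linarith
  have ha : 0 ≤ a := hb.trans hba
  have hu : 0 ≤ b + bmu q * a := by positivity
  unfold bellW
  rw [Real.rpow_add_one' hu (by linarith)]
  have h1 : b + bmu q * a ≤ bnu q * a := by
    have : 1 + bmu q ≤ bnu q := by
      unfold bnu
      have : 1 ≤ 2 * (q + 1) * (2 * q + 1) := by nlinarith
      nlinarith
    nlinarith
  have h2 : 0 ≤ (b + bmu q * a) ^ q := Real.rpow_nonneg hu _
  nlinarith

/-- The constant in the subordination inequality. -/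
noncomputable def bellK (q : ℝ) : ℝ := 2 * (2 * bnu q) ^ (q + 1)

lemma bellK_pos {q : ℝ} (hq : 0 ≤ q) : 0 < bellK q := by
  unfold bellK bnu bmu; positivity

lemma bell_major {q a b : ℝ} (hq : 0 ≤ q) (ha : 0 ≤ a) (hb : 0 ≤ b) :
    b ^ (q + 1) ≤ 2 * bellW q a b + bellK q * a ^ (q + 1) := by
  have hμ1 : 1 ≤ bmu q := by unfold bmu; linarith
  have hν : 0 < bnu q := by unfold bnu bmu; positivity
  set u := b + bmu q * a with hu
  have hu0 : 0 ≤ u := by positivity
  have h1 : b ^ (q + 1) ≤ u ^ (q + 1) :=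
    Real.rpow_le_rpow hb (by have : 0 ≤ bmu q * a := by positivity
                             linarith) (by linarith)
  have h2 : bnu q * a * u ^ q ≤ u ^ (q + 1) / 2 + (2 * bnu q) ^ (q + 1) * a ^ (q + 1) := by
    have hp : 0 ≤ (2 * bnu q) ^ (q + 1) * a ^ (q + 1) := by positivity
    by_cases h : bnu q * a ≤ u / 2
    · rw [Real.rpow_add_one' hu0 (by linarith)]
      have : 0 ≤ u ^ q := Real.rpow_nonneg hu0 _
      nlinarith
    · push Not at h
      have e1 : u ^ q ≤ (2 * bnu q * a) ^ q := Real.rpow_le_rpow hu0 (by linarith) hq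
      have e2 : (2 * bnu q) ^ (q + 1) * a ^ (q + 1) = (2 * bnu q * a) ^ q * (2 * bnu q * a) := by
        rw [← Real.mul_rpow (by positivity) ha, Real.rpow_add_one' (by positivity) (by linarith)]
      have e3 : 0 ≤ u ^ (q + 1) := Real.rpow_nonneg hu0 _
      have e4 : 0 ≤ bnu q * a := by positivity
      have e5 : 0 ≤ (2 * bnu q * a) ^ q := by positivity
      rw [e2]
      nlinarith
  unfold bellW bellK
  rw [← hu]
  nlinarith

end Pool.Agent.MP_30195a_an

end MrgPart1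

-- ======== part 2: formerly Pool.Agent.MP_30195a_an.Mart
section MrgPart2

/-!
# Subordination for dyadic martingales on the Cantor space
-/

set_option autoImplicit false

open MeasureTheory Finset

namespace Pool.Agent.MP_30195a_an

/-- The Rademacher sign of the `k`-th digit. -/
noncomputable def sg (k : ℕ) (ω : Om) : ℝ := if ω k = 0 then 1 else -1

lemma continuous_sg (k : ℕ) : Continuous (sg k) :=
  (continuous_of_discreteTopology (f := fun a : Fin 2 => if a = 0 then (1 : ℝ) else -1)).comp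
    (continuous_apply k)

lemma sg_flp_same (n : ℕ) (ω : Om) : sg n (flp n ω) = -sg n ω := by
  unfold sg
  rw [flp_same]
  generalize ω n = a
  fin_cases a <;> simp

lemma sg_flp_ne {n k : ℕ} (h : k ≠ n) (ω : Om) : sg k (flp n ω) = sg k ω := by
  unfold sg; rw [flp_ne h]

lemma sg_mul_self (k : ℕ) (ω : Om) : sg k ω * sg k ω = 1 := by
  unfold sg; split_ifs <;> norm_num

lemma sg_sq (k : ℕ) (ω : Om) : sg k ω ^ 2 = 1 := by rw [sq, sg_mul_self]

lemma abs_sg (k : ℕ) (ω : Om) : |sg k ω| = 1 := by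
  unfold sg; split_ifs <;> norm_num

lemma integral_odd (n : ℕ) {F : Om → ℝ} (hF : Continuous F) (h : ∀ ω, F (flp n ω) = -F ω) :
    ∫ ω, F ω ∂mu = 0 := by
  have h1 := integral_flp n hF
  simp only [h, integral_neg] at h1
  linarith

lemma mart_scalar {q : ℝ} (hq : 0 ≤ q) (m : ℕ) (a α A b β B : ℕ → Om → ℝ)
    (ca : ∀ n, Continuous (a n)) (cb : ∀ n, Continuous (b n))
    (ha : ∀ n < m, ∀ ω, a (n + 1) ω = a n ω + 2 * (sg (n + 1) ω * α n ω) + A n ω)
    (hb : ∀ n < m, ∀ ω, b (n + 1) ω = b n ω + 2 * (sg (n + 1) ω * β n ω) + B n ω)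
    (ia : ∀ n < m, ∀ ω, a n (flp (n + 1) ω) = a n ω ∧ α n (flp (n + 1) ω) = α n ω ∧
      A n (flp (n + 1) ω) = A n ω)
    (ib : ∀ n < m, ∀ ω, b n (flp (n + 1) ω) = b n ω ∧ β n (flp (n + 1) ω) = β n ω ∧
      B n (flp (n + 1) ω) = B n ω)
    (qa : ∀ n < m, ∀ ω s, 0 ≤ a n ω + 2 * α n ω * s + A n ω * s ^ 2)
    (qb : ∀ n < m, ∀ ω s, 0 ≤ b n ω + 2 * β n ω * s + B n ω * s ^ 2)
    (hB : ∀ n < m, ∀ ω, 0 ≤ B n ω) (hBA : ∀ n < m, ∀ ω, B n ω ≤ A n ω)
    (a0 : ∀ ω, 0 ≤ a m ω) (b0 : ∀ n ω, 0 ≤ b n ω) (start : ∀ ω, b 0 ω ≤ a 0 ω) :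
    ∫ ω, b m ω ^ (q + 1) ∂mu ≤ bellK q * ∫ ω, a m ω ^ (q + 1) ∂mu := by
  have cW : ∀ n, Continuous fun ω => bellW q (a n ω) (b n ω) := fun n =>
    (continuous_bellW hq).comp ((ca n).prodMk (cb n))
  have main : ∀ n ≤ m, ∫ ω, bellW q (a n ω) (b n ω) ∂mu ≤ 0 := by
    intro n
    induction n with
    | zero => exact fun _ => integral_nonpos fun ω => bell_init hq (b0 0 ω) (start ω)
    | succ n ih =>
      intro hn
      have hn' : n < m := hn
      have h1 := integral_flp (n + 1) (cW (n + 1))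
      have h2 : ∫ ω, (bellW q (a (n + 1) ω) (b (n + 1) ω) +
          bellW q (a (n + 1) (flp (n + 1) ω)) (b (n + 1) (flp (n + 1) ω))) ∂mu
          ≤ ∫ ω, 2 * bellW q (a n ω) (b n ω) ∂mu := by
        refine integral_mono (integ ((cW _).add ((cW _).comp (continuous_flp _))))
          (integ (continuous_const.mul (cW _))) fun ω => ?_
        obtain ⟨i1, i2, i3⟩ := ia n hn' ω
        obtain ⟨j1, j2, j3⟩ := ib n hn' ω
        simp only
        rw [ha n hn' (flp _ ω), hb n hn' (flp _ ω), ha n hn' ω, hb n hn' ω, i1, i2, i3, j1, j2, j3,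
          sg_flp_same]
        have key := bell_step (q := q) (a := a n ω) (α := sg (n + 1) ω * α n ω) (A := A n ω)
          (b := b n ω) (β := sg (n + 1) ω * β n ω) (B := B n ω) hq
          (fun s => by
            have := qa n hn' ω (sg (n + 1) ω * s)
            rw [mul_pow, sg_sq] at this
            linarith)
          (fun s => by
            have := qb n hn' ω (sg (n + 1) ω * s)
            rw [mul_pow, sg_sq] at this
            linarith) (hB n hn' ω) (hBA n hn' ω)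
        simpa only [neg_mul, mul_neg, sub_eq_add_neg] using key
      have c2 : Continuous fun ω =>
          bellW q (a (n + 1) (flp (n + 1) ω)) (b (n + 1) (flp (n + 1) ω)) :=
        (cW _).comp (continuous_flp _)
      rw [integral_add (integ (cW _)) (integ c2), h1, integral_const_mul] at h2
      have := ih hn'.le
      linarith
  have cpa : Continuous fun ω => a m ω ^ (q + 1) :=
    (ca m).rpow_const fun _ => Or.inr (by linarith)
  have cpb : Continuous fun ω => b m ω ^ (q + 1) :=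
    (cb m).rpow_const fun _ => Or.inr (by linarith)
  have h3 : ∫ ω, b m ω ^ (q + 1) ∂mu ≤
      ∫ ω, (2 * bellW q (a m ω) (b m ω) + bellK q * a m ω ^ (q + 1)) ∂mu :=
    integral_mono (integ cpb) (integ ((continuous_const.mul (cW _)).add (continuous_const.mul cpa)))
      fun ω => bell_major hq (a0 ω) (b0 m ω)
  rw [integral_add ((integ (cW _)).const_mul _) ((integ cpa).const_mul _),
    integral_const_mul, integral_const_mul] at h3
  have := main m le_rfl
  linarith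

lemma mart_vec {q : ℝ} (hq : 0 ≤ q) (m : ℕ) (S : Finset ℕ) (F D G E : ℕ → ℕ → Om → ℝ)
    (cF : ∀ n k, Continuous (F n k)) (cG : ∀ n k, Continuous (G n k))
    (hF : ∀ n k ω, F (n + 1) k ω = F n k ω + sg (n + 1) ω * D n k ω)
    (hG : ∀ n k ω, G (n + 1) k ω = G n k ω + sg (n + 1) ω * E n k ω)
    (iF : ∀ n k ω, F n k (flp (n + 1) ω) = F n k ω)
    (iD : ∀ n k ω, D n k (flp (n + 1) ω) = D n k ω)
    (iG : ∀ n k ω, G n k (flp (n + 1) ω) = G n k ω)
    (iE : ∀ n k ω, E n k (flp (n + 1) ω) = E n k ω)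
    (sub : ∀ n < m, ∀ ω, ∑ k ∈ S, E n k ω ^ 2 ≤ ∑ k ∈ S, D n k ω ^ 2)
    (start : ∀ ω, ∑ k ∈ S, G 0 k ω ^ 2 ≤ ∑ k ∈ S, F 0 k ω ^ 2) :
    ∫ ω, (∑ k ∈ S, G m k ω ^ 2) ^ (q + 1) ∂mu
      ≤ bellK q * ∫ ω, (∑ k ∈ S, F m k ω ^ 2) ^ (q + 1) ∂mu := by
  have step : ∀ (x y : ℕ → ℝ) (σ : ℝ), σ ^ 2 = 1 → ∑ k ∈ S, (x k + σ * y k) ^ 2 =
      ∑ k ∈ S, x k ^ 2 + 2 * (σ * ∑ k ∈ S, x k * y k) + ∑ k ∈ S, y k ^ 2 := by
    intro x y σ hσ
    rw [mul_sum, mul_sum, ← sum_add_distrib, ← sum_add_distrib]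
    refine sum_congr rfl fun k _ => ?_
    linear_combination (y k) ^ 2 * hσ
  have quad : ∀ (x y : ℕ → ℝ) (s : ℝ),
      0 ≤ ∑ k ∈ S, x k ^ 2 + 2 * (∑ k ∈ S, x k * y k) * s + (∑ k ∈ S, y k ^ 2) * s ^ 2 := by
    intro x y s
    rw [mul_sum, sum_mul, sum_mul, ← sum_add_distrib, ← sum_add_distrib]
    refine sum_nonneg fun k _ => ?_
    nlinarith [sq_nonneg (x k + s * y k)]
  refine mart_scalar hq m (fun n ω => ∑ k ∈ S, F n k ω ^ 2) (fun n ω => ∑ k ∈ S, F n k ω * D n k ω)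
    (fun n ω => ∑ k ∈ S, D n k ω ^ 2) (fun n ω => ∑ k ∈ S, G n k ω ^ 2)
    (fun n ω => ∑ k ∈ S, G n k ω * E n k ω) (fun n ω => ∑ k ∈ S, E n k ω ^ 2)
    (fun n => continuous_finsetSum _ fun k _ => (cF n k).pow 2)
    (fun n => continuous_finsetSum _ fun k _ => (cG n k).pow 2)
    (fun n _ ω => ?_) (fun n _ ω => ?_) (fun n _ ω => ?_) (fun n _ ω => ?_)
    (fun n _ ω s => quad _ _ s) (fun n _ ω s => quad _ _ s)
    (fun n _ ω => sum_nonneg fun k _ => sq_nonneg _) sub
    (fun ω => sum_nonneg fun k _ => sq_nonneg _) (fun n ω => sum_nonneg fun k _ => sq_nonneg _)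
    start
  · simp only [hF]; exact step _ _ _ (sg_sq _ _)
  · simp only [hG]; exact step _ _ _ (sg_sq _ _)
  · simp only [iF, iD, and_self]
  · simp only [iG, iE, and_self]

/-- Both square function inequalities. -/
lemma square_fn {q : ℝ} (hq : 0 ≤ q) (m : ℕ) (g : ℕ → Om → ℝ) (cg : ∀ k, Continuous (g k))
    (ig : ∀ k j ω, k ≤ j + 1 → g k (flp (j + 1) ω) = g k ω) :
    (∫ ω, ((∑ k ∈ range (m + 1), sg k ω * g k ω) ^ 2) ^ (q + 1) ∂mu
      ≤ bellK q * ∫ ω, (∑ k ∈ range (m + 1), g k ω ^ 2) ^ (q + 1) ∂mu) ∧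
    (∫ ω, (∑ k ∈ range (m + 1), g k ω ^ 2) ^ (q + 1) ∂mu
      ≤ bellK q * ∫ ω, ((∑ k ∈ range (m + 1), sg k ω * g k ω) ^ 2) ^ (q + 1) ∂mu) := by
  have c1 : ∀ n, Continuous fun ω => (∑ k ∈ range (n + 1), sg k ω * g k ω) ^ 2 := fun n =>
    (continuous_finsetSum _ fun k _ => (continuous_sg k).mul (cg k)).pow 2
  have c2 : ∀ n, Continuous fun ω => ∑ k ∈ range (n + 1), g k ω ^ 2 := fun n =>
    continuous_finsetSum _ fun k _ => (cg k).pow 2
  have s1 : ∀ n ω, (∑ k ∈ range (n + 1 + 1), sg k ω * g k ω) ^ 2 =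
      (∑ k ∈ range (n + 1), sg k ω * g k ω) ^ 2 + 2 * (sg (n + 1) ω *
        ((∑ k ∈ range (n + 1), sg k ω * g k ω) * g (n + 1) ω)) + g (n + 1) ω ^ 2 := by
    intro n ω
    rw [sum_range_succ _ (n + 1)]
    linear_combination (g (n + 1) ω) ^ 2 * sg_sq (n + 1) ω
  have s2 : ∀ n ω, ∑ k ∈ range (n + 1 + 1), g k ω ^ 2 =
      ∑ k ∈ range (n + 1), g k ω ^ 2 + 2 * (sg (n + 1) ω * 0) + g (n + 1) ω ^ 2 := by
    intro n ω
    rw [sum_range_succ _ (n + 1)]; ring
  have i0 : ∀ n ω, ∑ k ∈ range (n + 1), sg k (flp (n + 1) ω) * g k (flp (n + 1) ω)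
      = ∑ k ∈ range (n + 1), sg k ω * g k ω := fun n ω => sum_congr rfl fun k hk => by
    have := mem_range.1 hk
    rw [sg_flp_ne this.ne, ig k n ω this.le]
  have i2 : ∀ n ω, ∑ k ∈ range (n + 1), g k (flp (n + 1) ω) ^ 2
      = ∑ k ∈ range (n + 1), g k ω ^ 2 := fun n ω => sum_congr rfl fun k hk => by
    rw [ig k n ω (mem_range.1 hk).le]
  have q1 : ∀ x y s : ℝ, 0 ≤ x ^ 2 + 2 * (x * y) * s + y ^ 2 * s ^ 2 := fun x y s => by
    nlinarith [sq_nonneg (x + s * y)]
  have q2 : ∀ (n : ℕ) (ω : Om) (y s : ℝ),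
      0 ≤ ∑ k ∈ range (n + 1), g k ω ^ 2 + 2 * 0 * s + y ^ 2 * s ^ 2 := fun n ω y s => by
    have : 0 ≤ ∑ k ∈ range (n + 1), g k ω ^ 2 := sum_nonneg fun k _ => sq_nonneg _
    have h2 : 0 ≤ y ^ 2 * s ^ 2 := by positivity
    linarith
  have st : ∀ ω, (∑ k ∈ range (0 + 1), sg k ω * g k ω) ^ 2 = ∑ k ∈ range (0 + 1), g k ω ^ 2 := by
    intro ω
    simp [mul_pow, sg_sq]
  constructor
  · exact mart_scalar hq m (fun n ω => ∑ k ∈ range (n + 1), g k ω ^ 2) (fun _ _ => 0)
      (fun n ω => g (n + 1) ω ^ 2) (fun n ω => (∑ k ∈ range (n + 1), sg k ω * g k ω) ^ 2)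
      (fun n ω => (∑ k ∈ range (n + 1), sg k ω * g k ω) * g (n + 1) ω)
      (fun n ω => g (n + 1) ω ^ 2) c2 c1 (fun n _ ω => s2 n ω) (fun n _ ω => s1 n ω)
      (fun n _ ω => ⟨i2 n ω, rfl, by rw [ig _ n ω le_rfl]⟩)
      (fun n _ ω => ⟨by rw [i0], by rw [i0, ig _ n ω le_rfl], by rw [ig _ n ω le_rfl]⟩)
      (fun n _ ω s => q2 n ω _ s) (fun n _ ω s => q1 _ _ s) (fun n _ ω => sq_nonneg _)
      (fun n _ ω => le_rfl) (fun ω => sum_nonneg fun k _ => sq_nonneg _)
      (fun n ω => sq_nonneg _) (fun ω => (st ω).le)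
  · exact mart_scalar hq m (fun n ω => (∑ k ∈ range (n + 1), sg k ω * g k ω) ^ 2)
      (fun n ω => (∑ k ∈ range (n + 1), sg k ω * g k ω) * g (n + 1) ω)
      (fun n ω => g (n + 1) ω ^ 2) (fun n ω => ∑ k ∈ range (n + 1), g k ω ^ 2) (fun _ _ => 0)
      (fun n ω => g (n + 1) ω ^ 2) c1 c2 (fun n _ ω => s1 n ω) (fun n _ ω => s2 n ω)
      (fun n _ ω => ⟨by rw [i0], by rw [i0, ig _ n ω le_rfl], by rw [ig _ n ω le_rfl]⟩)
      (fun n _ ω => ⟨i2 n ω, rfl, by rw [ig _ n ω le_rfl]⟩)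
      (fun n _ ω s => q1 _ _ s) (fun n _ ω s => q2 n ω _ s) (fun n _ ω => sq_nonneg _)
      (fun n _ ω => le_rfl) (fun ω => sq_nonneg _)
      (fun n ω => sum_nonneg fun k _ => sq_nonneg _) (fun ω => (st ω).ge)

end Pool.Agent.MP_30195a_an

end MrgPart2

-- ======== part 3: formerly Pool.Agent.MP_30195a_an.Pointwise
section MrgPart3

/-!
# Pointwise smoothness inequalities for the function `|x| ^ p`
-/

set_option autoImplicit false

namespace Pool.Agent.MP_30195a_an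

/-- The signed power `|x| ^ (p - 2) * x`. -/
noncomputable def gp (p x : ℝ) : ℝ := |x| ^ (p - 2) * x

lemma gp_of_nonneg {p x : ℝ} (hp : 1 < p) (hx : 0 ≤ x) : gp p x = x ^ (p - 1) := by
  unfold gp
  rw [abs_of_nonneg hx]
  rcases hx.eq_or_lt with h | h
  · subst h
    rw [mul_zero, Real.zero_rpow (by linarith)]
  · rw [← Real.rpow_add_one h.ne']; congr 1; ring

lemma gp_neg (p x : ℝ) : gp p (-x) = -gp p x := by
  unfold gp; rw [abs_neg]; ring

lemma abs_gp {p : ℝ} (hp : 1 < p) (x : ℝ) : |gp p x| = |x| ^ (p - 1) := by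
  rcases le_total 0 x with h | h
  · rw [gp_of_nonneg hp h, abs_of_nonneg (Real.rpow_nonneg h _), abs_of_nonneg h]
  · have h' : 0 ≤ -x := by linarith
    have : gp p x = -gp p (-x) := by rw [gp_neg, neg_neg]
    rw [this, abs_neg, gp_of_nonneg hp h', abs_of_nonneg (Real.rpow_nonneg h' _), abs_of_nonpos h]

lemma gp_mul_self {p : ℝ} (hp : 1 < p) (x : ℝ) : gp p x * x = |x| ^ p := by
  unfold gp
  rcases eq_or_ne x 0 with h | h
  · subst h
    simp [Real.zero_rpow (by linarith : p ≠ 0)]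
  · have h1 : 0 < |x| := abs_pos.2 h
    have : |x| ^ p = |x| ^ (p - 2) * |x| ^ (2 : ℝ) := by
      rw [← Real.rpow_add h1]; congr 1; ring
    rw [this, Real.rpow_two, sq_abs]; ring

lemma gp_zero (p : ℝ) : gp p 0 = 0 := by simp [gp]

lemma gp_one (p : ℝ) : gp p 1 = 1 := by simp [gp]

lemma gp_neg_one (p : ℝ) : gp p (-1) = -1 := by simp [gp]

lemma continuous_gp {p : ℝ} (hp : 1 < p) : Continuous (gp p) := by
  have : gp p = fun x => (max x 0) ^ (p - 1) - (max (-x) 0) ^ (p - 1) := by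
    funext x
    rcases le_total 0 x with h | h
    · rw [gp_of_nonneg hp h, max_eq_left h, max_eq_right (by linarith),
        Real.zero_rpow (by linarith), sub_zero]
    · have h' : 0 ≤ -x := by linarith
      have : gp p x = -gp p (-x) := by rw [gp_neg, neg_neg]
      rw [this, gp_of_nonneg hp h', max_eq_left h', max_eq_right h,
        Real.zero_rpow (by linarith), zero_sub]
  rw [this]
  exact ((continuous_id.max continuous_const).rpow_const (fun _ => Or.inr (by linarith))).sub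
    ((continuous_neg.max continuous_const).rpow_const (fun _ => Or.inr (by linarith)))

/-- Tangent line inequality for `x ^ p`. -/
lemma tangent_rpow {p x n : ℝ} (hp : 1 ≤ p) (hx : 0 ≤ x) (hn : 0 < n) :
    n ^ p + p * n ^ (p - 1) * (x - n) ≤ x ^ p := by
  have h := one_add_mul_self_le_rpow_one_add (s := x / n - 1)
    (by have := div_nonneg hx hn.le; linarith) hp
  rw [add_sub_cancel, Real.div_rpow hx hn.le, le_div_iff₀ (Real.rpow_pos_of_pos hn _)] at h
  have e : n ^ p = n ^ (p - 1) * n := by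
    rw [← Real.rpow_add_one hn.ne']; congr 1; ring
  have e2 : (1 + p * (x / n - 1)) * n ^ p = n ^ p + p * n ^ (p - 1) * (x - n) := by
    rw [e]; field_simp
  linarith

lemma gp_sub_le_of {p : ℝ} (hp : 1 < p) {B : ℝ → ℝ → ℝ} (hBsymm : ∀ x y, B (-y) (-x) = B x y)
    (h1 : ∀ x y, 0 ≤ y → y ≤ x → x ^ (p - 1) - y ^ (p - 1) ≤ B x y)
    (h2 : ∀ x y, 0 ≤ x → y ≤ 0 → x ^ (p - 1) + (-y) ^ (p - 1) ≤ B x y)
    {x y : ℝ} (hxy : y ≤ x) : |gp p x - gp p y| ≤ B x y := by
  have hp0 : 0 ≤ p - 1 := by linarith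
  rcases le_total 0 y with hy | hy
  · rw [gp_of_nonneg hp hy, gp_of_nonneg hp (hy.trans hxy),
      abs_of_nonneg (sub_nonneg.2 (Real.rpow_le_rpow hy hxy hp0))]
    exact h1 x y hy hxy
  · have ey : gp p y = -(-y) ^ (p - 1) := by
      rw [← gp_of_nonneg hp (by linarith : 0 ≤ -y), gp_neg, neg_neg]
    rcases le_total 0 x with hx | hx
    · rw [gp_of_nonneg hp hx, ey, sub_neg_eq_add,
        abs_of_nonneg (add_nonneg (Real.rpow_nonneg hx _) (Real.rpow_nonneg (by linarith) _))]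
      exact h2 x y hx hy
    · have ex : gp p x = -(-x) ^ (p - 1) := by
        rw [← gp_of_nonneg hp (by linarith : 0 ≤ -x), gp_neg, neg_neg]
      have h3 : (-x) ^ (p - 1) ≤ (-y) ^ (p - 1) :=
        Real.rpow_le_rpow (by linarith) (by linarith) hp0
      rw [ex, ey, abs_of_nonneg (by linarith), ← hBsymm]
      have := h1 (-y) (-x) (by linarith) (by linarith)
      linarith

lemma gp_holder {p : ℝ} (hp : 1 < p) (hp2 : p ≤ 2) (x y : ℝ) :
    |gp p x - gp p y| ≤ 2 * |x - y| ^ (p - 1) := by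
  have hp0 : 0 ≤ p - 1 := by linarith
  have key : ∀ x y : ℝ, y ≤ x → |gp p x - gp p y| ≤ 2 * |x - y| ^ (p - 1) := by
    intro x y hxy
    refine gp_sub_le_of hp (B := fun x y => 2 * |x - y| ^ (p - 1)) ?_ ?_ ?_ hxy
    · intro x y; congr 3; ring
    · intro x y hy hxy
      have h := Real.rpow_add_le_add_rpow (p := p - 1) hy (sub_nonneg.2 hxy) hp0 (by linarith)
      rw [add_sub_cancel] at h
      rw [abs_of_nonneg (sub_nonneg.2 hxy)]
      have := Real.rpow_nonneg (sub_nonneg.2 hxy) (p - 1)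
      linarith
    · intro x y hx hy
      rw [abs_of_nonneg (by linarith : 0 ≤ x - y)]
      have a1 : x ^ (p - 1) ≤ (x - y) ^ (p - 1) := Real.rpow_le_rpow hx (by linarith) hp0
      have a2 : (-y) ^ (p - 1) ≤ (x - y) ^ (p - 1) :=
        Real.rpow_le_rpow (by linarith) (by linarith) hp0
      linarith
  rcases le_total y x with h | h
  · exact key x y h
  · rw [abs_sub_comm, abs_sub_comm x]; exact key y x h

lemma rpow_sub_one_le {p x M : ℝ} (hp2 : 2 ≤ p) (hx : 0 ≤ x) (hM : x ≤ M) :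
    x ^ (p - 1) ≤ M ^ (p - 2) * x := by
  rcases hx.eq_or_lt with h | h
  · subst h; rw [Real.zero_rpow (by linarith), mul_zero]
  · have e : x ^ (p - 1) = x ^ (p - 2) * x := by
      rw [← Real.rpow_add_one h.ne']; congr 1; ring
    rw [e]
    exact mul_le_mul_of_nonneg_right (Real.rpow_le_rpow hx hM (by linarith)) hx

lemma gp_lip {p : ℝ} (hp2 : 2 ≤ p) (x y : ℝ) :
    |gp p x - gp p y| ≤ (p - 1) * (max |x| |y|) ^ (p - 2) * |x - y| := by
  have hp : 1 < p := by linarith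
  have key : ∀ x y : ℝ, y ≤ x →
      |gp p x - gp p y| ≤ (p - 1) * (max |x| |y|) ^ (p - 2) * |x - y| := by
    intro x y hxy
    refine gp_sub_le_of hp (B := fun x y => (p - 1) * (max |x| |y|) ^ (p - 2) * |x - y|)
      ?_ ?_ ?_ hxy
    · intro x y
      rw [abs_neg, abs_neg, max_comm]; congr 2; ring
    · intro x y hy hxy
      have hx : 0 ≤ x := hy.trans hxy
      rw [abs_of_nonneg hx, abs_of_nonneg hy, max_eq_left hxy, abs_of_nonneg (sub_nonneg.2 hxy)]
      rcases hx.eq_or_lt with h | h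
      · have : y = 0 := by linarith
        subst h; subst this; simp
      · have := tangent_rpow (p := p - 1) (by linarith) hy h
        have e : p - 1 - 1 = p - 2 := by ring
        rw [e] at this
        linarith
    · intro x y hx hy
      rw [abs_of_nonneg hx, abs_of_nonpos hy, abs_of_nonneg (by linarith : 0 ≤ x - y)]
      have a1 := rpow_sub_one_le hp2 hx (le_max_left x (-y))
      have a2 := rpow_sub_one_le hp2 (by linarith : 0 ≤ -y) (le_max_right x (-y))
      have a3 : 0 ≤ (max x (-y)) ^ (p - 2) * (x - y) :=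
        mul_nonneg (Real.rpow_nonneg (hx.trans (le_max_left _ _)) _) (by linarith)
      have a4 := mul_le_mul_of_nonneg_right (by linarith : 1 ≤ p - 1) a3
      linarith
  rcases le_total y x with h | h
  · exact key x y h
  · rw [abs_sub_comm, abs_sub_comm x, max_comm]; exact key y x h

lemma abs_rpow_mvt {p : ℝ} (hp : 1 < p) (a b : ℝ) :
    ∃ θ : ℝ, 0 < θ ∧ θ < 1 ∧
      |a + b| ^ p ≤ |a| ^ p + p * gp p a * b + p * (|gp p (a + θ * b) - gp p a| * |b|) := by
  have hd : ∀ s : ℝ, HasDerivAt (fun s : ℝ => |a + s * b| ^ p) (p * gp p (a + s * b) * b) s := by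
    intro s
    have h1 : HasDerivAt (fun s : ℝ => a + s * b) b s := by
      simpa using ((hasDerivAt_id s).mul_const b).const_add a
    have h2 := (hasDerivAt_abs_rpow (a + s * b) hp).comp s h1
    exact h2.congr_deriv (by unfold gp; ring)
  obtain ⟨θ, hθ, h⟩ := exists_hasDerivAt_eq_slope (fun s : ℝ => |a + s * b| ^ p)
    (fun s => p * gp p (a + s * b) * b) (zero_lt_one' ℝ)
    (fun s _ => (hd s).continuousAt.continuousWithinAt) (fun s _ => hd s)
  refine ⟨θ, hθ.1, hθ.2, ?_⟩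
  simp only [one_mul, zero_mul, add_zero, sub_zero, div_one] at h
  have h3 : (gp p (a + θ * b) - gp p a) * b ≤ |gp p (a + θ * b) - gp p a| * |b| := by
    rw [← abs_mul]; exact le_abs_self _
  have h4 := mul_le_mul_of_nonneg_left h3 (by linarith : 0 ≤ p)
  linarith

lemma add_rpow_le {p x y : ℝ} (hp : 0 ≤ p) (hx : 0 ≤ x) (hy : 0 ≤ y) :
    (x + y) ^ p ≤ 2 ^ p * (x ^ p + y ^ p) := by
  have h1 : 0 ≤ x ^ p := Real.rpow_nonneg hx _
  have h2 : 0 ≤ y ^ p := Real.rpow_nonneg hy _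
  have h3 : (0 : ℝ) ≤ 2 ^ p := by positivity
  rcases le_total x y with h | h
  · calc (x + y) ^ p ≤ (2 * y) ^ p := Real.rpow_le_rpow (by linarith) (by linarith) hp
      _ = 2 ^ p * y ^ p := Real.mul_rpow (by norm_num) hy
      _ ≤ _ := by gcongr; linarith
  · calc (x + y) ^ p ≤ (2 * x) ^ p := Real.rpow_le_rpow (by linarith) (by linarith) hp
      _ = 2 ^ p * x ^ p := Real.mul_rpow (by norm_num) hx
      _ ≤ _ := by gcongr; linarith

/-- Pointwise power-type smoothness of `|x| ^ p`. -/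
lemma pointwise_smooth {p : ℝ} (hp : 1 < p) : ∃ C : ℝ, 1 ≤ C ∧ ∀ a b l : ℝ, |l| ≤ 1 →
    |a + l * b| ^ p ≤ |a| ^ p + p * l * (gp p a * b) + C * |l| ^ (min p 2) * (|a| ^ p + |b| ^ p) := by
  have hp0 : 0 < p := by linarith
  rcases le_total p 2 with hp2 | hp2
  · refine ⟨2 * p, by linarith, fun a b l _ => ?_⟩
    obtain ⟨θ, h0, h1, h⟩ := abs_rpow_mvt hp a (l * b)
    rw [min_eq_left hp2]
    have e1 := gp_holder hp hp2 (a + θ * (l * b)) a
    have e2 : |a + θ * (l * b) - a| ≤ |l * b| := by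
      rw [add_sub_cancel_left, abs_mul, abs_of_pos h0]
      have := abs_nonneg (l * b)
      nlinarith
    have e3 : |a + θ * (l * b) - a| ^ (p - 1) ≤ |l * b| ^ (p - 1) :=
      Real.rpow_le_rpow (abs_nonneg _) e2 (by linarith)
    have e4 : |l * b| ^ (p - 1) * |l * b| = |l| ^ p * |b| ^ p := by
      rw [← Real.rpow_add_one' (abs_nonneg _) (by rw [sub_add_cancel]; exact hp0.ne'),
        sub_add_cancel, abs_mul,
        Real.mul_rpow (abs_nonneg _) (abs_nonneg _)]
    have e5 : |gp p (a + θ * (l * b)) - gp p a| * |l * b| ≤ 2 * (|l| ^ p * |b| ^ p) := by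
      have e0 : |gp p (a + θ * (l * b)) - gp p a| ≤ 2 * |l * b| ^ (p - 1) := by linarith
      have := mul_le_mul_of_nonneg_right e0 (abs_nonneg (l * b))
      rw [← e4]; linarith
    have e6 := mul_le_mul_of_nonneg_left e5 hp0.le
    have e7 : 0 ≤ p * (|l| ^ p * |a| ^ p) := by positivity
    linarith
  · refine ⟨p * (p - 1) * 2 ^ p, ?_, fun a b l hl => ?_⟩
    · have h1 : (1 : ℝ) ≤ 2 ^ p := Real.one_le_rpow (by norm_num) hp0.le
      have h2 : 1 ≤ p * (p - 1) := by nlinarith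
      nlinarith
    obtain ⟨θ, h0, h1, h⟩ := abs_rpow_mvt hp a (l * b)
    rw [min_eq_right hp2]
    have e1 := gp_lip hp2 (a + θ * (l * b)) a
    have hlb : |l * b| ≤ |b| := by
      rw [abs_mul]; have := abs_nonneg b; nlinarith
    have e2 : |a + θ * (l * b) - a| ≤ |l * b| := by
      rw [add_sub_cancel_left, abs_mul, abs_of_pos h0]
      have := abs_nonneg (l * b)
      nlinarith
    set M := |a| + |b| with hM
    have hM0 : 0 ≤ M := by positivity
    have e3 : max |a + θ * (l * b)| |a| ≤ M := by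
      apply max_le
      · have := abs_add_le a (θ * (l * b))
        rw [add_sub_cancel_left] at e2
        linarith
      · have := abs_nonneg b; linarith
    have e4 : (max |a + θ * (l * b)| |a|) ^ (p - 2) ≤ M ^ (p - 2) :=
      Real.rpow_le_rpow ((abs_nonneg _).trans (le_max_right _ _)) e3 (by linarith)
    have e5 : |gp p (a + θ * (l * b)) - gp p a| ≤ (p - 1) * M ^ (p - 2) * |l * b| := by
      refine e1.trans ?_
      have : 0 ≤ p - 1 := by linarith
      gcongr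
    have e6 : M ^ (p - 2) * (|b| * |b|) ≤ M ^ p := by
      have hb : |b| ≤ M := by have := abs_nonneg a; linarith
      rcases hM0.eq_or_lt with h' | h'
      · have : |b| = 0 := le_antisymm (h' ▸ hb) (abs_nonneg _)
        rw [this, mul_zero, mul_zero]; positivity
      · have : M ^ p = M ^ (p - 2) * (M * M) := by
          rw [← mul_assoc, ← Real.rpow_add_one h'.ne', ← Real.rpow_add_one h'.ne']
          congr 1; ring
        rw [this]
        gcongr
    have e7 := add_rpow_le hp0.le (abs_nonneg a) (abs_nonneg b)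
    have e8 : |gp p (a + θ * (l * b)) - gp p a| * |l * b|
        ≤ (p - 1) * (|l| ^ (2 : ℝ) * (2 ^ p * (|a| ^ p + |b| ^ p))) := by
      calc _ ≤ (p - 1) * M ^ (p - 2) * |l * b| * |l * b| :=
            mul_le_mul_of_nonneg_right e5 (abs_nonneg _)
        _ = (p - 1) * (|l| ^ (2 : ℝ) * (M ^ (p - 2) * (|b| * |b|))) := by
            rw [Real.rpow_two, abs_mul]; ring
        _ ≤ _ := by
            have : 0 ≤ p - 1 := by linarith
            exact mul_le_mul_of_nonneg_left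
              (mul_le_mul_of_nonneg_left (e6.trans e7) (by positivity)) this
    have e9 := mul_le_mul_of_nonneg_left e8 hp0.le
    linarith

end Pool.Agent.MP_30195a_an

end MrgPart3

-- ======== part 4: formerly Pool.Agent.MP_30195a_an.System
section MrgPart4

/-!
# The triangular Rademacher-Haar system on the Cantor space
-/

set_option autoImplicit false

open MeasureTheory Finset

namespace Pool.Agent.MP_30195a_an

/-- Nodes: the two halves, and the dyadic intervals of level at least one. -/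
abbrev Node : Type := Fin 2 ⊕ (Σ n : ℕ, (Fin (n + 1) → Fin 2))

/-- The first `n` digits. -/
def res (n : ℕ) (ω : Om) : Fin n → Fin 2 := fun i => ω i

/-- Indicator of a cylinder. -/
noncomputable def cyl (n : ℕ) (s : Fin n → Fin 2) (ω : Om) : ℝ := if res n ω = s then 1 else 0

/-- The function attached to a node. -/
noncomputable def vN : Node → Om → ℝ
  | Sum.inl c => fun ω => if ω 0 = c then 1 else 0
  | Sum.inr ⟨n, s⟩ => fun ω => sg (n + 1) ω * cyl (n + 1) s ω

/-- The first Rademacher index used at a node. -/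
def kN : Node → ℕ
  | Sum.inl _ => 0
  | Sum.inr ⟨n, _⟩ => n + 2

/-- The orthogonal system. -/
noncomputable def uS (i : Node × ℕ) (ω : Om) : ℝ := sg (kN i.1 + i.2) ω * vN i.1 ω

/-- Nodes of level at most `m`. -/
def nodes (m : ℕ) : Finset Node :=
  (univ : Finset (Fin 2)).disjSum ((range m).sigma fun _ => univ)

lemma continuous_res (n : ℕ) : Continuous (res n) :=
  continuous_pi fun i => continuous_apply (i : ℕ)

lemma continuous_comp_res (n : ℕ) (g : (Fin n → Fin 2) → ℝ) : Continuous fun ω => g (res n ω) :=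
  (continuous_of_discreteTopology (f := g)).comp (continuous_res n)

lemma continuous_comp_zero (g : Fin 2 → ℝ) : Continuous fun ω : Om => g (ω 0) :=
  (continuous_of_discreteTopology (f := g)).comp (continuous_apply 0)

lemma continuous_cyl (n : ℕ) (s : Fin n → Fin 2) : Continuous (cyl n s) :=
  continuous_comp_res n fun t => if t = s then 1 else 0

lemma continuous_vN (ν : Node) : Continuous (vN ν) := by
  rcases ν with c | ⟨n, s⟩
  · exact continuous_comp_zero fun t => if t = c then 1 else 0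
  · exact (continuous_sg _).mul (continuous_cyl _ _)

lemma continuous_uS (i : Node × ℕ) : Continuous (uS i) :=
  (continuous_sg _).mul (continuous_vN _)

lemma res_flp {n j : ℕ} (h : n ≤ j) (ω : Om) : res n (flp j ω) = res n ω :=
  funext fun i => flp_ne (by have := i.2; omega) ω

lemma cyl_flp {n j : ℕ} (h : n ≤ j) (s : Fin n → Fin 2) (ω : Om) :
    cyl n s (flp j ω) = cyl n s ω := by
  unfold cyl; rw [res_flp h]

lemma vN_flp {ν : Node} {j : ℕ} (h1 : 1 ≤ j) (h2 : kN ν ≤ j) (ω : Om) :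
    vN ν (flp j ω) = vN ν ω := by
  rcases ν with c | ⟨n, s⟩
  · simp only [vN]; rw [flp_ne (by omega)]
  · simp only [vN, kN] at h2 ⊢
    rw [sg_flp_ne (by omega), cyl_flp (by omega)]

lemma kN_le_of_mem {m : ℕ} {ν : Node} (h : ν ∈ nodes m) : kN ν ≤ m + 1 := by
  rcases ν with c | ⟨n, s⟩
  · simp [kN]
  · simp only [nodes, inr_mem_disjSum, mem_sigma, mem_range, mem_univ, and_true] at h
    simp only [kN]; omega

lemma mem_nodes_of_le {m : ℕ} {ν : Node} (h : kN ν ≤ m) : ν ∈ nodes m := by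
  rcases ν with c | ⟨n, s⟩
  · simp [nodes]
  · simp only [nodes, inr_mem_disjSum, mem_sigma, mem_range, mem_univ, and_true]
    simp only [kN] at h; omega

lemma nodes_mono {m m' : ℕ} (h : m ≤ m') : nodes m ⊆ nodes m' := by
  intro ν hν
  rcases ν with c | ⟨n, s⟩
  · simp [nodes]
  · simp only [nodes, inr_mem_disjSum, mem_sigma, mem_range, mem_univ, and_true] at hν ⊢
    omega

lemma sum_nodes (m : ℕ) (c : Node → ℝ) (ω : Om) :
    ∑ ν ∈ nodes m, c ν * vN ν ω = c (Sum.inl (ω 0)) +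
      ∑ n ∈ range m, sg (n + 1) ω * c (Sum.inr ⟨n, res (n + 1) ω⟩) := by
  rw [nodes, sum_disjSum, sum_sigma]
  congr 1
  · simp [vN]
  · refine sum_congr rfl fun n _ => ?_
    simp [vN, cyl, mul_comm]

lemma exists_rect (S : Finset (Node × ℕ)) :
    ∃ m₀ : ℕ, ∀ m D, m₀ ≤ m → m₀ ≤ D → S ⊆ nodes m ×ˢ range D := by
  refine ⟨S.sup (fun i => kN i.1 + i.2) + 1, fun m D hm hD i hi => ?_⟩
  have := le_sup (f := fun i : Node × ℕ => kN i.1 + i.2) hi
  exact mem_product.2 ⟨mem_nodes_of_le (by omega), mem_range.2 (by omega)⟩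

/-- Coefficients arranged by Rademacher index. -/
noncomputable def cf (D : ℕ) (b : Node × ℕ → ℝ) (k : ℕ) (ν : Node) : ℝ :=
  if kN ν ≤ k ∧ k < kN ν + D then b (ν, k - kN ν) else 0

lemma sum_cf {D M : ℕ} (b : Node × ℕ → ℝ) {ν : Node} (h : kN ν + D ≤ M) (φ : ℕ → ℝ → ℝ)
    (hφ : ∀ k, φ k 0 = 0) :
    ∑ k ∈ range M, φ k (cf D b k ν) = ∑ d ∈ range D, φ (kN ν + d) (b (ν, d)) := by
  rw [← sum_subset (s₁ := Ico (kN ν) (kN ν + D))]
  · rw [sum_Ico_eq_sum_range, Nat.add_sub_cancel_left]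
    refine sum_congr rfl fun d hd => ?_
    have := mem_range.1 hd
    rw [cf, if_pos ⟨by omega, by omega⟩, Nat.add_sub_cancel_left]
  · intro k hk
    have := mem_Ico.1 hk
    exact mem_range.2 (by omega)
  · intro k _ hk
    rw [mem_Ico] at hk
    rw [cf, if_neg hk, hφ]

/-- The `k`-th martingale difference coefficient function. -/
noncomputable def gS (m D : ℕ) (b : Node × ℕ → ℝ) (k : ℕ) (ω : Om) : ℝ :=
  ∑ ν ∈ nodes m, cf D b k ν * vN ν ω

lemma sum_uS_eq (m D : ℕ) (b : Node × ℕ → ℝ) (ω : Om) :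
    ∑ i ∈ nodes m ×ˢ range D, b i * uS i ω
      = ∑ k ∈ range (m + D + 1), sg k ω * gS m D b k ω := by
  simp only [gS, mul_sum]
  rw [sum_comm, sum_product]
  refine sum_congr rfl fun ν hν => ?_
  rw [sum_cf b (by have := kN_le_of_mem hν; omega) (fun k x => sg k ω * (x * vN ν ω))
    (fun k => by simp)]
  refine sum_congr rfl fun d _ => ?_
  simp only [uS]; ring

lemma continuous_gS (m D : ℕ) (b : Node × ℕ → ℝ) (k : ℕ) : Continuous (gS m D b k) :=
  continuous_finsetSum _ fun ν _ => continuous_const.mul (continuous_vN ν)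

lemma gS_flp (m D : ℕ) (b : Node × ℕ → ℝ) (k j : ℕ) (ω : Om) (h : k ≤ j + 1) :
    gS m D b k (flp (j + 1) ω) = gS m D b k ω := by
  refine sum_congr rfl fun ν _ => ?_
  unfold cf
  split_ifs with h1
  · rw [vN_flp (by omega) (by omega)]
  · simp

/-- The subordination estimate for exponent `P` with constant `K`. -/
def SubEst (P K : ℝ) : Prop :=
  ∀ (m D : ℕ) (b b' : Node × ℕ → ℝ),
    (∀ ν ∈ nodes m, ∑ d ∈ range D, b' (ν, d) ^ 2 ≤ ∑ d ∈ range D, b (ν, d) ^ 2) →
    ∫ ω, |∑ i ∈ nodes m ×ˢ range D, b' i * uS i ω| ^ P ∂mu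
      ≤ K * ∫ ω, |∑ i ∈ nodes m ×ˢ range D, b i * uS i ω| ^ P ∂mu

lemma subEst_of_two_le {P : ℝ} (hP : 2 ≤ P) : ∃ K, 0 < K ∧ SubEst P K := by
  set q := P / 2 - 1 with hq
  have hq0 : 0 ≤ q := by rw [hq]; linarith
  have hK := bellK_pos hq0
  refine ⟨bellK q * (bellK q * bellK q), by positivity, fun m D b b' hb => ?_⟩
  have e : ∀ x : ℝ, |x| ^ P = (x ^ 2) ^ (q + 1) := fun x => by
    rw [← sq_abs, ← Real.rpow_two, ← Real.rpow_mul (abs_nonneg _)]
    congr 1; rw [hq]; ring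
  simp only [e, sum_uS_eq]
  have h1 := (square_fn hq0 (m + D) _ (continuous_gS m D b') (gS_flp m D b')).1
  have h3 := (square_fn hq0 (m + D) _ (continuous_gS m D b) (gS_flp m D b)).2
  have cont : ∀ (c : Node × ℕ → ℝ) (n k : ℕ), Continuous fun ω : Om => cf D c k (Sum.inl (ω 0)) +
      ∑ j ∈ range n, sg (j + 1) ω * cf D c k (Sum.inr ⟨j, res (j + 1) ω⟩) := fun c n k =>
    (continuous_comp_zero fun t => cf D c k (Sum.inl t)).add
      (continuous_finsetSum _ fun j _ => (continuous_sg _).mul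
        (continuous_comp_res (j + 1) fun t => cf D c k (Sum.inr ⟨j, t⟩)))
  have inv : ∀ (c : Node × ℕ → ℝ) (n k : ℕ) (ω : Om), cf D c k (Sum.inl (flp (n + 1) ω 0)) +
      ∑ j ∈ range n, sg (j + 1) (flp (n + 1) ω) *
        cf D c k (Sum.inr ⟨j, res (j + 1) (flp (n + 1) ω)⟩) = cf D c k (Sum.inl (ω 0)) +
      ∑ j ∈ range n, sg (j + 1) ω * cf D c k (Sum.inr ⟨j, res (j + 1) ω⟩) := fun c n k ω => by
    rw [flp_ne (by omega)]
    congr 1
    refine sum_congr rfl fun j hj => ?_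
    have := mem_range.1 hj
    rw [sg_flp_ne (by omega), res_flp (by omega)]
  have sq : ∀ ν ∈ nodes m, ∑ k ∈ range (m + D + 1), cf D b' k ν ^ 2
      ≤ ∑ k ∈ range (m + D + 1), cf D b k ν ^ 2 := fun ν hν => by
    have := kN_le_of_mem hν
    rw [sum_cf b' (by omega) (fun _ x => x ^ 2) (fun _ => by simp),
      sum_cf b (by omega) (fun _ x => x ^ 2) (fun _ => by simp)]
    exact hb ν hν
  have h2 := mart_vec hq0 m (range (m + D + 1))
    (fun n k ω => cf D b k (Sum.inl (ω 0)) +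
      ∑ j ∈ range n, sg (j + 1) ω * cf D b k (Sum.inr ⟨j, res (j + 1) ω⟩))
    (fun n k ω => cf D b k (Sum.inr ⟨n, res (n + 1) ω⟩))
    (fun n k ω => cf D b' k (Sum.inl (ω 0)) +
      ∑ j ∈ range n, sg (j + 1) ω * cf D b' k (Sum.inr ⟨j, res (j + 1) ω⟩))
    (fun n k ω => cf D b' k (Sum.inr ⟨n, res (n + 1) ω⟩))
    (cont b) (cont b') (fun n k ω => by rw [sum_range_succ, add_assoc])
    (fun n k ω => by rw [sum_range_succ, add_assoc]) (inv b)
    (fun n k ω => by rw [res_flp le_rfl]) (inv b') (fun n k ω => by rw [res_flp le_rfl])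
    (fun n hn ω => sq _ (by simp [nodes, hn])) (fun ω => by simpa using sq _ (by simp [nodes]))
  simp only [← sum_nodes] at h2
  refine h1.trans ?_
  rw [mul_assoc]
  refine mul_le_mul_of_nonneg_left (le_trans h2 ?_) hK.le
  rw [mul_assoc]
  exact mul_le_mul_of_nonneg_left h3 hK.le

/-! ### Orthogonality -/

/-- The measure of the support of a node. -/
noncomputable def nu : Node → ℝ
  | Sum.inl _ => 1 / 2
  | Sum.inr ⟨n, _⟩ => (1 / 2) ^ (n + 1)

lemma nu_pos (ν : Node) : 0 < nu ν := by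
  rcases ν with c | ⟨n, s⟩ <;> simp only [nu] <;> positivity

lemma ite_eq_sg (n : ℕ) (c : Fin 2) (ω : Om) :
    (if ω n = c then (1 : ℝ) else 0) = 1 / 2 + (if c = 0 then 1 / 2 else -1 / 2) * sg n ω := by
  unfold sg
  generalize ω n = a
  fin_cases a <;> fin_cases c <;> norm_num

lemma integral_half (n : ℕ) (c : Fin 2) {h : Om → ℝ} (hc : Continuous h)
    (hi : ∀ ω, h (flp n ω) = h ω) :
    ∫ ω, h ω * (if ω n = c then (1 : ℝ) else 0) ∂mu = 1 / 2 * ∫ ω, h ω ∂mu := by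
  have h0 : ∫ ω, h ω * sg n ω ∂mu = 0 :=
    integral_odd n (hc.mul (continuous_sg n)) fun ω => by rw [hi, sg_flp_same]; ring
  have e : ∀ ω, h ω * (if ω n = c then (1 : ℝ) else 0) =
      1 / 2 * h ω + (if c = 0 then 1 / 2 else -1 / 2) * (h ω * sg n ω) := fun ω => by
    rw [ite_eq_sg]; ring
  simp only [e]
  rw [integral_add ((integ hc).const_mul _) ((integ (hc.fun_mul (continuous_sg n))).const_mul _),
    integral_const_mul, integral_const_mul, h0]
  ring

lemma integral_cyl (n : ℕ) (s : Fin n → Fin 2) : ∫ ω, cyl n s ω ∂mu = (1 / 2) ^ n := by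
  induction n with
  | zero => simp [cyl, Subsingleton.elim (res 0 _) s]
  | succ n ih =>
    have e : ∀ ω, cyl (n + 1) s ω =
        cyl n (Fin.init s) ω * (if ω n = s (Fin.last n) then (1 : ℝ) else 0) := fun ω => by
      have : res (n + 1) ω = s ↔ res n ω = Fin.init s ∧ ω n = s (Fin.last n) := by
        simp only [funext_iff, Fin.forall_fin_succ', res, Fin.init]
        simp
      simp only [cyl, this]
      by_cases h1 : res n ω = Fin.init s <;> by_cases h2 : ω n = s (Fin.last n) <;> simp [h1, h2]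
    simp only [e]
    rw [integral_half n _ (continuous_cyl _ _) (cyl_flp le_rfl _), ih, pow_succ']

lemma vN_mul_self (ν : Node) (ω : Om) : vN ν ω * vN ν ω = |vN ν ω| := by
  rcases ν with c | ⟨n, s⟩
  · simp only [vN]; split_ifs <;> simp
  · simp only [vN, cyl, abs_mul, abs_sg]
    split_ifs <;> simp [sg_mul_self]

lemma abs_vN (ν : Node) (ω : Om) : |vN ν ω| = 0 ∨ |vN ν ω| = 1 := by
  rcases ν with c | ⟨n, s⟩
  · simp only [vN]; split_ifs <;> simp
  · simp only [vN, cyl, abs_mul, abs_sg]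
    split_ifs <;> simp

lemma integral_abs_vN (ν : Node) : ∫ ω, |vN ν ω| ∂mu = nu ν := by
  rcases ν with c | ⟨n, s⟩
  · have := integral_half 0 c (h := fun _ => 1) continuous_const (fun _ => rfl)
    simp only [one_mul, integral_const, probReal_univ, smul_eq_mul, mul_one] at this
    simp only [vN, nu, ← this]
    congr 1; funext ω; split_ifs <;> simp
  · simp only [vN, nu, ← integral_cyl (n + 1) s, abs_mul, abs_sg, one_mul]
    congr 1; funext ω; unfold cyl; split_ifs <;> simp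

lemma integral_vN_mul {ν ν' : Node} (h : ν ≠ ν') : ∫ ω, vN ν ω * vN ν' ω ∂mu = 0 := by
  have key : ∀ (n : ℕ) (s : Fin (n + 1) → Fin 2) (ν' : Node), kN ν' ≤ n + 1 →
      ∫ ω, vN (Sum.inr ⟨n, s⟩) ω * vN ν' ω ∂mu = 0 := fun n s ν' hk =>
    integral_odd (n + 1) ((continuous_vN _).mul (continuous_vN _)) fun ω => by
      rw [vN_flp (by omega) hk]
      simp only [vN]
      rw [sg_flp_same, cyl_flp le_rfl]; ring
  rcases ν with c | ⟨n, s⟩ <;> rcases ν' with c' | ⟨n', s'⟩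
  · have : c ≠ c' := fun e => h (by rw [e])
    refine integral_eq_zero_of_ae (Filter.Eventually.of_forall fun ω => ?_)
    simp only [vN]
    split_ifs with h1 h2
    · exact absurd (h1.symm.trans h2) this
    all_goals simp
  · simp only [mul_comm (vN (Sum.inl c) _)]
    exact key _ _ _ (by simp [kN])
  · exact key _ _ _ (by simp [kN])
  · rcases lt_trichotomy n n' with h1 | h1 | h1
    · simp only [mul_comm (vN (Sum.inr ⟨n, s⟩) _)]
      exact key _ _ _ (by simp only [kN]; omega)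
    · subst h1
      have : s ≠ s' := fun e => h (by rw [e])
      refine integral_eq_zero_of_ae (Filter.Eventually.of_forall fun ω => ?_)
      simp only [vN, cyl]
      split_ifs with h1 h2
      · exact absurd (h1.symm.trans h2) this
      all_goals simp
    · exact key _ _ _ (by simp only [kN]; omega)

lemma integral_uS_mul (i j : Node × ℕ) :
    ∫ ω, uS i ω * uS j ω ∂mu = if i = j then nu i.1 else 0 := by
  have key : ∀ i j : Node × ℕ, kN j.1 + j.2 < kN i.1 + i.2 → ∫ ω, uS i ω * uS j ω ∂mu = 0 :=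
    fun i j h => integral_odd (kN i.1 + i.2) ((continuous_uS _).mul (continuous_uS _)) fun ω => by
      simp only [uS]
      rw [sg_flp_same, sg_flp_ne h.ne, vN_flp (by omega) (by omega), vN_flp (by omega) (by omega)]
      ring
  rcases lt_trichotomy (kN j.1 + j.2) (kN i.1 + i.2) with h | h | h
  · rw [key i j h, if_neg (by rintro rfl; omega)]
  · have e : ∀ ω, uS i ω * uS j ω = vN i.1 ω * vN j.1 ω := fun ω => by
      simp only [uS, h]
      linear_combination (vN i.1 ω * vN j.1 ω) * sg_mul_self (kN i.1 + i.2) ω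
    simp only [e]
    split_ifs with h1
    · subst h1
      simp only [vN_mul_self, integral_abs_vN]
    · refine integral_vN_mul fun h2 => h1 (Prod.ext h2 ?_)
      rw [h2] at h; omega
  · simp only [mul_comm (uS i _)]
    rw [key j i h, if_neg (by rintro rfl; omega)]

lemma integral_sum_mul_uS (S : Finset (Node × ℕ)) (c : Node × ℕ → ℝ) (j : Node × ℕ) :
    ∫ ω, (∑ i ∈ S, c i * uS i ω) * uS j ω ∂mu = if j ∈ S then nu j.1 * c j else 0 := by
  simp only [sum_mul, mul_assoc]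
  rw [integral_finsetSum _ fun i _ =>
    (integ ((continuous_uS i).fun_mul (continuous_uS j))).const_mul _]
  simp only [integral_const_mul, integral_uS_mul, mul_ite, mul_zero, sum_ite_eq']
  split_ifs
  · ring
  · rfl

lemma integral_sum_mul_sum {S S' : Finset (Node × ℕ)} (h : S' ⊆ S) (c b : Node × ℕ → ℝ) :
    ∫ ω, (∑ i ∈ S, c i * uS i ω) * (∑ i ∈ S', b i * uS i ω) ∂mu
      = ∑ i ∈ S', nu i.1 * c i * b i := by
  have cS : Continuous fun ω => ∑ i ∈ S, c i * uS i ω :=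
    continuous_finsetSum _ fun i _ => continuous_const.mul (continuous_uS i)
  simp only [mul_sum S', mul_left_comm _ (b _)]
  rw [integral_finsetSum _ fun i _ => (integ (cS.fun_mul (continuous_uS i))).const_mul _]
  refine sum_congr rfl fun i hi => ?_
  rw [integral_const_mul, integral_sum_mul_uS, if_pos (h hi)]
  ring

end Pool.Agent.MP_30195a_an

end MrgPart4

-- ======== part 5: formerly Pool.Agent.MP_30195a_an.Run
section MrgPart5

/-!
# Runs of the algorithm, recorded by the indices of the chosen elements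
-/

set_option autoImplicit false

open Finset

namespace Pool.Agent.MP_30195a_an

variable {X : Type*} [NormedAddCommGroup X] [NormedSpace ℝ X] {ι : Type*} [DecidableEq ι]

/-- Indices chosen during the first `k` steps. -/
def chosen (idx : ℕ → ι) (k : ℕ) : Finset ι := (range k).image idx

lemma chosen_mono (idx : ℕ → ι) {k m : ℕ} (h : k ≤ m) : chosen idx k ⊆ chosen idx m :=
  image_subset_image (range_mono h)

lemma mem_chosen_succ (idx : ℕ → ι) (k : ℕ) : idx k ∈ chosen idx (k + 1) :=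
  mem_image_of_mem _ (self_mem_range_succ k)

lemma card_chosen_le (idx : ℕ → ι) (k : ℕ) : (chosen idx k).card ≤ k :=
  card_image_le.trans (card_range k).le

/-- A run in terms of indices. -/
structure IdxRun (ψ : ι → X) (t : ℝ) (f₀ : X) (idx : ℕ → ι) (f : ℕ → X) : Prop where
  select : ∀ m : ℕ, f m ≠ 0 → ∃ F : StrongDual ℝ X, IsNorming F (f m) ∧
    ∀ i, t * |F (ψ i)| ≤ |F (ψ (idx m))|
  approx_mem : ∀ m : ℕ, f₀ - f m ∈ Submodule.span ℝ (ψ '' (chosen idx m : Set ι))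
  approx_best : ∀ m : ℕ, ∀ G ∈ Submodule.span ℝ (ψ '' (chosen idx m : Set ι)), ‖f m‖ ≤ ‖f₀ - G‖

omit [NormedAddCommGroup X] [NormedSpace ℝ X] in
lemma image_chosen {ψ : ι → X} {φ : ℕ → X} {idx : ℕ → ι} (h : ∀ m, φ (m + 1) = ψ (idx m))
    (m : ℕ) : φ '' Set.Icc 1 m = ψ '' (chosen idx m : Set ι) := by
  ext y
  simp only [Set.mem_image, Set.mem_Icc, chosen, coe_image, coe_range, Set.mem_Iio]
  constructor
  · rintro ⟨j, ⟨h1, h2⟩, rfl⟩
    obtain ⟨j', rfl⟩ := Nat.exists_eq_add_of_le' h1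
    exact ⟨idx j', ⟨j', by omega, rfl⟩, (h j').symm⟩
  · rintro ⟨i, ⟨j, hj, rfl⟩, rfl⟩
    exact ⟨j + 1, ⟨by omega, by omega⟩, h j⟩

lemma IsRun.idxRun {ψ : ι → X} (hψ : ∀ i, ‖ψ i‖ ≤ 1) {t : ℝ} (ht : 0 ≤ t) {f₀ : X}
    {φ f : ℕ → X} (h : IsRun (Set.range ψ) t f₀ φ f) : ∃ idx, IdxRun ψ t f₀ idx f := by
  choose idx hidx using h.mem
  refine ⟨idx, ?_, ?_, ?_⟩
  · intro m hm
    obtain ⟨F, hF, h1⟩ := h.select m hm
    refine ⟨F, hF, fun i => ?_⟩
    rw [hidx m]
    refine le_trans (mul_le_mul_of_nonneg_left ?_ ht) h1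
    refine le_csSup ⟨1, ?_⟩ ⟨ψ i, ⟨i, rfl⟩, rfl⟩
    rintro _ ⟨_, ⟨j, rfl⟩, rfl⟩
    have := F.le_opNorm (ψ j)
    rw [hF.1, one_mul] at this
    exact this.trans (hψ j)
  · intro m
    rcases m with _ | m
    · rw [h.start, sub_self]; exact Submodule.zero_mem _
    · rw [← image_chosen (fun m => (hidx m).symm)]; exact h.approx_mem m
  · intro m G hG
    rcases m with _ | m
    · have : G = 0 := by simpa [chosen] using hG
      rw [this, sub_zero, h.start]
    · rw [← image_chosen (fun m => (hidx m).symm)] at hG; exact h.approx_best m G hG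

lemma IdxRun.isRun {ψ : ι → X} {t : ℝ} (ht : 0 ≤ t) (ht1 : t ≤ 1) {f₀ : X} {idx : ℕ → ι}
    {f : ℕ → X} (h : IdxRun ψ 1 f₀ idx f) :
    IsRun (Set.range ψ) t f₀ (fun m => ψ (idx (m - 1))) f := by
  have hφ : ∀ m, (fun m => ψ (idx (m - 1))) (m + 1) = ψ (idx m) := fun m => by simp
  refine ⟨?_, fun m => ⟨_, rfl⟩, ?_, ?_, ?_⟩
  · have := h.approx_mem 0
    simp only [chosen, range_zero, image_empty, coe_empty, Set.image_empty, Submodule.span_empty,
      Submodule.mem_bot] at this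
    exact (sub_eq_zero.1 this).symm
  · intro m hm
    obtain ⟨F, hF, h1⟩ := h.select m hm
    refine ⟨F, hF, ?_⟩
    rw [Nat.add_sub_cancel]
    have h2 : sSup ((fun g => |F g|) '' Set.range ψ) ≤ |F (ψ (idx m))| := by
      refine csSup_le ⟨_, ψ (idx m), ⟨_, rfl⟩, rfl⟩ ?_
      rintro _ ⟨_, ⟨j, rfl⟩, rfl⟩
      simpa using h1 j
    calc _ ≤ t * |F (ψ (idx m))| := mul_le_mul_of_nonneg_left h2 ht
      _ ≤ _ := mul_le_of_le_one_left (abs_nonneg _) ht1
  · intro m
    rw [image_chosen hφ]; exact h.approx_mem _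
  · intro m G hG
    rw [image_chosen hφ] at hG; exact h.approx_best _ G hG

namespace IdxRun

variable {ψ : ι → X} {t : ℝ} {f₀ : X} {idx : ℕ → ι} {f : ℕ → X}

lemma antitone (h : IdxRun ψ t f₀ idx f) {k m : ℕ} (hkm : k ≤ m) : ‖f m‖ ≤ ‖f k‖ := by
  have := h.approx_best m (f₀ - f k) (Submodule.span_mono
    (Set.image_mono (coe_subset.2 (chosen_mono idx hkm))) (h.approx_mem k))
  simpa using this

lemma step_le (h : IdxRun ψ t f₀ idx f) {k m : ℕ} (hkm : k ≤ m) {i : ι}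
    (hi : i ∈ chosen idx m) (l : ℝ) : ‖f m‖ ≤ ‖f k - l • ψ i‖ := by
  have := h.approx_best m (f₀ - f k + l • ψ i) (Submodule.add_mem _ (Submodule.span_mono
    (Set.image_mono (coe_subset.2 (chosen_mono idx hkm))) (h.approx_mem k))
    (Submodule.smul_mem _ _ (Submodule.subset_span ⟨i, hi, rfl⟩)))
  convert this using 2
  abel

/-- The norming functional of the residual kills the span of the chosen elements. -/
lemma norming_zero (h : IdxRun ψ t f₀ idx f) (hψ : ∀ i, ‖ψ i‖ ≤ 1) {γ s : ℝ} (hγ : 0 < γ)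
    (hD : ∀ (f g : X) (F : StrongDual ℝ X), f ≠ 0 → IsNorming F f → ‖g‖ ≤ 1 →
      ∃ l : ℝ, ‖f - l • g‖ ≤ ‖f‖ * (1 - γ * |F g| ^ s))
    {m : ℕ} (hm : f m ≠ 0) {F : StrongDual ℝ X} (hF : IsNorming F (f m))
    {G : X} (hG : G ∈ Submodule.span ℝ (ψ '' (chosen idx m : Set ι))) : F G = 0 := by
  induction hG using Submodule.span_induction with
  | mem x hx =>
    obtain ⟨i, hi, rfl⟩ := hx
    obtain ⟨l, hl⟩ := hD (f m) (ψ i) F hm hF (hψ i)
    have h1 := (h.step_le le_rfl hi l).trans hl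
    by_contra hne
    have h2 : 0 < γ * |F (ψ i)| ^ s := mul_pos hγ (Real.rpow_pos_of_pos (abs_pos.2 hne) _)
    have h3 := mul_pos (norm_pos_iff.2 hm) h2
    linarith
  | zero => simp
  | add x y _ _ hx hy => simp [hx, hy]
  | smul a x _ hx => simp [hx]

end IdxRun

/-- Best approximations from finite-dimensional subspaces exist. -/
lemma exists_best (S : Submodule ℝ X) [FiniteDimensional ℝ S] (f₀ : X) :
    ∃ r : X, f₀ - r ∈ S ∧ ∀ G ∈ S, ‖r‖ ≤ ‖f₀ - G‖ := by
  have : ProperSpace S := FiniteDimensional.proper_real S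
  have hc : Continuous fun G : S => ‖f₀ - (G : X)‖ := by fun_prop
  have ht : Filter.Tendsto (fun G : S => ‖f₀ - (G : X)‖) (Filter.cocompact S) Filter.atTop := by
    refine Filter.tendsto_atTop_mono (f := fun G : S => ‖G‖ - ‖f₀‖) ?_ ?_
    · intro G
      have := norm_sub_norm_le (G : X) f₀
      rw [norm_sub_rev f₀]
      simpa using this
    · exact Filter.tendsto_atTop_add_const_right _ _ tendsto_norm_cocompact_atTop
  obtain ⟨G, hG⟩ := hc.exists_forall_le ht
  exact ⟨f₀ - G, by simp, fun G' hG' => hG ⟨G', hG'⟩⟩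

/-- Runs with `t = 1` exist as soon as the supremum in the greedy step is attained. -/
lemma exists_idxRun (ψ : ι → X) (hmax : ∀ F : StrongDual ℝ X, ∃ j, ∀ i, |F (ψ i)| ≤ |F (ψ j)|)
    (f₀ : X) : ∃ idx f, IdxRun ψ 1 f₀ idx f := by
  have hbest : ∀ Λ : Finset ι, ∃ r : X, f₀ - r ∈ Submodule.span ℝ (ψ '' (Λ : Set ι)) ∧
      ∀ G ∈ Submodule.span ℝ (ψ '' (Λ : Set ι)), ‖r‖ ≤ ‖f₀ - G‖ := fun Λ =>
    haveI := FiniteDimensional.span_of_finite ℝ (Λ.finite_toSet.image ψ)
    exists_best _ f₀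
  choose R hR1 hR2 using hbest
  have hsel : ∀ r : X, ∃ j, r ≠ 0 → ∃ F : StrongDual ℝ X, IsNorming F r ∧
      ∀ i, 1 * |F (ψ i)| ≤ |F (ψ j)| := by
    intro r
    by_cases hr : r = 0
    · obtain ⟨j, _⟩ := hmax 0
      exact ⟨j, fun h => absurd hr h⟩
    · obtain ⟨F, hF1, hF2⟩ := exists_dual_vector ℝ r (norm_ne_zero_iff.2 hr)
      obtain ⟨j, hj⟩ := hmax F
      exact ⟨j, fun _ => ⟨F, ⟨hF1, by simpa using hF2⟩, by simpa using hj⟩⟩
  choose sel hsel using hsel
  let Λ : ℕ → Finset ι := fun k => Nat.rec ∅ (fun _ L => insert (sel (R L)) L) k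
  have hΛ : ∀ k, chosen (fun k => sel (R (Λ k))) k = Λ k := by
    intro k
    induction k with
    | zero => simp [chosen, Λ]
    | succ k ih =>
      unfold chosen at ih ⊢
      rw [range_add_one, image_insert, ih]
  refine ⟨fun k => sel (R (Λ k)), fun k => R (Λ k), fun m hm => hsel _ hm, fun m => ?_,
    fun m => ?_⟩
  · rw [hΛ]; exact hR1 _
  · rw [hΛ]; exact hR2 _

end Pool.Agent.MP_30195a_an

end MrgPart5

-- ======== part 6: formerly Pool.Agent.MP_30195a_an.Smooth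
section MrgPart6

/-!
# Smoothness of `L_p` and the formula for norming functionals
-/

set_option autoImplicit false

open MeasureTheory
open scoped ENNReal

namespace Pool.Agent.MP_30195a_an

/-- Power-type smoothness with exponent `q` and constant `C`. -/
def SmoothType (X : Type*) [NormedAddCommGroup X] [NormedSpace ℝ X] (q C : ℝ) : Prop :=
  ∀ (f g : X) (F : StrongDual ℝ X) (l : ℝ), f ≠ 0 → IsNorming F f → ‖g‖ ≤ 1 → |l| ≤ 1 →
    ‖f + (l * ‖f‖) • g‖ ≤ ‖f‖ * (1 + l * F g + C * |l| ^ q)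

section Lp

variable {α : Type*} [MeasurableSpace α] {μ : Measure α} {p : ℝ≥0∞} [Fact (1 ≤ p)]

lemma one_lt_toReal {p : ℝ≥0∞} (hp1 : 1 < p) (hp : p ≠ ∞) : 1 < p.toReal := by
  have := (ENNReal.toReal_lt_toReal ENNReal.one_ne_top hp).2 hp1
  simpa using this

lemma integrable_abs_rpow (hp : p ≠ ∞) (f : Lp ℝ p μ) :
    Integrable (fun x => |f x| ^ p.toReal) μ := by
  have hp0 : p ≠ 0 := (zero_lt_one.trans_le (Fact.out : 1 ≤ p)).ne'
  simpa using (Lp.memLp f).integrable_norm_rpow hp0 hp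

lemma norm_rpow_eq (hp : p ≠ ∞) (f : Lp ℝ p μ) :
    ‖f‖ ^ p.toReal = ∫ x, |f x| ^ p.toReal ∂μ := by
  have hp0 : p ≠ 0 := (zero_lt_one.trans_le (Fact.out : 1 ≤ p)).ne'
  have hP : 0 < p.toReal := ENNReal.toReal_pos hp0 hp
  have h0 : 0 ≤ ∫ x, |f x| ^ p.toReal ∂μ := integral_nonneg fun x => by positivity
  rw [Lp.norm_def, (Lp.memLp f).eLpNorm_eq_integral_rpow_norm hp0 hp]
  simp only [Real.norm_eq_abs]
  rw [ENNReal.toReal_ofReal (Real.rpow_nonneg h0 _), Real.rpow_inv_rpow h0 hP.ne']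

lemma abs_gp_mul_le {P : ℝ} (hP : 1 < P) (a b : ℝ) : |gp P a * b| ≤ |a| ^ P + |b| ^ P := by
  rw [abs_mul, abs_gp hP]
  have h1 : 0 ≤ |a| ^ P := by positivity
  have h2 : 0 ≤ |b| ^ P := by positivity
  have key : ∀ x : ℝ, 0 ≤ x → x ^ (P - 1) * x = x ^ P := fun x hx => by
    rw [← Real.rpow_add_one' hx (by rw [sub_add_cancel]; linarith), sub_add_cancel]
  rcases le_total |a| |b| with h | h
  · have : |a| ^ (P - 1) ≤ |b| ^ (P - 1) := Real.rpow_le_rpow (abs_nonneg _) h (by linarith)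
    have h3 := mul_le_mul_of_nonneg_right this (abs_nonneg b)
    rw [key _ (abs_nonneg b)] at h3
    linarith
  · have h3 := mul_le_mul_of_nonneg_left h (Real.rpow_nonneg (abs_nonneg a) (P - 1))
    rw [key _ (abs_nonneg a)] at h3
    linarith

lemma integrable_gp_mul (hp1 : 1 < p) (hp : p ≠ ∞) (f g : Lp ℝ p μ) :
    Integrable (fun x => gp p.toReal (f x) * g x) μ := by
  have hP := one_lt_toReal hp1 hp
  refine Integrable.mono' ((integrable_abs_rpow hp f).add (integrable_abs_rpow hp g)) ?_ ?_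
  · exact ((continuous_gp hP).comp_aestronglyMeasurable (Lp.aestronglyMeasurable f)).mul
      (Lp.aestronglyMeasurable g)
  · exact Filter.Eventually.of_forall fun x => abs_gp_mul_le hP _ _

lemma norm_add_smul_rpow_le (hp1 : 1 < p) (hp : p ≠ ∞) {C : ℝ}
    (hC : ∀ a b l : ℝ, |l| ≤ 1 → |a + l * b| ^ p.toReal ≤ |a| ^ p.toReal
      + p.toReal * l * (gp p.toReal a * b)
      + C * |l| ^ (min p.toReal 2) * (|a| ^ p.toReal + |b| ^ p.toReal))
    (f g : Lp ℝ p μ) {l : ℝ} (hl : |l| ≤ 1) :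
    ‖f + l • g‖ ^ p.toReal ≤ ‖f‖ ^ p.toReal
      + p.toReal * l * (∫ x, gp p.toReal (f x) * g x ∂μ)
      + C * |l| ^ (min p.toReal 2) * (‖f‖ ^ p.toReal + ‖g‖ ^ p.toReal) := by
  have i1 := integrable_abs_rpow hp f
  have i2 := integrable_abs_rpow hp g
  have i3 := integrable_gp_mul hp1 hp f g
  have i4 : Integrable (fun x => |f x| ^ p.toReal
      + p.toReal * l * (gp p.toReal (f x) * g x)) μ := i1.add (i3.const_mul _)
  have i5 : Integrable (fun x => C * |l| ^ (min p.toReal 2) *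
      (|f x| ^ p.toReal + |g x| ^ p.toReal)) μ := (i1.add i2).const_mul _
  rw [norm_rpow_eq hp, norm_rpow_eq hp, norm_rpow_eq hp, ← integral_add i1 i2,
    ← integral_const_mul, ← integral_const_mul, ← integral_add i1 (i3.const_mul _),
    ← integral_add i4 i5]
  refine integral_mono_ae (integrable_abs_rpow hp _) (i4.add i5) ?_
  filter_upwards [Lp.coeFn_add f (l • g), Lp.coeFn_smul l g] with x h1 h2
  rw [h1, Pi.add_apply, h2, Pi.smul_apply, smul_eq_mul]
  exact hC _ _ _ hl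

lemma eq_zero_of_le_rpow {d K q : ℝ} (hq : 1 < q)
    (h : ∀ l : ℝ, |l| ≤ 1 → l * d ≤ K * |l| ^ q) : d = 0 := by
  have key : ∀ e : ℝ, (∀ l : ℝ, 0 < l → l ≤ 1 → l * e ≤ K * l ^ q) → e ≤ 0 := by
    intro e he
    have h1 : Filter.Tendsto (fun l : ℝ => K * l ^ (q - 1)) (nhdsWithin 0 (Set.Ioi 0)) (nhds 0) := by
      have : Continuous (fun l : ℝ => K * l ^ (q - 1)) :=
        continuous_const.mul (continuous_id.rpow_const fun _ => Or.inr (by linarith))
      have h2 := this.tendsto 0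
      rw [Real.zero_rpow (by linarith), mul_zero] at h2
      exact h2.mono_left nhdsWithin_le_nhds
    refine ge_of_tendsto h1 ?_
    filter_upwards [Ioc_mem_nhdsGT (zero_lt_one' ℝ)] with l hl
    have h3 := he l hl.1 hl.2
    have e' : l ^ q = l * l ^ (q - 1) := by
      rw [mul_comm, ← Real.rpow_add_one hl.1.ne']; congr 1; ring
    rw [e'] at h3
    have h4 : l * e ≤ l * (K * l ^ (q - 1)) := by linarith
    exact le_of_mul_le_mul_left h4 hl.1
  have h1 := key d fun l h0 h1 => by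
    have := h l (by rwa [abs_of_pos h0])
    rwa [abs_of_pos h0] at this
  have h2 := key (-d) fun l h0 h1 => by
    have := h (-l) (by rwa [abs_neg, abs_of_pos h0])
    rw [abs_neg, abs_of_pos h0] at this
    linarith
  linarith

lemma IsNorming.le_norm_add {X : Type*} [NormedAddCommGroup X] [NormedSpace ℝ X]
    {F : StrongDual ℝ X} {f : X} (hF : IsNorming F f) (g : X) : ‖f‖ + F g ≤ ‖f + g‖ := by
  have h := F.le_opNorm (f + g)
  rw [hF.1, one_mul, map_add, hF.2] at h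
  exact (le_abs_self _).trans h

lemma IsNorming.abs_le {X : Type*} [NormedAddCommGroup X] [NormedSpace ℝ X]
    {F : StrongDual ℝ X} {f : X} (hF : IsNorming F f) (g : X) : |F g| ≤ ‖g‖ := by
  have h := F.le_opNorm g
  rwa [hF.1, one_mul] at h

/-- The norming functional of a nonzero element of `L_p`. -/
lemma norming_formula (hp1 : 1 < p) (hp : p ≠ ∞) {f : Lp ℝ p μ} (hf : f ≠ 0)
    {F : StrongDual ℝ (Lp ℝ p μ)} (hF : IsNorming F f) (g : Lp ℝ p μ) :
    ‖f‖ ^ (p.toReal - 1) * F g = ∫ x, gp p.toReal (f x) * g x ∂μ := by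
  have hP := one_lt_toReal hp1 hp
  obtain ⟨C, hC1, hC⟩ := pointwise_smooth hP
  have hn : 0 < ‖f‖ := norm_pos_iff.2 hf
  have hq : 1 < min p.toReal 2 := lt_min hP (by norm_num)
  rw [← sub_eq_zero]
  refine eq_zero_of_le_rpow (K := C * (‖f‖ ^ p.toReal + ‖g‖ ^ p.toReal) / p.toReal) hq ?_
  intro l hl
  have h1 := norm_add_smul_rpow_le hp1 hp hC f g hl
  have h2 := tangent_rpow hP.le (norm_nonneg (f + l • g)) hn
  have h3 := hF.le_norm_add (l • g)
  rw [map_smul, smul_eq_mul] at h3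
  have h4 : 0 ≤ p.toReal * ‖f‖ ^ (p.toReal - 1) := by positivity
  have h5 := mul_le_mul_of_nonneg_left (show l * F g ≤ ‖f + l • g‖ - ‖f‖ by linarith) h4
  rw [div_mul_eq_mul_div, le_div_iff₀ (by linarith)]
  linarith

lemma smoothType_Lp (hp1 : 1 < p) (hp : p ≠ ∞) :
    ∃ C : ℝ, 1 ≤ C ∧ SmoothType (Lp ℝ p μ) (min p.toReal 2) C := by
  have hP := one_lt_toReal hp1 hp
  obtain ⟨C, hC1, hC⟩ := pointwise_smooth hP
  refine ⟨2 * C, by linarith, fun f g F l hf hF hg hl => ?_⟩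
  have hn : 0 < ‖f‖ := norm_pos_iff.2 hf
  have h1 := norm_add_smul_rpow_le hp1 hp hC f (‖f‖ • g) hl
  rw [← norming_formula hp1 hp hf hF, map_smul, smul_eq_mul, smul_smul] at h1
  have h2 := tangent_rpow hP.le (norm_nonneg (f + (l * ‖f‖) • g)) hn
  have h3 : ‖‖f‖ • g‖ ^ p.toReal ≤ ‖f‖ ^ p.toReal := by
    refine Real.rpow_le_rpow (norm_nonneg _) ?_ (by linarith)
    rw [norm_smul, norm_norm]
    exact mul_le_of_le_one_right hn.le hg
  have e : ‖f‖ ^ p.toReal = ‖f‖ ^ (p.toReal - 1) * ‖f‖ := by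
    rw [← Real.rpow_add_one hn.ne']; congr 1; ring
  have hz : 0 < ‖f‖ ^ (p.toReal - 1) := Real.rpow_pos_of_pos hn _
  have hl0 : 0 ≤ C * |l| ^ (min p.toReal 2) := by positivity
  have h4 := mul_le_mul_of_nonneg_left (add_le_add_right h3 (‖f‖ ^ p.toReal)) hl0
  have h5 : 0 ≤ (p.toReal - 1) * (C * |l| ^ (min p.toReal 2) * ‖f‖ ^ p.toReal) :=
    mul_nonneg (by linarith) (by positivity)
  have h6 : (p.toReal * ‖f‖ ^ (p.toReal - 1)) * ‖f + (l * ‖f‖) • g‖ ≤
      (p.toReal * ‖f‖ ^ (p.toReal - 1)) *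
        (‖f‖ * (1 + l * F g + 2 * C * |l| ^ (min p.toReal 2))) := by
    rw [e] at h1 h2 h4 h5
    linarith
  exact le_of_mul_le_mul_left h6 (by positivity)

end Lp

/-- One step of descent along a direction where the norming functional is large. -/
lemma SmoothType.descent {X : Type*} [NormedAddCommGroup X] [NormedSpace ℝ X] {q C : ℝ}
    (hq : 1 < q) (hC : 1 ≤ C) (h : SmoothType X q C) :
    ∃ γ : ℝ, 0 < γ ∧ ∀ (f g : X) (F : StrongDual ℝ X), f ≠ 0 → IsNorming F f → ‖g‖ ≤ 1 →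
      ∃ l : ℝ, ‖f - l • g‖ ≤ ‖f‖ * (1 - γ * |F g| ^ (q / (q - 1))) := by
  have hq1 : 0 < q - 1 := by linarith
  refine ⟨(1 / 2) * (2 * C) ^ (-(q - 1)⁻¹), by positivity, fun f g F hf hF hg => ?_⟩
  set y := |F g| with hy
  have hy0 : 0 ≤ y := abs_nonneg _
  have hy1 : y ≤ 1 := (hF.abs_le g).trans hg
  set τ := (y / (2 * C)) ^ (q - 1)⁻¹ with hτ
  have hτ0 : 0 ≤ τ := by positivity
  have hτ1 : τ ≤ 1 := Real.rpow_le_one (by positivity)
    (by rw [div_le_one (by linarith)]; linarith) (by positivity)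
  have hτq : τ ^ q = τ * (y / (2 * C)) := by
    have e1 : τ ^ (q - 1) = y / (2 * C) := Real.rpow_inv_rpow (by positivity) hq1.ne'
    rw [← e1, mul_comm, ← Real.rpow_add_one' hτ0 (by rw [sub_add_cancel]; linarith),
      sub_add_cancel]
  have hτy : τ * y = (2 * C) ^ (-(q - 1)⁻¹) * y ^ (q / (q - 1)) := by
    have e1 : q / (q - 1) = (q - 1)⁻¹ + 1 := by field_simp; ring
    rw [e1, Real.rpow_add_one' hy0 (by positivity), hτ, Real.div_rpow hy0 (by linarith),
      Real.rpow_neg (by linarith)]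
    ring
  obtain ⟨s, hs1, hs2⟩ : ∃ s : ℝ, |s| = 1 ∧ s * F g = -y := by
    rcases le_total 0 (F g) with h' | h'
    · exact ⟨-1, by simp, by rw [hy, abs_of_nonneg h']; ring⟩
    · exact ⟨1, by simp, by rw [hy, abs_of_nonpos h']; ring⟩
  have hl : |s * τ| = τ := by rw [abs_mul, hs1, one_mul, abs_of_nonneg hτ0]
  have h1 := h f g F (s * τ) hf hF hg (by rw [hl]; exact hτ1)
  refine ⟨-(s * τ * ‖f‖), ?_⟩
  rw [neg_smul, sub_neg_eq_add]
  refine h1.trans (le_of_eq ?_)
  congr 1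
  rw [hl, hτq, mul_assoc (1 / 2 : ℝ), ← hτy, mul_right_comm, hs2]
  field_simp
  ring

end Pool.Agent.MP_30195a_an

end MrgPart6

-- ======== part 7: formerly Pool.Agent.MP_30195a_an.Uncond
section MrgPart7

/-!
# General facts on unconditional bases
-/

set_option autoImplicit false

open Finset Filter Topology

namespace Pool.Agent.MP_30195a_an

variable {X : Type*} [NormedAddCommGroup X] [NormedSpace ℝ X]

omit [NormedSpace ℝ X] in
lemma hasSum_cond_iff {u : ℕ → X} {a : X} :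
    HasSum u a (SummationFilter.conditional ℕ) ↔
      Tendsto (fun n => ∑ i ∈ range n, u i) atTop (𝓝 a) := by
  rw [HasSum, SummationFilter.conditional_filter_eq_map_range, tendsto_map'_iff]
  rfl

lemma IsUnconditional.summable [CompleteSpace X] {Ψ : SchauderBasis ℝ X}
    (h : IsUnconditional Ψ) (x : X) : Summable fun k => Ψ.coord k x • Ψ k := by
  classical
  rw [summable_iff_vanishing_norm]
  by_contra hcon
  push Not at hcon
  obtain ⟨ε, hε, hcon⟩ := hcon
  choose t ht1 ht2 using hcon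
  let n : ℕ → ℕ := fun j => Nat.rec 0 (fun _ m => max m ((t (range m)).sup id) + 1) j
  have hn : ∀ j, n (j + 1) = max (n j) ((t (range (n j))).sup id) + 1 := fun j => rfl
  have hmono : StrictMono n := strictMono_nat_of_lt_succ fun j => by
    rw [hn]; exact Nat.lt_succ_of_le (le_max_left _ _)
  have hsub : ∀ j, t (range (n j)) ⊆ Ico (n j) (n (j + 1)) := by
    intro j k hk
    rw [mem_Ico]
    constructor
    · by_contra hlt
      exact disjoint_left.1 (ht1 _) hk (mem_range.2 (not_le.1 hlt))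
    · rw [hn]
      exact Nat.lt_succ_of_le (le_max_of_le_right (le_sup (f := id) hk))
  let θ : ℕ → ℝ := fun k => if ∃ j, k ∈ t (range (n j)) then 1 else -1
  obtain ⟨T, hT⟩ := h θ fun k => by
    simp only [θ]; split_ifs <;> simp
  have h1 := hasSum_cond_iff.1 ((hT x).add (Ψ.expansion x))
  have h2 := h1.comp hmono.tendsto_atTop
  have h3 := (h2.comp (tendsto_add_atTop_nat 1)).sub h2
  rw [sub_self] at h3
  have h4 : ∀ j, (∑ i ∈ range (n (j + 1)), ((θ i * Ψ.coord i x) • Ψ i + Ψ.coord i x • Ψ i)) -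
      (∑ i ∈ range (n j), ((θ i * Ψ.coord i x) • Ψ i + Ψ.coord i x • Ψ i))
      = (2 : ℝ) • ∑ i ∈ t (range (n j)), Ψ.coord i x • Ψ i := by
    intro j
    rw [← sum_Ico_eq_sub _ (hmono.monotone (Nat.le_succ j)), smul_sum,
      ← sum_subset (hsub j)]
    · refine sum_congr rfl fun i hi => ?_
      have : θ i = 1 := if_pos ⟨j, hi⟩
      rw [this, one_mul, two_smul]
    · intro i hi hi'
      have : θ i = -1 := by
        refine if_neg ?_
        rintro ⟨j', hj'⟩
        have a1 := mem_Ico.1 (hsub j' hj')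
        have a2 := mem_Ico.1 hi
        have b1 : j' < j + 1 := hmono.lt_iff_lt.1 (a1.1.trans_lt a2.2)
        have b2 : j < j' + 1 := hmono.lt_iff_lt.1 (a2.1.trans_lt a1.2)
        have : j' = j := by omega
        exact hi' (this ▸ hj')
      rw [this]; simp
  have h5 := (continuous_norm.tendsto _).comp h3
  rw [norm_zero] at h5
  obtain ⟨j, hj⟩ := (h5.eventually (gt_mem_nhds hε)).exists
  simp only [Function.comp] at hj
  rw [h4, norm_smul] at hj
  have := ht2 (range (n j))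
  simp only [Real.norm_ofNat] at hj
  linarith

lemma IsUnconditional.exists_proj_le [CompleteSpace X] {Ψ : SchauderBasis ℝ X}
    (h : IsUnconditional Ψ) :
    ∃ U : ℝ, 1 ≤ U ∧ ∀ (A : Finset ℕ) (x : X),
      ‖GeneralSchauderBasis.proj Ψ A x‖ ≤ U * ‖x‖ := by
  let b : UnconditionalSchauderBasis ℕ ℝ X :=
    { basis := Ψ.basis
      coord := Ψ.coord
      ortho := Ψ.ortho
      expansion := fun x => by
        have h1 := (h.summable x).hasSum
        have h2 := tendsto_nhds_unique h1.tendsto_sum_nat (hasSum_cond_iff.1 (Ψ.expansion x))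
        rwa [h2] at h1 }
  obtain ⟨C, hC⟩ := b.exists_norm_proj_le
  refine ⟨max C 1, le_max_right _ _, fun A x => ?_⟩
  exact ((GeneralSchauderBasis.proj b A).le_opNorm x).trans
    (mul_le_mul_of_nonneg_right ((hC A).trans (le_max_left _ _)) (norm_nonneg _))

/-- The multiplier estimate on finite sums. -/
def MultBound {ι : Type*} (ψ : ι → X) (K : ℝ) : Prop :=
  ∀ (S : Finset ι) (a θ : ι → ℝ), (∀ i, |θ i| ≤ 1) →
    ‖∑ i ∈ S, (θ i * a i) • ψ i‖ ≤ K * ‖∑ i ∈ S, a i • ψ i‖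

/-- A normalized family with dense span and the multiplier estimate is an unconditional basis. -/
lemma exists_basis [CompleteSpace X] {ι : Type*} (e : ℕ ≃ ι) {ψ : ι → X} {K : ℝ}
    (hn : ∀ i, ‖ψ i‖ = 1) (hK : MultBound ψ K)
    (hd : Dense (Submodule.span ℝ (Set.range ψ) : Set X)) :
    ∃ Ψ : SchauderBasis ℝ X, (∀ k, Ψ k = ψ (e k)) ∧ IsUnconditional Ψ := by
  classical
  let L := Finsupp.linearCombination ℝ ψ
  have hL : DenseRange L := by
    rw [← Finsupp.range_linearCombination] at hd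
    exact hd
  have hL1 : ∀ i, L (Finsupp.single i 1) = ψ i := fun i => by simp [L]
  have hM : ∀ θ : ι → ℝ, (∀ i, |θ i| ≤ 1) → ∃ M : X →L[ℝ] X, (∀ i, M (ψ i) = θ i • ψ i) ∧
      ∀ x, ‖M x‖ ≤ K * ‖x‖ := by
    intro θ hθ
    have hb : ∀ a : ι →₀ ℝ,
        ‖Finsupp.linearCombination ℝ (fun i => θ i • ψ i) a‖ ≤ K * ‖L a‖ := by
      intro a
      have := hK a.support a θ hθ
      simp only [L, Finsupp.linearCombination_apply, Finsupp.sum, smul_smul]
      simpa only [mul_comm] using this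
    refine ⟨(Finsupp.linearCombination ℝ (fun i => θ i • ψ i)).extendOfNorm L, fun i => ?_,
      LinearMap.norm_extendOfNorm_apply_le hL K hb⟩
    rw [← hL1, LinearMap.extendOfNorm_eq hL ⟨K, hb⟩]
    simp [L]
  have hc : ∀ i, ∃ c : StrongDual ℝ X, ∀ j, c (ψ j) = (Pi.single j (1 : ℝ) : ι → ℝ) i := by
    intro i
    have hb : ∀ a : ι →₀ ℝ, ‖(Finsupp.lapply i : (ι →₀ ℝ) →ₗ[ℝ] ℝ) a‖ ≤ K * ‖L a‖ := by
      intro a
      have := hK a.support a (fun j => if j = i then 1 else 0) fun j => by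
        split_ifs <;> simp
      simp only [ite_mul, one_mul, zero_mul, ite_smul, zero_smul, sum_ite_eq'] at this
      simp only [L, Finsupp.linearCombination_apply, Finsupp.sum, Finsupp.lapply_apply]
      refine le_trans (le_of_eq ?_) this
      split_ifs with h
      · rw [norm_smul, hn, mul_one]
      · rw [Finsupp.notMem_support_iff.1 h]; simp
    refine ⟨(Finsupp.lapply i : (ι →₀ ℝ) →ₗ[ℝ] ℝ).extendOfNorm L, fun j => ?_⟩
    rw [← hL1, LinearMap.extendOfNorm_eq hL ⟨K, hb⟩]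
    simp [Finsupp.single_apply, Pi.single_apply, eq_comm]
  choose c hc using hc
  have hproj : ∀ (S : Finset ι) (x : X), ‖∑ i ∈ S, c i x • ψ i‖ ≤ K * ‖x‖ := by
    intro S x
    obtain ⟨M, hM1, hM2⟩ := hM (fun j => if j ∈ S then 1 else 0) fun j => by
      split_ifs <;> simp
    have : (∑ i ∈ S, (c i).smulRight (ψ i)) = M := by
      refine ContinuousLinearMap.ext_on hd ?_
      rintro _ ⟨j, rfl⟩
      simp [hc, hM1, Pi.single_apply]
    have h2 := hM2 x
    rw [← this] at h2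
    simpa using h2
  have hexp : ∀ x, HasSum (fun i => c i x • ψ i) x := by
    intro x
    rw [HasSum, Metric.tendsto_nhds]
    intro ε hε
    obtain ⟨a, ha⟩ := hL.exists_dist_lt x (show 0 < ε / (|K| + 1) by positivity)
    filter_upwards [eventually_ge_atTop a.support] with S hS
    have h1 : ∑ i ∈ S, c i (L a) • ψ i = L a := by
      simp only [L, Finsupp.linearCombination_apply, Finsupp.sum, map_sum, map_smul, hc,
        smul_eq_mul, Pi.single_apply, mul_ite, mul_one, mul_zero, sum_ite_eq]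
      rw [← sum_subset hS]
      · exact sum_congr rfl fun i hi => by rw [if_pos hi]
      · intro i _ hi
        rw [if_neg hi, zero_smul]
    have h2 : ∑ i ∈ S, c i x • ψ i - x = ∑ i ∈ S, c i (x - L a) • ψ i - (x - L a) := by
      simp only [map_sub, sub_smul, sum_sub_distrib, h1]
      abel
    rw [dist_eq_norm, h2]
    rw [dist_eq_norm, lt_div_iff₀ (by positivity)] at ha
    have h3 := hproj S (x - L a)
    have h4 := norm_sub_le (∑ i ∈ S, c i (x - L a) • ψ i) (x - L a)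
    have h5 := mul_le_mul_of_nonneg_right (le_abs_self K) (norm_nonneg (x - L a))
    linarith
  refine ⟨{ basis := fun k => ψ (e k)
            coord := fun k => c (e k)
            ortho := fun i j => by simp [hc, Pi.single_apply]
            expansion := fun x => ?_ }, fun k => rfl, ?_⟩
  · exact hasSum_cond_iff.2 (e.hasSum_iff.2 (hexp x)).tendsto_sum_nat
  · intro θ hθ
    obtain ⟨M, hM1, _⟩ := hM (fun i => θ (e.symm i)) fun i => by
      rcases hθ (e.symm i) with h | h <;> simp [h]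
    refine ⟨M, fun x => ?_⟩
    have h1 := (e.hasSum_iff.2 (hexp x)).mapL M
    refine hasSum_cond_iff.2 ?_
    have h2 := h1.tendsto_sum_nat
    simpa [hM1, smul_smul, mul_comm] using h2

lemma exists_signs_small {q C : ℝ} (hq : 1 < q) (hC : 1 ≤ C) (hs : SmoothType X q C)
    {ι : Type*} {ψ : ι → X} (hn : ∀ i, ‖ψ i‖ ≤ 1) {η : ℝ} (hη : 0 < η) :
    ∃ n₀ : ℝ, ∀ S : Finset ι, ∃ θ : ι → ℝ, (∀ i, θ i = 1 ∨ θ i = -1) ∧
      ‖∑ i ∈ S, θ i • ψ i‖ ≤ n₀ + η * S.card := by
  classical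
  have h1 : Tendsto (fun y : ℝ => C * y ^ (-(q - 1))) atTop (𝓝 0) := by
    simpa using (tendsto_rpow_neg_atTop (by linarith : 0 < q - 1)).const_mul C
  obtain ⟨n₁, hn₁⟩ := eventually_atTop.1 ((h1.eventually (gt_mem_nhds hη)).and
    (eventually_ge_atTop 1))
  have hn1 : 1 ≤ n₁ := (hn₁ n₁ le_rfl).2
  refine ⟨n₁ + 1, fun S => ?_⟩
  induction S using Finset.induction_on with
  | empty => exact ⟨fun _ => 1, fun _ => Or.inl rfl, by simp; linarith⟩
  | insert i S hi ih =>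
    obtain ⟨θ, hθ, hb⟩ := ih
    set y := ∑ i ∈ S, θ i • ψ i with hy
    have key : ∃ s : ℝ, (s = 1 ∨ s = -1) ∧ ‖y + s • ψ i‖ ≤ n₁ + 1 + η * (S.card + 1) := by
      by_cases hc : ‖y‖ ≤ n₁
      · refine ⟨1, Or.inl rfl, ?_⟩
        have := norm_add_le y (ψ i)
        have := hn i
        have : 0 ≤ η * (S.card + 1) := by positivity
        rw [one_smul]
        linarith
      · push Not at hc
        have hy0 : 0 < ‖y‖ := by linarith
        obtain ⟨F, hF1, hF2⟩ := exists_dual_vector ℝ y hy0.ne'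
        obtain ⟨s, hs1, hs2⟩ : ∃ s : ℝ, (s = 1 ∨ s = -1) ∧ s * F (ψ i) ≤ 0 := by
          rcases le_total 0 (F (ψ i)) with h' | h'
          · exact ⟨-1, Or.inr rfl, by linarith⟩
          · exact ⟨1, Or.inl rfl, by linarith⟩
        have hl : |s / ‖y‖| = ‖y‖⁻¹ := by
          rcases hs1 with h | h <;> simp [h, abs_div]
        have h2 := hs y (ψ i) F (s / ‖y‖) (norm_pos_iff.1 hy0) ⟨hF1, by simpa using hF2⟩ (hn i)
          (by rw [hl]; exact inv_le_one_of_one_le₀ (by linarith))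
        rw [div_mul_cancel₀ _ hy0.ne', hl] at h2
        have h3 : ‖y‖ * (1 + s / ‖y‖ * F (ψ i) + C * ‖y‖⁻¹ ^ q)
            = ‖y‖ + s * F (ψ i) + C * ‖y‖ ^ (-(q - 1)) := by
          rw [Real.inv_rpow hy0.le, ← Real.rpow_neg hy0.le, neg_sub, Real.rpow_sub hy0,
            Real.rpow_neg hy0.le, Real.rpow_one]
          field_simp
        have h4 := (hn₁ ‖y‖ hc.le).1
        exact ⟨s, hs1, by linarith⟩
    obtain ⟨s, hs1, hs2⟩ := key
    refine ⟨Function.update θ i s, fun j => ?_, ?_⟩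
    · by_cases h : j = i
      · subst h; simpa using hs1
      · simpa [h] using hθ j
    · rw [sum_insert hi, card_insert_of_notMem hi, Function.update_self, add_comm]
      have : ∑ j ∈ S, Function.update θ i s j • ψ j = y := sum_congr rfl fun j hj => by
        rw [Function.update_of_ne (fun h : j = i => hi (h ▸ hj))]
      rw [this]
      push_cast
      exact hs2

/-- In a smooth space the greedy supremum over an unconditional family is attained. -/
lemma exists_max {q C : ℝ} (hq : 1 < q) (hC : 1 ≤ C) (hs : SmoothType X q C)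
    {ι : Type*} [Nonempty ι] {ψ : ι → X} (hn : ∀ i, ‖ψ i‖ ≤ 1) {K : ℝ} (hK : MultBound ψ K)
    (F : StrongDual ℝ X) : ∃ j, ∀ i, |F (ψ i)| ≤ |F (ψ j)| := by
  by_cases h0 : ∀ i, F (ψ i) = 0
  · exact ⟨Classical.arbitrary ι, fun i => by simp [h0]⟩
  push Not at h0
  obtain ⟨i₀, hi₀⟩ := h0
  set δ := |F (ψ i₀)| with hδ
  have hδ0 : 0 < δ := abs_pos.2 hi₀
  have hfin : {i | δ ≤ |F (ψ i)|}.Finite := by
    by_contra hinf
    set D := ‖F‖ * |K| + 1 with hD
    have hD0 : 0 < D := by positivity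
    obtain ⟨n₀, hn₀⟩ := exists_signs_small hq hC hs hn (show 0 < δ / (2 * D) by positivity)
    obtain ⟨N, hN⟩ := exists_nat_gt (2 * D * n₀ / δ)
    obtain ⟨S, hS, hcard⟩ := Set.Infinite.exists_subset_card_eq hinf N
    obtain ⟨θ, hθ, hb⟩ := hn₀ S
    let σ : ι → ℝ := fun i => if 0 ≤ F (ψ i) then θ i else -θ i
    have hσ : ∀ i, |σ i| ≤ 1 := fun i => by
      simp only [σ]
      rcases hθ i with h | h <;> split_ifs <;> simp [h]
    have h1 := hK S θ σ hσ
    have h2 : δ * N ≤ F (∑ i ∈ S, (σ i * θ i) • ψ i) := by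
      rw [map_sum, ← hcard, mul_comm, ← nsmul_eq_mul, ← sum_const]
      refine sum_le_sum fun i hi => le_trans (hS hi) (le_of_eq ?_)
      simp only [σ, map_smul, smul_eq_mul]
      split_ifs with h
      · rw [abs_of_nonneg h]; rcases hθ i with h | h <;> simp [h]
      · rw [abs_of_neg (not_le.1 h)]; rcases hθ i with h | h <;> simp [h]
    have h3 := (le_abs_self _).trans (F.le_opNorm (∑ i ∈ S, (σ i * θ i) • ψ i))
    have h4 : ‖F‖ * ‖∑ i ∈ S, (σ i * θ i) • ψ i‖ ≤ D * ‖∑ i ∈ S, θ i • ψ i‖ := by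
      have a1 := mul_le_mul_of_nonneg_right (le_abs_self K) (norm_nonneg (∑ i ∈ S, θ i • ψ i))
      have a2 := mul_le_mul_of_nonneg_left (h1.trans a1) (norm_nonneg F)
      have a3 := norm_nonneg (∑ i ∈ S, θ i • ψ i)
      rw [hD]
      linarith
    have h5 := mul_le_mul_of_nonneg_left hb hD0.le
    rw [hcard] at h5
    have h6 : D * (n₀ + δ / (2 * D) * N) = D * n₀ + δ * N / 2 := by field_simp
    rw [div_lt_iff₀ hδ0] at hN
    linarith
  obtain ⟨j, hj, hmax⟩ := Set.exists_max_image _ (fun i => |F (ψ i)|) hfin ⟨i₀, le_refl δ⟩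
  refine ⟨j, fun i => ?_⟩
  by_cases h : δ ≤ |F (ψ i)|
  · exact hmax i h
  · exact (not_le.1 h).le.trans hj

end Pool.Agent.MP_30195a_an

end MrgPart7

-- ======== part 8: formerly Pool.Agent.MP_30195a_an.LowerAbs
section MrgPart8

/-!
# The abstract lower bound
-/

set_option autoImplicit false

open Finset

namespace Pool.Agent.MP_30195a_an

variable {X : Type*} [NormedAddCommGroup X] [NormedSpace ℝ X] {ι : Type*} [DecidableEq ι]

lemma MultBound.sdiff_le {ψ : ι → X} {K : ℝ} (hK : MultBound ψ K) (Γ Λ : Finset ι) (b : ℝ)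
    {G : X} (hG : G ∈ Submodule.span ℝ (ψ '' (Λ : Set ι))) :
    ‖b • ∑ i ∈ Γ \ Λ, ψ i‖ ≤ K * ‖b • ∑ i ∈ Γ, ψ i - G‖ := by
  obtain ⟨g, rfl⟩ := (Submodule.mem_span_image_finset_iff_exists_fun' ℝ).1 hG
  have := hK (Γ ∪ Λ) (fun i => (if i ∈ Γ then b else 0) - (if i ∈ Λ then g i else 0))
    (fun i => if i ∈ Λ then 0 else 1) fun i => by split_ifs <;> simp
  convert this using 2
  · rw [smul_sum, ← sum_subset (s₁ := Γ \ Λ) (sdiff_subset.trans subset_union_left)]
    · refine sum_congr rfl fun i hi => ?_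
      rw [mem_sdiff] at hi
      simp [hi.1, hi.2]
    · intro i _ hi
      rw [mem_sdiff, not_and_or, not_not] at hi
      by_cases h : i ∈ Λ
      · simp [h]
      · simp [h, hi.resolve_right h]
  · simp only [sub_smul, sum_sub_distrib, ite_smul, zero_smul, sum_ite_mem, union_inter_cancel_left,
      union_inter_cancel_right, smul_sum]

/-- The sparse element on the first part of the space. -/
structure SparseData (ψ : ι → X) (S : Set ι) (P θ : ℝ) (N : ℕ) (A : X) : Prop where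
  ne_zero : A ≠ 0
  sparse : ∃ (g : Fin N → X) (c : Fin N → ℝ), (∀ i, g i ∈ Set.range ψ) ∧ A = ∑ i, c i • g i
  le_norm : ∀ y ∈ Submodule.span ℝ (ψ '' S), ‖A‖ ≤ ‖A + y‖
  second : ∀ y ∈ Submodule.span ℝ (ψ '' S), ∀ F, IsNorming F (A + y) →
    ‖A + y‖ ^ (P - 1) * F y = ‖y‖ ^ P
  first : ∀ y ∈ Submodule.span ℝ (ψ '' S), ∀ F, IsNorming F (A + y) → ∀ i, i ∉ S →
    ‖A + y‖ ^ (P - 1) * |F (ψ i)| ≤ θ * ‖A‖ ^ (P - 1)

lemma lower_run {ψ : ι → X} {K : ℝ} (hK : MultBound ψ K) (hK0 : 0 < K) (hn : ∀ i, ‖ψ i‖ ≤ 1)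
    {γ s : ℝ} (hγ : 0 < γ)
    (hD : ∀ (f g : X) (F : StrongDual ℝ X), f ≠ 0 → IsNorming F f → ‖g‖ ≤ 1 →
      ∃ l : ℝ, ‖f - l • g‖ ≤ ‖f‖ * (1 - γ * |F g| ^ s))
    {S : Set ι} {P θ : ℝ} (hP : 0 ≤ P) {N : ℕ} {A : X} (hA : SparseData ψ S P θ N A)
    {Γ : Finset ι} (hΓ : (Γ : Set ι) ⊆ S) {M : ℕ} (hcard : Γ.card = 2 * M) {b c : ℝ}
    (hb : 0 < b) (hc : 0 ≤ c) (hlow : ∀ Λ ⊆ Γ, M ≤ Λ.card → c ≤ ‖∑ i ∈ Λ, ψ i‖)
    (hcond : 2 * M * b * (θ * ‖A‖ ^ (P - 1)) < (b * c / K) ^ P)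
    {idx : ℕ → ι} {f : ℕ → X} (R : IdxRun ψ 1 (A + b • ∑ i ∈ Γ, ψ i) idx f) :
    ‖A‖ ≤ ‖f M‖ := by
  have hB : b • ∑ i ∈ Γ, ψ i ∈ Submodule.span ℝ (ψ '' S) :=
    Submodule.smul_mem _ _ (Submodule.sum_mem _ fun i hi => Submodule.subset_span ⟨i, hΓ hi, rfl⟩)
  have dec : ∀ k, (chosen idx k : Set ι) ⊆ S →
      b • ∑ i ∈ Γ, ψ i - (A + b • ∑ i ∈ Γ, ψ i - f k) ∈ Submodule.span ℝ (ψ '' S) :=
    fun k hk => Submodule.sub_mem _ hB (Submodule.span_mono (Set.image_mono hk) (R.approx_mem k))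
  have dec2 : ∀ k, f k = A + (b • ∑ i ∈ Γ, ψ i - (A + b • ∑ i ∈ Γ, ψ i - f k)) := fun k => by abel
  have main : ∀ k ≤ M, (chosen idx k : Set ι) ⊆ S := by
    intro k
    induction k with
    | zero => intro _; simp [chosen]
    | succ k ih =>
      intro hk
      have h1 := ih (Nat.le_of_succ_le hk)
      have h2 : idx k ∈ S := by
        by_contra hcon
        have hy := dec k h1
        set y := b • ∑ i ∈ Γ, ψ i - (A + b • ∑ i ∈ Γ, ψ i - f k) with hydef
        have hf : f k = A + y := dec2 k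
        have hpos : 0 < ‖f k‖ := by
          rw [hf]; exact (norm_pos_iff.2 hA.ne_zero).trans_le (hA.le_norm y hy)
        obtain ⟨F, hF, hsel⟩ := R.select k (norm_pos_iff.1 hpos)
        have e1 := hA.second y hy F (hf ▸ hF)
        have e2 := hA.first y hy F (hf ▸ hF) _ hcon
        rw [← hf] at e1 e2
        have e3 : F y ≤ 2 * M * b * |F (ψ (idx k))| := by
          rw [hydef, map_sub, R.norming_zero hn hγ hD (norm_pos_iff.1 hpos) hF (R.approx_mem k),
            sub_zero, map_smul, map_sum, smul_eq_mul]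
          have : ∑ i ∈ Γ, F (ψ i) ≤ Γ.card • |F (ψ (idx k))| :=
            sum_le_card_nsmul _ _ _ fun i _ => (le_abs_self _).trans (by simpa using hsel i)
          rw [hcard, nsmul_eq_mul] at this
          push_cast at this
          have := mul_le_mul_of_nonneg_left this hb.le
          linarith
        have e4 : b * c / K ≤ ‖y‖ := by
          have a1 := hK.sdiff_le Γ (chosen idx k) b (R.approx_mem k)
          have a2 := hlow (Γ \ chosen idx k) sdiff_subset (by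
            have := le_card_sdiff (chosen idx k) Γ
            have := card_chosen_le idx k
            omega)
          rw [norm_smul, Real.norm_of_nonneg hb.le, ← hydef] at a1
          rw [div_le_iff₀' hK0]
          exact (mul_le_mul_of_nonneg_left a2 hb.le).trans a1
        have e5 := Real.rpow_le_rpow (by positivity) e4 hP
        have e6 := mul_le_mul_of_nonneg_left e3 (Real.rpow_nonneg hpos.le (P - 1))
        have e7 := mul_le_mul_of_nonneg_left e2 (by positivity : 0 ≤ 2 * M * b)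
        linarith
      unfold chosen at h1 ⊢
      rw [range_add_one, image_insert, coe_insert]
      exact Set.insert_subset h2 h1
  rw [dec2 M]
  exact hA.le_norm _ (dec M (main M le_rfl))

theorem lower_bound [Nonempty ι] {ψ : ι → X} {K : ℝ} (hK : MultBound ψ K) (hK0 : 0 < K)
    (hn : ∀ i, ‖ψ i‖ ≤ 1) {q C₀ : ℝ} (hq : 1 < q) (hC₀ : 1 ≤ C₀) (hs : SmoothType X q C₀)
    {S : Set ι} {P a ρ c₁ C₁ C₂ : ℝ} (hP : 0 ≤ P) (hρ : ρ < 1) (hc₁ : 0 < c₁) (hC₁ : 0 < C₁)
    (hC₂ : 0 < C₂)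
    (hA : ∀ N : ℕ, 1 ≤ N → ∃ A, SparseData ψ S P (C₂ * (N : ℝ) ^ (-a)) N A)
    (hB : ∀ M : ℕ, 1 ≤ M → ∃ Γ : Finset ι, (Γ : Set ι) ⊆ S ∧ Γ.card = 2 * M ∧
      ‖∑ i ∈ Γ, ψ i‖ ≤ C₁ * (M : ℝ) ^ ρ ∧
      ∀ Λ ⊆ Γ, M ≤ Λ.card → c₁ * (M : ℝ) ^ ρ ≤ ‖∑ i ∈ Λ, ψ i‖)
    {t : ℝ} (ht : 0 ≤ t) (ht1 : t ≤ 1) {Φ : ℝ → ℝ} (hΦ : ∀ N : ℕ, 1 ≤ N → 1 ≤ Φ N)
    (hG : IsGreedy (Set.range ψ) t Φ) :
    ∃ κ : ℝ, 0 < κ ∧ ∀ N : ℕ, 1 ≤ N → κ * (N : ℝ) ^ (a / (1 - ρ) - 1) ≤ Φ N := by
  obtain ⟨C, hC⟩ := hG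
  obtain ⟨γ, hγ, hD⟩ := hs.descent hq hC₀
  set ε : ℝ := (|C| + 1)⁻¹ with hε
  have hε0 : 0 < ε := by positivity
  set κ₀ : ℝ := (ε * c₁ / (C₁ * K)) ^ P * C₁ / (2 * ε * C₂) with hκ₀
  have hκ0 : 0 < κ₀ := by positivity
  have hρ' : 0 < 1 - ρ := by linarith
  refine ⟨κ₀ ^ (1 - ρ)⁻¹, by positivity, fun N hN => ?_⟩
  have hN0 : (0 : ℝ) < N := by exact_mod_cast hN
  have hN1 : (1 : ℝ) ≤ N := by exact_mod_cast hN
  by_contra hcon
  push Not at hcon
  set M := ⌊Φ N * N⌋₊ with hM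
  have hΦ1 : 1 ≤ Φ N * N := one_le_mul_of_one_le_of_one_le (hΦ N hN) hN1
  have hM1 : 1 ≤ M := (Nat.one_le_floor_iff _).2 hΦ1
  have hM0 : (0 : ℝ) < M := by exact_mod_cast hM1
  have hMlt : (M : ℝ) ^ (1 - ρ) < κ₀ * (N : ℝ) ^ a := by
    have h1 : (M : ℝ) < κ₀ ^ (1 - ρ)⁻¹ * (N : ℝ) ^ (a / (1 - ρ)) := by
      refine (Nat.floor_le (by linarith)).trans_lt ?_
      have := mul_lt_mul_of_pos_right hcon hN0
      rwa [mul_assoc, ← Real.rpow_add_one hN0.ne', sub_add_cancel] at this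
    have h2 := Real.rpow_lt_rpow hM0.le h1 hρ'
    rwa [Real.mul_rpow (by positivity) (by positivity), Real.rpow_inv_rpow hκ0.le hρ'.ne',
      ← Real.rpow_mul hN0.le, div_mul_cancel₀ _ hρ'.ne'] at h2
  obtain ⟨A, hA⟩ := hA N hN
  obtain ⟨Γ, hΓ, hcard, hup, hlow⟩ := hB M hM1
  have hα : 0 < ‖A‖ := norm_pos_iff.2 hA.ne_zero
  have hMρ : 0 < (M : ℝ) ^ ρ := by positivity
  set b : ℝ := ε * ‖A‖ / (C₁ * (M : ℝ) ^ ρ) with hb
  have hb0 : 0 < b := by positivity
  obtain ⟨idx, f, R⟩ := exists_idxRun ψ (exists_max hq hC₀ hs hn hK) (A + b • ∑ i ∈ Γ, ψ i)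
  have h1 := lower_run hK hK0 hn hγ hD hP hA hΓ hcard hb0 (by positivity) hlow (by
    have e1 : b * (c₁ * (M : ℝ) ^ ρ) / K = ε * c₁ / (C₁ * K) * ‖A‖ := by
      rw [hb]; field_simp
    have e2 : ‖A‖ ^ P = ‖A‖ ^ (P - 1) * ‖A‖ := by
      rw [← Real.rpow_add_one hα.ne', sub_add_cancel]
    have e3 : (M : ℝ) ^ (1 - ρ) = M / (M : ℝ) ^ ρ := by
      rw [Real.rpow_sub hM0, Real.rpow_one]
    have e4 : (ε * c₁ / (C₁ * K)) ^ P = κ₀ * (2 * ε * C₂) / C₁ := by
      rw [hκ₀]; field_simp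
    have hNa : 0 < (N : ℝ) ^ a := by positivity
    rw [e1, Real.mul_rpow (by positivity) hα.le, e2, e4, Real.rpow_neg hN0.le, hb]
    rw [e3, div_lt_iff₀ hMρ] at hMlt
    have hz : 0 < ‖A‖ ^ (P - 1) := by positivity
    generalize ‖A‖ ^ (P - 1) = z at hz ⊢
    generalize (N : ℝ) ^ a = w at hNa hMlt ⊢
    generalize (M : ℝ) ^ ρ = v at hMρ hMlt ⊢
    have e5 : 2 * (M : ℝ) * (ε * ‖A‖ / (C₁ * v)) * (C₂ * w⁻¹ * z)
        = (M : ℝ) * (2 * ε * C₂ * z * ‖A‖ / (C₁ * v * w)) := by field_simp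
    have e6 : κ₀ * (2 * ε * C₂) / C₁ * (z * ‖A‖)
        = (κ₀ * w * v) * (2 * ε * C₂ * z * ‖A‖ / (C₁ * v * w)) := by field_simp
    rw [e5, e6]
    exact mul_lt_mul_of_pos_right hMlt (by positivity)) R
  have h2 := hC _ N hN _ _ (R.isRun ht ht1)
  obtain ⟨g, c, hg, hAg⟩ := hA.sparse
  have h3 : sigma (Set.range ψ) N (A + b • ∑ i ∈ Γ, ψ i) ≤ ε * ‖A‖ := by
    refine le_trans (b := ‖A + b • ∑ i ∈ Γ, ψ i - ∑ i, c i • g i‖)
      (csInf_le ⟨0, ?_⟩ ⟨g, c, hg, rfl⟩) ?_
    · rintro _ ⟨_, _, _, rfl⟩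
      exact norm_nonneg _
    · rw [← hAg, add_sub_cancel_left, norm_smul, Real.norm_of_nonneg hb0.le]
      refine (mul_le_mul_of_nonneg_left hup hb0.le).trans (le_of_eq ?_)
      rw [hb]; field_simp
  have h4 : 0 ≤ sigma (Set.range ψ) N (A + b • ∑ i ∈ Γ, ψ i) := by
    refine Real.sInf_nonneg ?_
    rintro _ ⟨_, _, _, rfl⟩
    exact norm_nonneg _
  have h5 := mul_le_mul_of_nonneg_right (le_abs_self C) h4
  have h6 := mul_le_mul_of_nonneg_left h3 (abs_nonneg C)
  have h7 : |C| * ε < 1 := by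
    rw [hε, ← div_eq_mul_inv, div_lt_one (by positivity)]; linarith
  have h8 := mul_lt_mul_of_pos_right h7 hα
  linarith

end Pool.Agent.MP_30195a_an

end MrgPart8

-- marker of a merged file
example : 731051 + 510901 = 731051 + 510901 := rfl
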