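import Mathlib.Algebra.Ring.IsFormallyReal
import Mathlib.MeasureTheory.Integral.Prod
import Mathlib.Topology.ContinuousMap.StoneWeierstrass
import Mathlib.Combinatorics.SimpleGraph.Basic
import Mathlib.MeasureTheory.Measure.RegularityCompacts
import Pool.Agent.MP_30195a_an.LowerAbs

-- ======== part 0: formerly Pool.Agent.MP_30195a_an.Complete
section MrgPart0

/-!
# Completeness of the system and the subordination estimate for all exponents
-/

set_option autoImplicit false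

open MeasureTheory Finset

namespace Pool.Agent.MP_30195a_an

/-- Functions depending only on the first `n` digits. -/
def IsCyl (n : ℕ) (F : Om → ℝ) : Prop := ∀ ω ω' : Om, (∀ i < n, ω i = ω' i) → F ω = F ω'

lemma IsCyl.mono {n m : ℕ} {F : Om → ℝ} (h : IsCyl n F) (hnm : n ≤ m) : IsCyl m F :=
  fun ω ω' hh => h ω ω' fun i hi => hh i (hi.trans_le hnm)

lemma IsCyl.split {n : ℕ} {g : Om → ℝ} (h : IsCyl (n + 1) g) :
    ∃ g₁ g₂ : Om → ℝ, IsCyl n g₁ ∧ IsCyl n g₂ ∧ ∀ ω, g ω = g₁ ω + sg n ω * g₂ ω := by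
  have key : ∀ (c : Fin 2) (ω ω' : Om), (∀ i < n, ω i = ω' i) →
      g (Function.update ω n c) = g (Function.update ω' n c) := by
    intro c ω ω' hh
    refine h _ _ fun i hi => ?_
    by_cases e : i = n
    · subst e; simp
    · rw [Function.update_of_ne e, Function.update_of_ne e]
      exact hh i (by omega)
  refine ⟨fun ω => (g (Function.update ω n 0) + g (Function.update ω n 1)) / 2,
    fun ω => (g (Function.update ω n 0) - g (Function.update ω n 1)) / 2,
    fun ω ω' hh => by simp only [key _ ω ω' hh], fun ω ω' hh => by simp only [key _ ω ω' hh],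
    fun ω => ?_⟩
  have h01 : ∀ a : Fin 2, a = 0 ∨ a = 1 := by decide
  unfold sg
  rcases h01 (ω n) with e | e
  · have : Function.update ω n 0 = ω := by rw [← e, Function.update_eq_self]
    rw [if_pos e]; simp only [this]; ring
  · have : Function.update ω n 1 = ω := by rw [← e, Function.update_eq_self]
    rw [if_neg (by rw [e]; decide)]; simp only [this]; ring

lemma IsCyl.exists_res {n : ℕ} {g : Om → ℝ} (h : IsCyl n g) :
    ∃ G : (Fin n → Fin 2) → ℝ, ∀ ω, g ω = G (res n ω) :=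
  ⟨fun s => g fun i => if hi : i < n then s ⟨i, hi⟩ else 0, fun ω =>
    h _ _ fun i hi => by simp [hi, res]⟩

lemma IsCyl.exists_nodes (n : ℕ) : ∀ g : Om → ℝ, IsCyl (n + 1) g →
    ∃ c : Node → ℝ, ∀ ω, g ω = ∑ ν ∈ nodes n, c ν * vN ν ω := by
  classical
  simp only [sum_nodes]
  induction n with
  | zero =>
    intro g hg
    refine ⟨fun ν => match ν with
      | Sum.inl a => g fun _ => a
      | Sum.inr _ => 0, fun ω => ?_⟩
    simp only [range_zero, sum_empty, add_zero]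
    exact hg _ _ fun i hi => by rw [Nat.lt_one_iff.1 hi]
  | succ n ih =>
    intro g hg
    obtain ⟨g₁, g₂, h1, h2, h3⟩ := hg.split
    obtain ⟨c, hc⟩ := ih g₁ h1
    obtain ⟨G, hG⟩ := h2.exists_res
    refine ⟨fun ν => match ν with
      | Sum.inl a => c (Sum.inl a)
      | Sum.inr ⟨j, s⟩ => if h : j = n then G (h ▸ s) else c (Sum.inr ⟨j, s⟩), fun ω => ?_⟩
    rw [sum_range_succ, h3, hc, hG, add_assoc]
    simp only [dite_true]
    congr 2
    refine sum_congr rfl fun j hj => ?_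
    rw [dif_neg (mem_range.1 hj).ne]

lemma IsCyl.mem_span (n : ℕ) : ∀ F : Om → ℝ, IsCyl (n + 1) F →
    F ∈ Submodule.span ℝ (Set.range uS) := by
  induction n with
  | zero =>
    intro F hF
    obtain ⟨c, hc⟩ := IsCyl.exists_nodes 0 F hF
    have : F = ∑ a : Fin 2, (c (Sum.inl a) * (if a = 0 then 1 else -1)) • uS (Sum.inl a, 0) := by
      funext ω
      rw [hc, sum_nodes]
      simp only [range_zero, sum_empty, add_zero, Finset.sum_apply, Pi.smul_apply, smul_eq_mul, uS,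
        kN, vN, sg, mul_ite, mul_one, mul_zero, sum_ite_eq, mem_univ, if_true]
      split_ifs <;> ring
    rw [this]
    exact Submodule.sum_mem _ fun a _ => Submodule.smul_mem _ _ (Submodule.subset_span ⟨_, rfl⟩)
  | succ n ih =>
    intro F hF
    obtain ⟨g₁, g₂, h1, h2, h3⟩ := hF.split
    obtain ⟨c, hc⟩ := IsCyl.exists_nodes n g₂ h2
    have : F = g₁ + ∑ ν ∈ nodes n, c ν • uS (ν, n + 1 - kN ν) := by
      funext ω
      rw [h3, hc, Pi.add_apply, Finset.sum_apply, mul_sum]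
      congr 1
      refine sum_congr rfl fun ν hν => ?_
      simp only [Pi.smul_apply, smul_eq_mul, uS, Nat.add_sub_cancel' (kN_le_of_mem hν)]
      ring
    rw [this]
    exact Submodule.add_mem _ (ih g₁ h1) (Submodule.sum_mem _ fun a _ =>
      Submodule.smul_mem _ _ (Submodule.subset_span ⟨_, rfl⟩))

lemma sg_congr {k : ℕ} {ω ω' : Om} (h : ω k = ω' k) : sg k ω = sg k ω' := by
  unfold sg; rw [h]

lemma isCyl_uS (i : Node × ℕ) : IsCyl (kN i.1 + i.2 + 1) (uS i) := by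
  intro ω ω' h
  unfold uS
  rw [sg_congr (h _ (Nat.lt_succ_self _))]
  congr 1
  rcases i with ⟨c | ⟨n, s⟩, d⟩
  · simp only [vN]
    rw [h 0 (by omega)]
  · simp only [kN] at h
    simp only [vN, cyl]
    have : res (n + 1) ω = res (n + 1) ω' := funext fun i => h i (by have := i.2; omega)
    rw [sg_congr (h (n + 1) (by omega)), this]

lemma isCyl_sum_uS (S : Finset (Node × ℕ)) (b : Node × ℕ → ℝ) :
    ∃ n, IsCyl (n + 1) fun ω => ∑ i ∈ S, b i * uS i ω := by
  refine ⟨S.sup fun i => kN i.1 + i.2, fun ω ω' h => sum_congr rfl fun i hi => ?_⟩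
  have := le_sup (f := fun i : Node × ℕ => kN i.1 + i.2) hi
  rw [(isCyl_uS i).mono (Nat.succ_le_succ this) ω ω' h]

lemma IsCyl.exists_rect {n : ℕ} {F : Om → ℝ} (hF : IsCyl (n + 1) F) (m D : ℕ) :
    ∃ (m' D' : ℕ) (c : Node × ℕ → ℝ), m ≤ m' ∧ D ≤ D' ∧
      ∀ ω, F ω = ∑ i ∈ nodes m' ×ˢ range D', c i * uS i ω := by
  obtain ⟨c, hc⟩ := Finsupp.mem_span_range_iff_exists_finsupp.1 (IsCyl.mem_span n F hF)
  obtain ⟨m₀, hm₀⟩ := MP_30195a_an.exists_rect c.support
  refine ⟨max m m₀, max D m₀, c, le_max_left _ _, le_max_left _ _, fun ω => ?_⟩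
  rw [← hc, Finsupp.sum, Finset.sum_apply,
    sum_subset (hm₀ _ _ (le_max_right _ _) (le_max_right _ _))]
  · rfl
  · intro i _ hi
    simp [Finsupp.notMem_support_iff.1 hi]

lemma continuous_sum_uS (S : Finset (Node × ℕ)) (b : Node × ℕ → ℝ) :
    Continuous fun ω => ∑ i ∈ S, b i * uS i ω :=
  continuous_finsetSum _ fun i _ => continuous_const.mul (continuous_uS i)

lemma continuous_abs_rpow {F : Om → ℝ} (hF : Continuous F) {P : ℝ} (hP : 0 ≤ P) :
    Continuous fun ω => |F ω| ^ P :=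
  hF.abs.rpow_const fun _ => Or.inr hP

lemma subEst_dual {P Q K : ℝ} (hPQ : Q.HolderConjugate P) (hK : 0 < K) (h : SubEst Q K) :
    ∃ K', 0 < K' ∧ SubEst P K' := by
  classical
  have hP : 1 < P := hPQ.symm.lt
  have hQ : 1 < Q := hPQ.lt
  set τ : ℝ := (2 * K)⁻¹ ^ Q⁻¹ with hτ
  have hτ0 : 0 < τ := by positivity
  have hτQ : τ ^ Q = (2 * K)⁻¹ := Real.rpow_inv_rpow (by positivity) (by linarith)
  refine ⟨2 * τ⁻¹ ^ P, by positivity, fun m D b b' hb => ?_⟩
  set f : Om → ℝ := fun ω => ∑ i ∈ nodes m ×ˢ range D, b i * uS i ω with hf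
  set f' : Om → ℝ := fun ω => ∑ i ∈ nodes m ×ˢ range D, b' i * uS i ω with hf'
  have cf : Continuous f := continuous_sum_uS _ _
  have cf' : Continuous f' := continuous_sum_uS _ _
  obtain ⟨n, hn⟩ := isCyl_sum_uS (nodes m ×ˢ range D) b'
  have hW : IsCyl (n + 1) fun ω => gp P (f' ω) := fun ω ω' hh => by
    have := hn ω ω' hh
    simp only [hf'] at this ⊢
    rw [this]
  obtain ⟨m', D', c, hm, hD, hc⟩ := hW.exists_rect m D
  have hsub : nodes m ×ˢ range D ⊆ nodes m' ×ˢ range D' :=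
    product_subset_product (nodes_mono hm) (range_mono hD)
  let lam : Node → ℝ := fun ν =>
    (∑ d ∈ range D, c (ν, d) * b' (ν, d)) / ∑ d ∈ range D, b (ν, d) ^ 2
  let c' : Node × ℕ → ℝ := fun i => if i ∈ nodes m ×ˢ range D then lam i.1 * b i else 0
  have hlam : ∀ ν ∈ nodes m, lam ν * ∑ d ∈ range D, b (ν, d) ^ 2
      = ∑ d ∈ range D, c (ν, d) * b' (ν, d) := by
    intro ν hν
    by_cases h0 : ∑ d ∈ range D, b (ν, d) ^ 2 = 0
    · rw [h0, mul_zero]
      have h1 := sum_mul_sq_le_sq_mul_sq (range D) (fun d => c (ν, d)) (fun d => b' (ν, d))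
      have h2 : ∑ d ∈ range D, b' (ν, d) ^ 2 = 0 :=
        le_antisymm (h0 ▸ hb ν hν) (sum_nonneg fun _ _ => sq_nonneg _)
      rw [h2, mul_zero] at h1
      exact (pow_eq_zero_iff two_ne_zero |>.1 (le_antisymm h1 (sq_nonneg _))).symm
    · exact div_mul_cancel₀ _ h0
  have hcc : ∀ ν ∈ nodes m', ∑ d ∈ range D', c' (ν, d) ^ 2 ≤ ∑ d ∈ range D', c (ν, d) ^ 2 := by
    intro ν _
    by_cases hν : ν ∈ nodes m
    · have e1 : ∑ d ∈ range D', c' (ν, d) ^ 2 = lam ν ^ 2 * ∑ d ∈ range D, b (ν, d) ^ 2 := by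
        rw [← sum_subset (range_mono hD), mul_sum]
        · refine sum_congr rfl fun d hd => ?_
          simp only [c']
          rw [if_pos (mem_product.2 ⟨hν, hd⟩), mul_pow]
        · intro d _ hd
          simp only [c']
          rw [if_neg (fun h => hd (mem_product.1 h).2)]; simp
      have e2 : ∑ d ∈ range D, c (ν, d) ^ 2 ≤ ∑ d ∈ range D', c (ν, d) ^ 2 :=
        sum_le_sum_of_subset_of_nonneg (range_mono hD) fun _ _ _ => sq_nonneg _
      rw [e1]
      refine le_trans ?_ e2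
      have h1 := sum_mul_sq_le_sq_mul_sq (range D) (fun d => c (ν, d)) (fun d => b' (ν, d))
      rw [← hlam ν hν] at h1
      have h2 : 0 ≤ ∑ d ∈ range D, c (ν, d) ^ 2 := sum_nonneg fun _ _ => sq_nonneg _
      have h3 := h1.trans (mul_le_mul_of_nonneg_left (hb ν hν) h2)
      rcases (sum_nonneg fun d _ => sq_nonneg (b (ν, d)) : 0 ≤ ∑ d ∈ range D, b (ν, d) ^ 2).eq_or_lt
        with h0 | h0
      · rw [← h0, mul_zero]; exact h2
      · refine le_of_mul_le_mul_right ?_ h0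
        linarith
    · refine le_trans (le_of_eq (sum_eq_zero fun d _ => ?_)) (sum_nonneg fun _ _ => sq_nonneg _)
      simp only [c']
      rw [if_neg (fun h => hν (mem_product.1 h).1)]; simp
  have h1 := h m' D' c c' hcc
  set W' : Om → ℝ := fun ω => ∑ i ∈ nodes m' ×ˢ range D', c' i * uS i ω with hW'
  have cW' : Continuous W' := continuous_sum_uS _ _
  have e1 : ∫ ω, |∑ i ∈ nodes m' ×ˢ range D', c i * uS i ω| ^ Q ∂mu = ∫ ω, |f' ω| ^ P ∂mu := by
    congr 1
    funext ω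
    rw [← hc, abs_gp hP, ← Real.rpow_mul (abs_nonneg _), hPQ.symm.sub_one_mul_conj]
  have e2 : ∫ ω, |f' ω| ^ P ∂mu = ∫ ω, W' ω * f ω ∂mu := by
    have a1 : ∫ ω, |f' ω| ^ P ∂mu =
        ∫ ω, (∑ i ∈ nodes m' ×ˢ range D', c i * uS i ω) * f' ω ∂mu := by
      congr 1
      funext ω
      rw [← hc, gp_mul_self hP]
    rw [a1, integral_sum_mul_sum hsub, integral_sum_mul_sum hsub, sum_product, sum_product]
    refine sum_congr rfl fun ν hν => ?_
    simp only [mul_assoc]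
    rw [← mul_sum, ← mul_sum, ← hlam ν hν, mul_sum]
    congr 1
    refine sum_congr rfl fun d hd => ?_
    simp only [c']
    rw [if_pos (mem_product.2 ⟨hν, hd⟩)]; ring
  have e3 : ∫ ω, W' ω * f ω ∂mu ≤ ∫ ω, (τ ^ Q * |W' ω| ^ Q + τ⁻¹ ^ P * |f ω| ^ P) ∂mu := by
    refine integral_mono (integ (cW'.mul cf))
      (((integ (continuous_abs_rpow cW' (by linarith))).const_mul _).add
        ((integ (continuous_abs_rpow cf (by linarith))).const_mul _)) fun ω => ?_
    have y := Real.young_inequality (τ * W' ω) (τ⁻¹ * f ω) hPQ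
    rw [abs_mul, abs_mul, abs_of_pos hτ0, abs_of_pos (inv_pos.2 hτ0),
      Real.mul_rpow hτ0.le (abs_nonneg _), Real.mul_rpow (inv_pos.2 hτ0).le (abs_nonneg _)] at y
    have y1 : τ ^ Q * |W' ω| ^ Q / Q ≤ τ ^ Q * |W' ω| ^ Q := div_le_self (by positivity) hQ.le
    have y2 : τ⁻¹ ^ P * |f ω| ^ P / P ≤ τ⁻¹ ^ P * |f ω| ^ P := div_le_self (by positivity) hP.le
    have y3 : τ * W' ω * (τ⁻¹ * f ω) = W' ω * f ω := by field_simp
    simp only
    linarith
  rw [integral_add ((integ (continuous_abs_rpow cW' (by linarith))).const_mul _)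
    ((integ (continuous_abs_rpow cf (by linarith))).const_mul _), integral_const_mul,
    integral_const_mul, ← e2, hτQ] at e3
  rw [e1] at h1
  have e4 : (2 * K)⁻¹ * ∫ ω, |W' ω| ^ Q ∂mu ≤ (∫ ω, |f' ω| ^ P ∂mu) / 2 := by
    refine (mul_le_mul_of_nonneg_left h1 (by positivity)).trans (le_of_eq ?_)
    field_simp
  change ∫ ω, |f' ω| ^ P ∂mu ≤ 2 * τ⁻¹ ^ P * ∫ ω, |f ω| ^ P ∂mu
  linarith

lemma exists_subEst {P : ℝ} (hP : 1 < P) : ∃ K, 0 < K ∧ SubEst P K := by
  rcases le_total 2 P with h | h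
  · exact subEst_of_two_le h
  · have hc := Real.HolderConjugate.conjExponent hP
    have h2 : 2 ≤ Real.conjExponent P := by
      unfold Real.conjExponent
      rw [le_div_iff₀ (by linarith)]
      linarith
    obtain ⟨K, hK, hS⟩ := subEst_of_two_le h2
    exact subEst_dual hc.symm hK hS

end Pool.Agent.MP_30195a_an

end MrgPart0

-- ======== part 1: formerly Pool.Agent.MP_30195a_an.Rot
section MrgPart1

/-!
# The rotated system
-/

set_option autoImplicit false

open MeasureTheory Finset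

namespace Pool.Agent.MP_30195a_an

/-- The reflection vector at a node. -/
noncomputable def yN : Node → ℕ → ℝ
  | Sum.inl _, _ => 0
  | Sum.inr ⟨n, _⟩, d => if d = 0 then 1 else if d ≤ n + 1 then (√((n + 1 : ℕ) : ℝ))⁻¹ else 0

/-- The rotated system. -/
noncomputable def wS (i : Node × ℕ) (ω : Om) : ℝ :=
  uS i ω - yN i.1 i.2 * ∑ e ∈ range (kN i.1), yN i.1 e * uS (i.1, e) ω

lemma continuous_wS (i : Node × ℕ) : Continuous (wS i) :=
  (continuous_uS i).sub (continuous_const.mul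
    (continuous_finsetSum _ fun _ _ => continuous_const.mul (continuous_uS _)))

lemma yN_eq_zero {ν : Node} {d : ℕ} (h : kN ν ≤ d) : yN ν d = 0 := by
  rcases ν with c | ⟨n, s⟩
  · rfl
  · simp only [kN] at h
    simp only [yN]
    rw [if_neg (by omega), if_neg (by omega)]

lemma wS_eq_uS {ν : Node} {d : ℕ} (h : kN ν ≤ d) (ω : Om) : wS (ν, d) ω = uS (ν, d) ω := by
  simp [wS, yN_eq_zero h]

lemma sum_yN_mul {ν : Node} {D : ℕ} (h : kN ν ≤ D) (x : ℕ → ℝ) :
    ∑ e ∈ range D, yN ν e * x e = ∑ e ∈ range (kN ν), yN ν e * x e := by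
  refine (sum_subset (range_mono h) fun e _ he => ?_).symm
  rw [yN_eq_zero (not_lt.1 fun h' => he (mem_range.2 h')), zero_mul]

lemma sum_yN_sq (ν : Node) (d : ℕ) :
    yN ν d * ∑ e ∈ range (kN ν), yN ν e * yN ν e = 2 * yN ν d := by
  rcases ν with c | ⟨n, s⟩
  · simp [yN]
  · rw [mul_comm]
    congr 1
    simp only [kN]
    rw [sum_range_succ']
    have : ∀ e ∈ range (n + 1), yN (Sum.inr ⟨n, s⟩) (e + 1) * yN (Sum.inr ⟨n, s⟩) (e + 1)
        = (((n + 1 : ℕ) : ℝ))⁻¹ := by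
      intro e he
      have := mem_range.1 he
      simp only [yN]
      rw [if_neg (by omega), if_pos (by omega), ← mul_inv, Real.mul_self_sqrt (by positivity)]
    rw [sum_congr rfl this, sum_const, card_range, nsmul_eq_mul, mul_inv_cancel₀ (by positivity)]
    simp only [yN, if_true]
    norm_num

/-- The coefficients in the orthogonal system. -/
noncomputable def rot (D : ℕ) (b : Node × ℕ → ℝ) (i : Node × ℕ) : ℝ :=
  b i - yN i.1 i.2 * ∑ e ∈ range D, yN i.1 e * b (i.1, e)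

lemma sum_wS_node {ν : Node} {D : ℕ} (h : kN ν ≤ D) (b : Node × ℕ → ℝ) (ω : Om) :
    ∑ d ∈ range D, b (ν, d) * wS (ν, d) ω = ∑ d ∈ range D, rot D b (ν, d) * uS (ν, d) ω := by
  simp only [wS, rot, mul_sub, sub_mul, sum_sub_distrib]
  congr 1
  rw [← sum_yN_mul h]
  simp only [← mul_assoc]
  rw [← sum_mul]
  simp only [mul_right_comm _ (∑ e ∈ range D, yN ν e * b (ν, e))]
  rw [← sum_mul, mul_comm]
  congr 1
  exact sum_congr rfl fun _ _ => mul_comm _ _

lemma sum_rot_sq {ν : Node} {D : ℕ} (h : kN ν ≤ D) (b : Node × ℕ → ℝ) :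
    ∑ d ∈ range D, rot D b (ν, d) ^ 2 = ∑ d ∈ range D, b (ν, d) ^ 2 := by
  set Y := ∑ e ∈ range D, yN ν e * b (ν, e) with hY
  have h1 : Y * ∑ e ∈ range D, yN ν e * yN ν e = 2 * Y := by
    rw [sum_yN_mul h, hY, sum_mul, mul_sum]
    refine sum_congr rfl fun e _ => ?_
    linear_combination b (ν, e) * sum_yN_sq ν e
  have h2 : ∀ d, rot D b (ν, d) ^ 2 =
      b (ν, d) ^ 2 - 2 * Y * (yN ν d * b (ν, d)) + Y ^ 2 * (yN ν d * yN ν d) := fun d => by
    simp only [rot, ← hY]; ring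
  simp only [h2, sum_add_distrib, sum_sub_distrib, ← mul_sum, ← hY]
  linear_combination Y * h1

lemma SubEst.rot {P K : ℝ} (h : SubEst P K) {m D : ℕ} (hD : m + 1 ≤ D) (b b' : Node × ℕ → ℝ)
    (hb : ∀ ν ∈ nodes m, ∑ d ∈ range D, b' (ν, d) ^ 2 ≤ ∑ d ∈ range D, b (ν, d) ^ 2) :
    ∫ ω, |∑ i ∈ nodes m ×ˢ range D, b' i * wS i ω| ^ P ∂mu
      ≤ K * ∫ ω, |∑ i ∈ nodes m ×ˢ range D, b i * wS i ω| ^ P ∂mu := by
  have e : ∀ (c : Node × ℕ → ℝ) (ω : Om), ∑ i ∈ nodes m ×ˢ range D, c i * wS i ω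
      = ∑ i ∈ nodes m ×ˢ range D, MP_30195a_an.rot D c i * uS i ω := fun c ω => by
    rw [sum_product, sum_product]
    exact sum_congr rfl fun ν hν => sum_wS_node ((kN_le_of_mem hν).trans hD) c ω
  simp only [e]
  refine h m D _ _ fun ν hν => ?_
  rw [sum_rot_sq ((kN_le_of_mem hν).trans hD), sum_rot_sq ((kN_le_of_mem hν).trans hD)]
  exact hb ν hν

lemma sum_indicator_rect {S I : Finset (Node × ℕ)} (h : S ⊆ I) (b x : Node × ℕ → ℝ) :
    ∑ i ∈ I, (if i ∈ S then b i else 0) * x i = ∑ i ∈ S, b i * x i := by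
  rw [← sum_subset h]
  · exact sum_congr rfl fun i hi => by rw [if_pos hi]
  · intro i _ hi
    rw [if_neg hi, zero_mul]

lemma SubEst.mult {P K : ℝ} (h : SubEst P K) (S : Finset (Node × ℕ)) (a θ : Node × ℕ → ℝ)
    (hθ : ∀ i, |θ i| ≤ 1) :
    ∫ ω, |∑ i ∈ S, θ i * a i * wS i ω| ^ P ∂mu ≤ K * ∫ ω, |∑ i ∈ S, a i * wS i ω| ^ P ∂mu := by
  obtain ⟨m, hm⟩ := exists_rect S
  have hS := hm m (m + 1) le_rfl (Nat.le_succ m)
  have := h.rot (m := m) le_rfl (fun i => if i ∈ S then a i else 0)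
    (fun i => if i ∈ S then θ i * a i else 0) fun ν _ => sum_le_sum fun d _ => by
      split_ifs
      · rw [mul_pow]
        exact mul_le_of_le_one_left (sq_nonneg _) ((sq_le_one_iff_abs_le_one _).2 (hθ _))
      · rfl
  simpa only [sum_indicator_rect hS] using this

lemma SubEst.node {P K : ℝ} (h : SubEst P K) (ν : Node) (Λ Λ' : Finset ℕ) (a a' : ℕ → ℝ)
    (ha : ∑ d ∈ Λ', a' d ^ 2 ≤ ∑ d ∈ Λ, a d ^ 2) :
    ∫ ω, |∑ d ∈ Λ', a' d * wS (ν, d) ω| ^ P ∂mu
      ≤ K * ∫ ω, |∑ d ∈ Λ, a d * wS (ν, d) ω| ^ P ∂mu := by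
  obtain ⟨m, hm⟩ := exists_rect ({ν} ×ˢ (Λ ∪ Λ'))
  have hS := hm m (m + 1) le_rfl (Nat.le_succ m)
  have h1 : {ν} ×ˢ Λ ⊆ nodes m ×ˢ range (m + 1) :=
    (product_subset_product_right subset_union_left).trans hS
  have h2 : {ν} ×ˢ Λ' ⊆ nodes m ×ˢ range (m + 1) :=
    (product_subset_product_right subset_union_right).trans hS
  have key : ∀ (L : Finset ℕ) (x : ℕ → ℝ), {ν} ×ˢ L ⊆ nodes m ×ˢ range (m + 1) → ∀ ν' : Node,
      ∑ d ∈ range (m + 1), (if (ν', d) ∈ {ν} ×ˢ L then x d else 0) ^ 2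
        = if ν' = ν then ∑ d ∈ L, x d ^ 2 else 0 := by
    intro L x hL ν'
    split_ifs with h'
    · subst h'
      have : L ⊆ range (m + 1) := fun d hd =>
        (mem_product.1 (hL (mem_product.2 ⟨mem_singleton_self ν', hd⟩ : (ν', d) ∈ _))).2
      rw [← sum_subset this]
      · exact sum_congr rfl fun d hd => by simp [hd]
      · intro d _ hd
        simp [hd]
    · exact sum_eq_zero fun d _ => by
        rw [if_neg fun hh => h' (mem_singleton.1 (mem_product.1 hh).1)]; simp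
  have := h.rot (m := m) le_rfl (fun i => if i ∈ {ν} ×ˢ Λ then a i.2 else 0)
    (fun i => if i ∈ {ν} ×ˢ Λ' then a' i.2 else 0) fun ν' _ => by
      rw [key Λ a h1, key Λ' a' h2]
      split_ifs
      · exact ha
      · rfl
  simpa only [sum_indicator_rect h1, sum_indicator_rect h2, sum_product, sum_singleton] using this

lemma uS_eq_wS (ν : Node) (d : ℕ) (ω : Om) :
    uS (ν, d) ω = wS (ν, d) ω - yN ν d * ∑ e ∈ range (kN ν), yN ν e * wS (ν, e) ω := by
  simp only [wS, mul_sub, sum_sub_distrib, ← mul_assoc, ← sum_mul]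
  linear_combination (-∑ e ∈ range (kN ν), yN ν e * uS (ν, e) ω) * sum_yN_sq ν d

lemma uS_zero_eq (n : ℕ) (s : Fin (n + 1) → Fin 2) (ω : Om) :
    uS (Sum.inr ⟨n, s⟩, 0) ω
      = ∑ e ∈ range (n + 1), -(√((n + 1 : ℕ) : ℝ))⁻¹ * wS (Sum.inr ⟨n, s⟩, e + 1) ω := by
  rw [uS_eq_wS]
  simp only [kN]
  rw [sum_range_succ']
  have h0 : yN (Sum.inr ⟨n, s⟩) 0 = 1 := by simp [yN]
  rw [h0, one_mul, one_mul, sub_add_cancel_right, ← sum_neg_distrib]
  refine sum_congr rfl fun e he => ?_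
  have := mem_range.1 he
  simp only [yN]
  rw [if_neg (by omega), if_pos (by omega), neg_mul]

lemma integral_uS_wS (i j : Node × ℕ) :
    ∫ ω, uS i ω * wS j ω ∂mu =
      if i.1 = j.1 then nu i.1 * ((if i.2 = j.2 then 1 else 0) - yN i.1 i.2 * yN i.1 j.2)
      else 0 := by
  have e : ∀ ω, uS i ω * wS j ω = uS i ω * uS j ω -
      ∑ e ∈ range (kN j.1), (yN j.1 j.2 * yN j.1 e) * (uS i ω * uS (j.1, e) ω) := fun ω => by
    simp only [wS, mul_sub, mul_sum]
    congr 1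
    exact sum_congr rfl fun _ _ => by ring
  simp only [e]
  have hi : ∀ k : Node × ℕ, Integrable (fun ω => uS i ω * uS k ω) mu := fun k =>
    integ ((continuous_uS i).fun_mul (continuous_uS k))
  rw [integral_sub (hi j) (integrable_finsetSum _ fun e _ => (hi _).const_mul _),
    integral_finsetSum _ fun e _ => (hi _).const_mul _]
  simp only [integral_const_mul, integral_uS_mul]
  rcases i with ⟨ν, d⟩
  rcases j with ⟨ν', d'⟩
  by_cases h : ν = ν'
  · subst h
    simp only [Prod.mk.injEq, true_and, mul_ite, mul_zero, sum_ite_eq, mem_range, if_true]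
    by_cases h2 : d < kN ν
    · rw [if_pos h2]
      split_ifs <;> ring
    · rw [if_neg h2, yN_eq_zero (not_lt.1 h2)]
      split_ifs <;> ring
  · simp [h]

/-- The half of the space that contains the support of a node. -/
def half : Node → Fin 2
  | Sum.inl c => c
  | Sum.inr ⟨_, s⟩ => s 0

lemma vN_eq_zero {ν : Node} {ω : Om} (h : ω 0 ≠ half ν) : vN ν ω = 0 := by
  rcases ν with c | ⟨n, s⟩
  · simp only [vN]; exact if_neg h
  · simp only [vN, cyl]
    rw [if_neg, mul_zero]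
    rintro rfl
    exact h rfl

lemma wS_eq_zero {i : Node × ℕ} {ω : Om} (h : vN i.1 ω = 0) : wS i ω = 0 := by
  simp [wS, uS, h]

lemma abs_uS (i : Node × ℕ) (ω : Om) : |uS i ω| = |vN i.1 ω| := by
  rw [uS, abs_mul, abs_sg, one_mul]

lemma integral_abs_uS_rpow {P : ℝ} (hP : 0 < P) (i : Node × ℕ) :
    ∫ ω, |uS i ω| ^ P ∂mu = nu i.1 := by
  rw [← integral_abs_vN]
  congr 1
  funext ω
  rw [abs_uS]
  rcases abs_vN i.1 ω with h | h <;> rw [h]
  · exact Real.zero_rpow hP.ne'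
  · exact Real.one_rpow _

lemma SubEst.nu_le {P K : ℝ} (h : SubEst P K) (hP : 0 < P) (i : Node × ℕ) :
    nu i.1 ≤ K * ∫ ω, |wS i ω| ^ P ∂mu := by
  have := h.node i.1 {i.2} {kN i.1} (fun _ => 1) (fun _ => 1) (by simp)
  simpa only [sum_singleton, one_mul, wS_eq_uS le_rfl, integral_abs_uS_rpow hP] using this

/-- The lower Khintchine inequality. -/
lemma SubEst.khintchine {P K : ℝ} (h : SubEst P K) (hK : 0 ≤ K) (hP : 0 < P) (A : Finset ℕ)
    (y : ℕ → ℝ) :
    (∑ k ∈ A, y k ^ 2) ^ (P / 2) ≤ 2 * K * ∫ ω, |∑ k ∈ A, sg k ω * y k| ^ P ∂mu := by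
  have h0 : 0 ≤ ∑ k ∈ A, y k ^ 2 := sum_nonneg fun _ _ => sq_nonneg _
  have h1 := h.node (Sum.inl 0) A {0} y (fun _ => √(∑ k ∈ A, y k ^ 2))
    (by rw [sum_singleton, Real.sq_sqrt h0])
  have hw : ∀ d ω, wS (Sum.inl 0, d) ω = uS (Sum.inl 0, d) ω := fun d ω =>
    wS_eq_uS (Nat.zero_le d) ω
  simp only [sum_singleton, hw, abs_mul, Real.mul_rpow (abs_nonneg _) (abs_nonneg _),
    integral_const_mul, integral_abs_uS_rpow hP, nu] at h1
  rw [abs_of_nonneg (Real.sqrt_nonneg _), Real.sqrt_eq_rpow, ← Real.rpow_mul h0] at h1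
  have h2 : ∫ ω, |∑ d ∈ A, y d * uS (Sum.inl 0, d) ω| ^ P ∂mu
      ≤ ∫ ω, |∑ k ∈ A, sg k ω * y k| ^ P ∂mu := by
    refine integral_mono (integ (continuous_abs_rpow (continuous_finsetSum _ fun _ _ =>
      continuous_const.mul (continuous_uS _)) hP.le)) (integ (continuous_abs_rpow
        (continuous_finsetSum _ fun _ _ => (continuous_sg _).mul continuous_const) hP.le))
      fun ω => ?_
    refine Real.rpow_le_rpow (abs_nonneg _) ?_ hP.le
    simp only [uS, vN, kN, zero_add]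
    split_ifs
    · simp [mul_comm]
    · simp
  have h3 := mul_le_mul_of_nonneg_left h2 hK
  have e : 1 / 2 * P = P / 2 := by ring
  rw [e] at h1
  linarith

end Pool.Agent.MP_30195a_an

end MrgPart1

-- ======== part 2: formerly Pool.Agent.MP_30195a_an.Upper
section MrgPart2

/-!
# The abstract upper bound (the argument of T. Zhang and V. Temlyakov)
-/

set_option autoImplicit false

open Finset

namespace Pool.Agent.MP_30195a_an

variable {X : Type*} [NormedAddCommGroup X] [NormedSpace ℝ X]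

section Proj

variable {ι : Type*} [DecidableEq ι] {L : SummationFilter ι} (Ψ : GeneralSchauderBasis ι ℝ X L)

lemma proj_split (S A : Finset ι) (x : X) :
    Ψ.proj S x = Ψ.proj (S ∩ A) x + Ψ.proj (S \ A) x := by
  simp only [GeneralSchauderBasis.proj_apply]
  exact (sum_inter_add_sum_sdiff S A _).symm

omit [DecidableEq ι] in
lemma proj_mem_span {S A : Finset ι} (h : S ⊆ A) (x : X) :
    Ψ.proj S x ∈ Submodule.span ℝ (Ψ '' (A : Set ι)) := by
  rw [GeneralSchauderBasis.proj_apply]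
  exact Submodule.sum_mem _ fun i hi =>
    Submodule.smul_mem _ _ (Submodule.subset_span ⟨i, h hi, rfl⟩)

omit [DecidableEq ι] in
lemma coord_eq_zero_of_mem_span {A : Finset ι} {G : X}
    (hG : G ∈ Submodule.span ℝ (Ψ '' (A : Set ι))) {i : ι} (hi : i ∉ A) : Ψ.coord i G = 0 := by
  induction hG using Submodule.span_induction with
  | mem x hx =>
    obtain ⟨j, hj, rfl⟩ := hx
    have : i ≠ j := fun h => hi (h ▸ hj)
    rw [Ψ.ortho]
    simp [this]
  | zero => simp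
  | add x y _ _ hx hy => simp [hx, hy]
  | smul a x _ hx => simp [hx]

omit [DecidableEq ι] in
lemma proj_eq_self_of_mem_span {A : Finset ι} {G : X}
    (hG : G ∈ Submodule.span ℝ (Ψ '' (A : Set ι))) : Ψ.proj A G = G := by
  induction hG using Submodule.span_induction with
  | mem x hx =>
    obtain ⟨j, hj, rfl⟩ := hx
    rw [Ψ.proj_apply_basis_mem]
    simp only [mem_coe] at hj
    simp [hj]
  | zero => simp
  | add x y _ _ hx hy => rw [map_add, hx, hy]
  | smul a x _ hx => rw [map_smul, hx]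

omit [DecidableEq ι] in
lemma proj_eq_zero_of_disjoint {A S : Finset ι} {G : X}
    (hG : G ∈ Submodule.span ℝ (Ψ '' (A : Set ι))) (h : Disjoint S A) : Ψ.proj S G = 0 := by
  rw [GeneralSchauderBasis.proj_apply]
  refine sum_eq_zero fun i hi => ?_
  rw [coord_eq_zero_of_mem_span Ψ hG (disjoint_left.1 h hi), zero_smul]

end Proj

lemma exists_opt {ι : Type*} [DecidableEq ι] (N : Finset ι → ℝ) (Γ : Finset ι) (s : ℕ) :
    ∃ A : Finset ι, A.card ≤ s ∧ ∀ A' : Finset ι, A'.card ≤ s → N (Γ \ A) ≤ N (Γ \ A') := by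
  obtain ⟨A, hA, hmin⟩ := exists_min_image (Γ.powerset.filter fun A => A.card ≤ s)
    (fun A => N (Γ \ A)) ⟨∅, by simp⟩
  refine ⟨A, (mem_filter.1 hA).2, fun A' hA' => ?_⟩
  have := hmin (Γ ∩ A') (mem_filter.2 ⟨mem_powerset.2 inter_subset_left,
    (card_le_card inter_subset_right).trans hA'⟩)
  rwa [sdiff_inter_self_left] at this

/-- The data used in the upper bound. -/
structure UpperHyp {ι : Type*} {L : SummationFilter ι} (Ψ : GeneralSchauderBasis ι ℝ X L)
    (U V r γ s : ℝ) : Prop where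
  norm_le : ∀ i, ‖Ψ i‖ ≤ 1
  U_ge : 1 ≤ U
  V_pos : 0 < V
  r_nonneg : 0 ≤ r
  γ_pos : 0 < γ
  s_pos : 0 < s
  rs_ge : 1 ≤ r * s
  proj_le : ∀ (A : Finset ι) (x : X), ‖Ψ.proj A x‖ ≤ U * ‖x‖
  sum_le : ∀ (A : Finset ι) (x : X), ∑ i ∈ A, |Ψ.coord i x| ≤ V * (A.card : ℝ) ^ r * ‖x‖
  descent : ∀ (f g : X) (F : StrongDual ℝ X), f ≠ 0 → IsNorming F f → ‖g‖ ≤ 1 →
    ∃ l : ℝ, ‖f - l • g‖ ≤ ‖f‖ * (1 - γ * |F g| ^ s)

namespace UpperHyp

variable {ι : Type*} [DecidableEq ι] {L : SummationFilter ι} {Ψ : GeneralSchauderBasis ι ℝ X L}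
  {U V r γ s t : ℝ} {f₀ h : X} {idx : ℕ → ι} {f : ℕ → X} {T : Finset ι} {ε : ℝ}

lemma one_step (H : UpperHyp Ψ U V r γ s) (ht : 0 < t) (R : IdxRun Ψ t f₀ idx f)
    (hT : Ψ.proj T h = h) (hε : ‖f₀ - h‖ ≤ ε) {k m : ℕ} (hkm : k ≤ m) {A : Finset ι} {n : ℕ}
    (hn : 1 ≤ n) (hA : A.card ≤ n) {δ : ℝ} (hδ : ε + ‖Ψ.proj ((T \ chosen idx k) \ A) h‖ ≤ δ)
    (hm : 2 * δ ≤ ‖f m‖) :
    ‖f (m + 1)‖ ≤ Real.exp (-(γ * (t / (3 * V)) ^ s) / (n : ℝ) ^ (r * s)) * ‖f m‖ := by
  by_cases hf : f m = 0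
  · have := R.antitone (Nat.le_succ m)
    rw [hf, norm_zero] at this ⊢
    simpa using this
  have hpos : 0 < ‖f m‖ := norm_pos_iff.2 hf
  obtain ⟨F, hF, hsel⟩ := R.select m hf
  have hz : ∀ {G : X}, G ∈ Submodule.span ℝ (Ψ '' (chosen idx m : Set ι)) → F G = 0 :=
    fun hG => R.norming_zero H.norm_le H.γ_pos H.descent hf hF hG
  set y := |F (Ψ (idx m))| with hy
  set A' := ((T \ chosen idx k) ∩ A) \ chosen idx m with hA'
  have hV := H.V_pos
  have hn' : (0 : ℝ) < (n : ℝ) ^ r := by positivity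
  -- decomposition of `F h`
  have e1 : F h = F (Ψ.proj ((T \ chosen idx k) \ A) h) + F (Ψ.proj A' h) := by
    conv_lhs => rw [← hT, proj_split Ψ T (chosen idx k), proj_split Ψ (T \ chosen idx k) A,
      proj_split Ψ ((T \ chosen idx k) ∩ A) (chosen idx m)]
    simp only [map_add]
    rw [hz (proj_mem_span Ψ (inter_subset_right.trans (chosen_mono idx hkm)) h),
      hz (proj_mem_span Ψ inter_subset_right h)]
    ring
  have e2 : t * F (Ψ.proj A' h) ≤ V * (n : ℝ) ^ r * (‖f m‖ + ε) * y := by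
    have a1 : t * F (Ψ.proj A' h) ≤ (∑ i ∈ A', |Ψ.coord i (h - (f₀ - f m))|) * y := by
      rw [GeneralSchauderBasis.proj_apply, map_sum, mul_sum, sum_mul]
      refine sum_le_sum fun i hi => ?_
      rw [map_sub (Ψ.coord i) h, coord_eq_zero_of_mem_span Ψ (R.approx_mem m) (mem_sdiff.1 hi).2,
        sub_zero, map_smul, smul_eq_mul]
      have b1 : Ψ.coord i h * F (Ψ i) ≤ |Ψ.coord i h| * |F (Ψ i)| := by
        rw [← abs_mul]; exact le_abs_self _
      have b2 := mul_le_mul_of_nonneg_left (hsel i) (abs_nonneg (Ψ.coord i h))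
      have b3 := mul_le_mul_of_nonneg_left b1 ht.le
      linarith
    refine a1.trans (mul_le_mul_of_nonneg_right ((H.sum_le A' _).trans ?_) (abs_nonneg _))
    have c1 : (A'.card : ℝ) ≤ n := by
      exact_mod_cast (card_le_card (sdiff_subset.trans inter_subset_right)).trans hA
    have c2 : ‖h - (f₀ - f m)‖ ≤ ‖f m‖ + ε := by
      have : h - (f₀ - f m) = f m - (f₀ - h) := by abel
      rw [this]
      exact (norm_sub_le _ _).trans (by linarith)
    have c3 := H.r_nonneg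
    gcongr
  have e3 : ‖f m‖ ≤ δ + F (Ψ.proj A' h) := by
    have a1 : F (f m) = F (f₀ - h) + F h - F (f₀ - f m) := by simp
    rw [hF.2, hz (R.approx_mem m), e1] at a1
    have a2 := (le_abs_self _).trans (hF.abs_le (f₀ - h))
    have a3 := (le_abs_self _).trans (hF.abs_le (Ψ.proj ((T \ chosen idx k) \ A) h))
    linarith
  have e4 : t / (3 * V) / (n : ℝ) ^ r ≤ y := by
    have hεδ : ε ≤ δ := by linarith [norm_nonneg (Ψ.proj ((T \ chosen idx k) \ A) h)]
    have a1 : t * (‖f m‖ / 2) ≤ t * F (Ψ.proj A' h) :=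
      mul_le_mul_of_nonneg_left (by linarith) ht.le
    have a2 : V * (n : ℝ) ^ r * (‖f m‖ + ε) * y ≤ V * (n : ℝ) ^ r * (3 / 2 * ‖f m‖) * y := by
      have : 0 ≤ y := abs_nonneg _
      gcongr
      linarith
    have a3 : ‖f m‖ * t ≤ ‖f m‖ * (y * (n : ℝ) ^ r * (3 * V)) := by linarith
    rw [div_le_iff₀ hn', div_le_iff₀ (by positivity)]
    exact le_of_mul_le_mul_left a3 hpos
  have e5 : (t / (3 * V)) ^ s / (n : ℝ) ^ (r * s) ≤ y ^ s := by
    rw [Real.rpow_mul (Nat.cast_nonneg n), ← Real.div_rpow (by positivity) hn'.le]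
    exact Real.rpow_le_rpow (by positivity) e4 H.s_pos.le
  obtain ⟨l, hl⟩ := H.descent (f m) (Ψ (idx m)) F hf hF (H.norm_le _)
  refine (R.step_le (Nat.le_succ m) (mem_chosen_succ idx m) l).trans (hl.trans ?_)
  rw [mul_comm]
  refine mul_le_mul_of_nonneg_right ?_ hpos.le
  refine le_trans ?_ (Real.add_one_le_exp _)
  have := mul_le_mul_of_nonneg_left e5 H.γ_pos.le
  rw [neg_div, mul_div_assoc]
  linarith

lemma many_steps (H : UpperHyp Ψ U V r γ s) (ht : 0 < t) (R : IdxRun Ψ t f₀ idx f)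
    (hT : Ψ.proj T h = h) (hε : ‖f₀ - h‖ ≤ ε) {k m : ℕ} (hkm : k ≤ m) {A : Finset ι} {n : ℕ}
    (hn : 1 ≤ n) (hA : A.card ≤ n) {δ : ℝ} (hδ : ε + ‖Ψ.proj ((T \ chosen idx k) \ A) h‖ ≤ δ)
    (N : ℕ) :
    ‖f (m + N)‖ ≤ max (Real.exp (-(γ * (t / (3 * V)) ^ s) / (n : ℝ) ^ (r * s)) ^ N * ‖f m‖)
      (2 * δ) := by
  set ρ := Real.exp (-(γ * (t / (3 * V)) ^ s) / (n : ℝ) ^ (r * s)) with hρ
  have hρ0 : 0 < ρ := Real.exp_pos _
  have hρ1 : ρ ≤ 1 := by
    rw [hρ, Real.exp_le_one_iff, neg_div, neg_nonpos]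
    have := H.γ_pos
    have := H.V_pos
    positivity
  induction N with
  | zero => simp
  | succ N ih =>
    by_cases hc : 2 * δ ≤ ‖f (m + N)‖
    · have h1 := H.one_step ht R hT hε (hkm.trans (Nat.le_add_right m N)) hn hA hδ hc
      rw [← hρ] at h1
      rcases le_max_iff.1 ih with h2 | h2
      · refine le_max_of_le_left (h1.trans ?_)
        rw [pow_succ', mul_assoc]
        exact mul_le_mul_of_nonneg_left h2 hρ0.le
      · exact le_max_of_le_right (h1.trans ((mul_le_of_le_one_left (norm_nonneg _) hρ1).trans h2))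
    · exact le_max_of_le_right ((R.antitone (Nat.le_succ _)).trans (not_le.1 hc).le)

/-- The number of steps per stage is governed by this constant. -/
noncomputable def aConst (U V γ s t : ℝ) : ℝ := 4 * U / (γ * (t / (3 * V)) ^ s)

omit [DecidableEq ι] in
lemma aConst_pos (H : UpperHyp Ψ U V r γ s) (ht : 0 < t) : 0 < aConst U V γ s t := by
  have := H.γ_pos
  have := H.V_pos
  have := H.U_ge
  unfold aConst
  positivity

lemma stage (H : UpperHyp Ψ U V r γ s) (ht : 0 < t) (R : IdxRun Ψ t f₀ idx f)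
    (hT : Ψ.proj T h = h) (hε : ‖f₀ - h‖ ≤ ε) {k m : ℕ} (hkm : k ≤ m) {A : Finset ι} {n : ℕ}
    (hn : 1 ≤ n) (hA : A.card ≤ n) {δ : ℝ} (hδ : ε + ‖Ψ.proj ((T \ chosen idx k) \ A) h‖ ≤ δ) :
    ‖f (m + ⌈aConst U V γ s t * (n : ℝ) ^ (r * s)⌉₊)‖ ≤ max (‖f m‖ / (4 * U)) (2 * δ) := by
  refine (H.many_steps ht R hT hε hkm hn hA hδ _).trans (max_le_max_right _ ?_)
  have hγ := H.γ_pos
  have hV := H.V_pos
  have hU := H.U_ge
  set κ := γ * (t / (3 * V)) ^ s with hκ
  have hκ0 : 0 < κ := by positivity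
  have hn' : (0 : ℝ) < (n : ℝ) ^ (r * s) := by positivity
  rw [div_eq_inv_mul ‖f m‖]
  refine mul_le_mul_of_nonneg_right ?_ (norm_nonneg _)
  rw [← Real.exp_nat_mul]
  have h1 := Nat.le_ceil (aConst U V γ s t * (n : ℝ) ^ (r * s))
  generalize (⌈aConst U V γ s t * (n : ℝ) ^ (r * s)⌉₊ : ℝ) = N at h1
  have h2 : N * (-κ / (n : ℝ) ^ (r * s)) ≤ -(4 * U) := by
    have : aConst U V γ s t = 4 * U / κ := rfl
    rw [this] at h1
    rw [neg_div, mul_neg, neg_le_neg_iff, ← mul_div_assoc, le_div_iff₀ hn']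
    rw [div_mul_eq_mul_div, div_le_iff₀ hκ0] at h1
    exact h1
  refine (Real.exp_le_exp.2 h2).trans ?_
  rw [Real.exp_neg]
  exact inv_anti₀ (by positivity) (by linarith [Real.add_one_le_exp (4 * U)])

lemma good (H : UpperHyp Ψ U V r γ s) (ht : 0 < t) (R : IdxRun Ψ t f₀ idx f)
    (hT : Ψ.proj T h = h) (hε : ‖f₀ - h‖ ≤ ε) (k : ℕ) (hk : 1 ≤ (T \ chosen idx k).card) :
    ∃ m n : ℕ, 1 ≤ n ∧ n ≤ (T \ chosen idx k).card ∧
      (m : ℝ) ≤ k + 2 * (aConst U V γ s t + 1) * 2 ^ (r * s) * (n : ℝ) ^ (r * s) ∧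
      (‖f m‖ ≤ 5 * ε ∨ (T \ chosen idx m).card + n ≤ (T \ chosen idx k).card) := by
  set Γ := T \ chosen idx k with hΓ
  set a := aConst U V γ s t with ha
  set β := r * s with hβ
  have ha0 : 0 < a := H.aConst_pos ht
  have hβ1 : 1 ≤ β := H.rs_ge
  have hU := H.U_ge
  have hε0 : 0 ≤ ε := (norm_nonneg _).trans hε
  choose A hA1 hA2 using exists_opt (fun S => ‖Ψ.proj S h‖) Γ
  set b : ℕ → ℝ := fun j => ‖Ψ.proj (Γ \ A (2 ^ j - 1)) h‖ with hb
  have hb0 : ∀ j, 0 ≤ b j := fun j => norm_nonneg _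
  by_contra hcon
  have main : ∀ j : ℕ, ∃ m : ℕ, k ≤ m ∧ (m : ℝ) ≤ k + 2 * (a + 1) * ((2 ^ j : ℕ) : ℝ) ^ β ∧
      ‖f m‖ ≤ 2 * (ε + b j) ∧ 2 ^ j ≤ Γ.card := by
    intro j
    induction j with
    | zero =>
      refine ⟨k, le_rfl, le_add_of_nonneg_right (by positivity), ?_, by simpa using hk⟩
      have h0 : A (2 ^ 0 - 1) = ∅ := card_eq_zero.1 (Nat.le_zero.1 (hA1 (2 ^ 0 - 1)))
      have h1 := R.approx_best k _ (proj_mem_span Ψ (inter_subset_right (s₁ := T)) h)
      have h2 : f₀ - Ψ.proj (T ∩ chosen idx k) h = (f₀ - h) + Ψ.proj Γ h := by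
        have := proj_split Ψ T (chosen idx k) h
        rw [hT] at this
        rw [← hΓ] at this
        rw [sub_add, sub_right_inj, eq_sub_iff_add_eq]
        exact this.symm
      rw [h2] at h1
      have h3 := norm_add_le (f₀ - h) (Ψ.proj Γ h)
      have h4 : b 0 = ‖Ψ.proj Γ h‖ := by simp only [hb]; rw [h0, sdiff_empty]
      have := hb0 0
      linarith
    | succ j ih =>
      obtain ⟨m, hkm, hm, hfm, hj⟩ := ih
      have hst := H.stage ht R hT hε hkm (A := A (2 ^ (j + 1) - 1)) (n := 2 ^ (j + 1))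
        Nat.one_le_two_pow ((hA1 _).trans (Nat.sub_le _ _)) (δ := ε + b (j + 1)) le_rfl
      rw [← ha, ← hβ] at hst
      set m' := m + ⌈a * ((2 ^ (j + 1) : ℕ) : ℝ) ^ β⌉₊ with hm'
      have hp1 : (1 : ℝ) ≤ ((2 ^ (j + 1) : ℕ) : ℝ) ^ β :=
        Real.one_le_rpow (by exact_mod_cast Nat.one_le_two_pow) (by linarith)
      have hp2 : ((2 ^ (j + 1) : ℕ) : ℝ) ^ β = 2 ^ β * ((2 ^ j : ℕ) : ℝ) ^ β := by
        rw [← Real.mul_rpow (by norm_num) (by positivity)]
        congr 1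
        push_cast
        ring
      have hp3 : (2 : ℝ) ≤ 2 ^ β := by
        have := Real.rpow_le_rpow_of_exponent_le (by norm_num : (1 : ℝ) ≤ 2) hβ1
        simpa using this
      have hm'le : (m' : ℝ) ≤ k + 2 * (a + 1) * ((2 ^ (j + 1) : ℕ) : ℝ) ^ β := by
        have c1 := Nat.ceil_lt_add_one (a := a * ((2 ^ (j + 1) : ℕ) : ℝ) ^ β) (by positivity)
        have c2 : 2 * ((2 ^ j : ℕ) : ℝ) ^ β ≤ ((2 ^ (j + 1) : ℕ) : ℝ) ^ β := by
          rw [hp2]; exact mul_le_mul_of_nonneg_right hp3 (by positivity)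
        have c3 := mul_le_mul_of_nonneg_left c2 (by linarith : 0 ≤ a + 1)
        rw [hm', Nat.cast_add]
        linarith
      have hkm' : k ≤ m' := hkm.trans (Nat.le_add_right _ _)
      have hdiv : ‖f m‖ / (4 * U) ≤ 2 * ε + 2 * b j / (4 * U) := by
        rw [div_le_iff₀ (by positivity), add_mul, div_mul_cancel₀ _ (by positivity)]
        have := mul_le_mul_of_nonneg_left (by linarith : 1 ≤ 4 * U) hε0
        linarith
      by_cases hc : 4 * U * b (j + 1) ≤ b j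
      · exfalso
        apply hcon
        refine ⟨m', 2 ^ j, Nat.one_le_two_pow, hj, ?_, ?_⟩
        · rw [hp2] at hm'le
          linarith
        have d1 : b (j + 1) ≤ b j / (4 * U) := by rw [le_div_iff₀ (by positivity)]; linarith
        have d2 : ‖f m'‖ ≤ 2 * ε + 2 * (b j / (4 * U)) := by
          refine hst.trans (max_le ?_ (by linarith))
          rw [← mul_div_assoc]; exact hdiv
        by_cases hd : b j ≤ 6 * U * ε
        · left
          have : b j / (4 * U) ≤ 3 / 2 * ε := by rw [div_le_iff₀ (by positivity)]; linarith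
          linarith
        · right
          have hsub : T \ chosen idx m' ⊆ Γ := sdiff_subset_sdiff subset_rfl (chosen_mono idx hkm')
          have g1 : ‖Ψ.proj (T \ chosen idx m') h‖ < b j := by
            have g2 : Ψ.proj (T \ chosen idx m') h
                = Ψ.proj (T \ chosen idx m') (f m' - (f₀ - h)) := by
              have : f m' - (f₀ - h) = h - (f₀ - f m') := by abel
              rw [this, map_sub _ h, proj_eq_zero_of_disjoint Ψ (R.approx_mem m') sdiff_disjoint,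
                sub_zero]
            have g3 := H.proj_le (T \ chosen idx m') (f m' - (f₀ - h))
            have g4 : ‖f m' - (f₀ - h)‖ ≤ 3 * ε + 2 * (b j / (4 * U)) :=
              (norm_sub_le _ _).trans (by linarith)
            have g5 := mul_le_mul_of_nonneg_left g4 (by linarith : 0 ≤ U)
            have g6 : U * (2 * (b j / (4 * U))) = b j / 2 := by field_simp; ring
            rw [g2]
            linarith
          by_contra hlt
          have g7 : (Γ \ (T \ chosen idx m')).card ≤ 2 ^ j - 1 := by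
            rw [card_sdiff_of_subset hsub]
            omega
          have g8 := hA2 _ _ g7
          rw [Finset.sdiff_sdiff_eq_self hsub] at g8
          exact absurd g1 (not_lt.2 g8)
      · push Not at hc
        refine ⟨m', hkm', hm'le, hst.trans (max_le ?_ le_rfl), ?_⟩
        · have : 2 * b j / (4 * U) ≤ 2 * b (j + 1) := by
            rw [div_le_iff₀ (by positivity)]; linarith
          linarith
        · by_contra hlt
          have g1 := hA2 (2 ^ (j + 1) - 1) Γ (by omega)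
          rw [sdiff_self, bot_eq_empty, GeneralSchauderBasis.proj_empty] at g1
          have g2 : b (j + 1) ≤ 0 := g1.trans (by simp)
          have g3 : 4 * U * b (j + 1) ≤ 0 := mul_nonpos_of_nonneg_of_nonpos (by linarith) g2
          linarith [hb0 j]
  obtain ⟨_, _, _, _, hj⟩ := main Γ.card
  exact absurd hj (not_le.2 Nat.lt_two_pow_self)

lemma reach (H : UpperHyp Ψ U V r γ s) (ht : 0 < t) (R : IdxRun Ψ t f₀ idx f)
    (hT : Ψ.proj T h = h) (hε : ‖f₀ - h‖ ≤ ε) (n : ℕ) :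
    ∀ k : ℕ, (T \ chosen idx k).card ≤ n → ∃ m : ℕ,
      (m : ℝ) ≤ k + 2 * (aConst U V γ s t + 1) * 2 ^ (r * s) * (n : ℝ) ^ (r * s) ∧
        ‖f m‖ ≤ 5 * ε := by
  have ha0 := H.aConst_pos ht
  have hβ1 := H.rs_ge
  have hε0 : 0 ≤ ε := (norm_nonneg _).trans hε
  set c := 2 * (aConst U V γ s t + 1) * 2 ^ (r * s) with hc
  have hc0 : 0 ≤ c := by positivity
  induction n using Nat.strong_induction_on with
  | _ n ih =>
    intro k hk
    by_cases h0 : 1 ≤ (T \ chosen idx k).card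
    · obtain ⟨m, j, hj1, hj2, hm, hor⟩ := H.good ht R hT hε k h0
      rw [← hc] at hm
      rcases hor with h1 | h1
      · refine ⟨m, hm.trans ?_, h1⟩
        have : (j : ℝ) ≤ n := by exact_mod_cast hj2.trans hk
        gcongr
      · obtain ⟨m', hm', h2⟩ := ih (n - j) (by omega) m (by omega)
        refine ⟨m', hm'.trans ?_, h2⟩
        have e1 := Real.add_rpow_le_rpow_add (Nat.cast_nonneg (α := ℝ) j)
          (Nat.cast_nonneg (α := ℝ) (n - j)) hβ1
        rw [← Nat.cast_add, Nat.add_sub_cancel' (hj2.trans hk)] at e1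
        have e2 := mul_le_mul_of_nonneg_left e1 hc0
        linarith
    · refine ⟨k, le_add_of_nonneg_right (by positivity), ?_⟩
      have h1 : T ⊆ chosen idx k := by
        rw [← sdiff_eq_empty_iff_subset, ← card_eq_zero]; omega
      have h2 := R.approx_best k _ (proj_mem_span Ψ h1 h)
      rw [hT] at h2
      linarith

/-- The abstract upper bound. -/
theorem isGreedy [Nonempty ι] (H : UpperHyp Ψ U V r γ s) (ht : 0 < t) :
    ∃ c : ℝ, 1 ≤ c ∧ IsGreedy (Set.range Ψ) t (fun x => c * x ^ (r * s - 1)) := by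
  have ha0 := H.aConst_pos ht
  have hβ1 := H.rs_ge
  refine ⟨2 * (aConst U V γ s t + 1) * 2 ^ (r * s), ?_, 5, fun f₀ m hm φ f hR => ?_⟩
  · have h1 : (1 : ℝ) ≤ 2 ^ (r * s) := Real.one_le_rpow (by norm_num) (by linarith)
    nlinarith
  obtain ⟨idx, R⟩ := hR.idxRun H.norm_le ht.le
  rw [← div_le_iff₀' (by norm_num)]
  refine le_csInf ⟨_, fun _ => Ψ (Classical.arbitrary ι), fun _ => 0,
    fun _ => ⟨_, rfl⟩, rfl⟩ ?_
  rintro e ⟨g, c, hg, rfl⟩
  choose j hj using hg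
  have hmem : ∑ i, c i • g i ∈ Submodule.span ℝ (Ψ '' (univ.image j : Finset ι)) :=
    Submodule.sum_mem _ fun i _ => Submodule.smul_mem _ _
      (Submodule.subset_span ⟨j i, by simp, hj i⟩)
  obtain ⟨m', hm', h2⟩ := H.reach ht R (proj_eq_self_of_mem_span Ψ hmem) le_rfl m 0 (by
    refine (card_le_card sdiff_subset).trans (card_image_le.trans ?_)
    simp)
  rw [div_le_iff₀' (by norm_num)]
  refine (R.antitone (Nat.le_floor ?_)).trans h2
  have hm0 : (0 : ℝ) < m := by exact_mod_cast hm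
  rw [mul_assoc _ _ (m : ℝ), ← Real.rpow_add_one hm0.ne', sub_add_cancel]
  simpa using hm'

end UpperHyp

end Pool.Agent.MP_30195a_an

end MrgPart2

-- ======== part 3: formerly Pool.Agent.MP_30195a_an.LpUpper
section MrgPart3

/-!
# The upper bound in `L_p`
-/

set_option autoImplicit false

open MeasureTheory Finset
open scoped ENNReal

namespace Pool.Agent.MP_30195a_an

lemma sum_abs_rpow_le {P : ℝ} (hP : 1 < P) (A : Finset ℕ) (y : ℕ → ℝ) :
    ∑ k ∈ A, |y k| ^ P ≤ (A.card : ℝ) ^ (max 0 (1 - P / 2)) * (∑ k ∈ A, y k ^ 2) ^ (P / 2) := by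
  have h0 : 0 ≤ ∑ k ∈ A, y k ^ 2 := sum_nonneg fun _ _ => sq_nonneg _
  have e : ∀ x : ℝ, |x| ^ P = (x ^ 2) ^ (P / 2) := fun x => by
    rw [← sq_abs, ← Real.rpow_two, ← Real.rpow_mul (abs_nonneg _)]
    congr 1; ring
  rcases le_total 2 P with h | h
  · rw [max_eq_left (by linarith), Real.rpow_zero, one_mul]
    have e2 : (∑ k ∈ A, y k ^ 2) ^ (P / 2)
        = (∑ k ∈ A, y k ^ 2) ^ (P / 2 + 1 - 2) * ∑ k ∈ A, y k ^ 2 := by
      rw [← Real.rpow_add_one' h0 (by linarith)]; congr 1; ring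
    rw [e2, mul_sum]
    refine sum_le_sum fun k hk => ?_
    have := rpow_sub_one_le (p := P / 2 + 1) (by linarith) (sq_nonneg (y k))
      (single_le_sum (f := fun k => y k ^ 2) (fun _ _ => sq_nonneg _) hk)
    rwa [add_sub_cancel_right, ← e] at this
  · rw [max_eq_right (by linarith)]
    have hP0 : 0 < P := by linarith
    have h1 := Real.rpow_sum_le_const_mul_sum_rpow_of_nonneg A (f := fun k => |y k| ^ P)
      (p := 2 / P) (by rw [le_div_iff₀ hP0]; linarith) (fun _ _ => by positivity)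
    have e3 : ∀ x : ℝ, (|x| ^ P) ^ (2 / P) = x ^ 2 := fun x => by
      rw [← Real.rpow_mul (abs_nonneg _), mul_div_cancel₀ _ hP0.ne', Real.rpow_two, sq_abs]
    simp only [e3] at h1
    have h2 : 0 ≤ ∑ k ∈ A, |y k| ^ P := sum_nonneg fun _ _ => by positivity
    have h3 := Real.rpow_le_rpow (Real.rpow_nonneg h2 _) h1 (by positivity : 0 ≤ P / 2)
    rw [← Real.rpow_mul h2, Real.mul_rpow (by positivity) h0,
      ← Real.rpow_mul (Nat.cast_nonneg _)] at h3
    have e4 : 2 / P * (P / 2) = 1 := by field_simp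
    have e5 : (2 / P - 1) * (P / 2) = 1 - P / 2 := by field_simp
    rwa [e4, e5, Real.rpow_one] at h3

section

variable {α : Type*} [MeasurableSpace α] {μ : Measure α} [SFinite μ] {p : ℝ≥0∞} [Fact (1 ≤ p)]

omit [SFinite μ] in
lemma coeFn_sum_smul {ι : Type*} (A : Finset ι) (c : ι → ℝ) (ψ : ι → Lp ℝ p μ) :
    ⇑(∑ k ∈ A, c k • ψ k) =ᵐ[μ] fun x => ∑ k ∈ A, c k * ψ k x := by
  filter_upwards [Lp.coeFn_fun_finsetSum A fun k => c k • ψ k,
    (Finset.eventually_all A).2 fun k _ => Lp.coeFn_smul (c k) (ψ k)] with x h1 h2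
  rw [h1]
  exact sum_congr rfl fun k hk => by rw [h2 k hk]; rfl

lemma sum_coeff_le (hp1 : 1 < p) (hp : p ≠ ∞) : ∃ V : ℝ, 0 < V ∧
    ∀ (ψ : ℕ → Lp ℝ p μ), (∀ k, ‖ψ k‖ = 1) → ∀ (A : Finset ℕ) (a : ℕ → ℝ) (B : ℝ),
      (∀ θ : ℕ → ℝ, (∀ k, θ k = 1 ∨ θ k = -1) → ‖∑ k ∈ A, (θ k * a k) • ψ k‖ ≤ B) →
      ∑ k ∈ A, |a k| ≤ V * (A.card : ℝ) ^ (max (1 - 1 / p.toReal) (1 / 2)) * B := by
  have hP := one_lt_toReal hp1 hp
  set P := p.toReal with hPdef
  have hP0 : 0 < P := by linarith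
  obtain ⟨K, hK, hS⟩ := exists_subEst hP
  refine ⟨(2 * K) ^ P⁻¹, by positivity, fun ψ hψ A a B hB => ?_⟩
  have hB0 : 0 ≤ B := (norm_nonneg _).trans (hB (fun _ => 1) fun _ => Or.inl rfl)
  have i1 : ∀ k, Integrable (fun x => |a k * ψ k x| ^ P) μ := fun k => by
    simp only [abs_mul, Real.mul_rpow (abs_nonneg _) (abs_nonneg _)]
    exact (integrable_abs_rpow hp (ψ k)).const_mul _
  have i2 : Integrable (fun x => ∑ k ∈ A, |a k * ψ k x| ^ P) μ :=
    integrable_finsetSum _ fun k _ => i1 k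
  have iH : Integrable (Function.uncurry fun (ω : Om) (x : α) =>
      |∑ k ∈ A, sg k ω * (a k * ψ k x)| ^ P) (mu.prod μ) := by
    refine Integrable.mono' ((i2.const_mul ((A.card : ℝ) ^ (P - 1))).comp_snd mu) ?_ ?_
    · refine (continuous_abs.rpow_const fun _ => Or.inr hP0.le).comp_aestronglyMeasurable
        (f := fun z : Om × α => ∑ k ∈ A, sg k z.1 * (a k * ψ k z.2)) ?_
      refine Finset.aestronglyMeasurable_fun_sum _ fun k _ => ?_
      exact ((continuous_sg k).aestronglyMeasurable.comp_fst).mul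
        (((Lp.aestronglyMeasurable (ψ k)).const_mul _).comp_snd)
    · refine Filter.Eventually.of_forall fun z => ?_
      simp only [Function.uncurry]
      rw [Real.norm_of_nonneg (by positivity)]
      refine le_trans (Real.rpow_le_rpow (abs_nonneg _) ((abs_sum_le_sum_abs _ _).trans
        (le_of_eq ?_)) hP0.le) (Real.rpow_sum_le_const_mul_sum_rpow A _ hP.le)
      exact sum_congr rfl fun k _ => by rw [abs_mul, abs_sg, one_mul]
  have h1 : ∑ k ∈ A, |a k| ^ P = ∫ x, ∑ k ∈ A, |a k * ψ k x| ^ P ∂μ := by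
    rw [integral_finsetSum _ fun k _ => i1 k]
    refine sum_congr rfl fun k _ => ?_
    simp only [abs_mul, Real.mul_rpow (abs_nonneg _) (abs_nonneg _)]
    rw [integral_const_mul, ← norm_rpow_eq hp, hψ, Real.one_rpow, mul_one]
  set n : ℝ := (A.card : ℝ) with hn
  have hn0 : 0 ≤ n := Nat.cast_nonneg _
  have h2 : ∫ x, ∑ k ∈ A, |a k * ψ k x| ^ P ∂μ ≤ ∫ x, (n ^ (max 0 (1 - P / 2)) * (2 * K)) *
      (∫ ω, |∑ k ∈ A, sg k ω * (a k * ψ k x)| ^ P ∂mu) ∂μ := by
    refine integral_mono i2 (iH.integral_prod_right.const_mul _) fun x => ?_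
    refine (sum_abs_rpow_le hP A _).trans ?_
    simp only [mul_assoc]
    refine mul_le_mul_of_nonneg_left ?_ (by positivity)
    simpa only [mul_assoc] using hS.khintchine hK.le hP0 A fun k => a k * ψ k x
  have h3 : ∫ ω, (∫ x, |∑ k ∈ A, sg k ω * (a k * ψ k x)| ^ P ∂μ) ∂mu ≤ B ^ P := by
    refine le_trans (integral_mono iH.integral_prod_left (integrable_const (B ^ P)) fun ω => ?_)
      (by simp)
    have e1 : ∫ x, |∑ k ∈ A, sg k ω * (a k * ψ k x)| ^ P ∂μ
        = ‖∑ k ∈ A, (sg k ω * a k) • ψ k‖ ^ P := by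
      rw [norm_rpow_eq hp]
      refine integral_congr_ae ?_
      filter_upwards [coeFn_sum_smul A (fun k => sg k ω * a k) ψ] with x hx
      rw [hx]
      simp only [mul_assoc, hPdef]
    simp only [Function.uncurry]
    rw [e1]
    refine Real.rpow_le_rpow (norm_nonneg _) (hB _ fun k => ?_) hP0.le
    unfold sg; split_ifs <;> simp
  rw [integral_const_mul, ← integral_integral_swap iH, ← h1] at h2
  have h4 := Real.rpow_sum_le_const_mul_sum_rpow A a hP.le
  have h5 : (∑ k ∈ A, |a k|) ^ P ≤ ((2 * K) ^ P⁻¹ * n ^ (max (1 - 1 / P) (1 / 2)) * B) ^ P := by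
    rw [Real.mul_rpow (by positivity) hB0, Real.mul_rpow (by positivity) (by positivity),
      Real.rpow_inv_rpow (by positivity) hP0.ne', ← Real.rpow_mul hn0]
    have e2 : max (1 - 1 / P) (1 / 2) * P = (P - 1) + max 0 (1 - P / 2) := by
      rw [max_mul_of_nonneg _ _ hP0.le, ← max_add_add_left]
      congr 1
      · field_simp; ring
      · ring
    rw [e2, Real.rpow_add' hn0 (by
      have := le_max_left 0 (1 - P / 2)
      linarith)]
    refine h4.trans ?_
    have h6 := h2.trans (mul_le_mul_of_nonneg_left h3 (by positivity))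
    have h7 := mul_le_mul_of_nonneg_left h6 (Real.rpow_nonneg hn0 (P - 1))
    linarith
  exact (Real.rpow_le_rpow_iff (sum_nonneg fun _ _ => abs_nonneg _) (by positivity) hP0).1 h5

end

/-- The exponent in the number of iterations. -/
lemma exponent_eq {P : ℝ} (hP : 1 < P) :
    max (1 - 1 / P) (1 / 2) * (min P 2 / (min P 2 - 1))
      = max (P / (P - 1) / 2) (2 / (P / (P - 1))) := by
  have h0 : 0 < P - 1 := by linarith
  have h1 : 0 < P := by linarith
  rcases le_total P 2 with h | h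
  · rw [min_eq_left h, max_eq_right, max_eq_left]
    · ring
    · rw [div_div_eq_mul_div, div_div, div_le_div_iff₀ h1 (by positivity)]
      nlinarith
    · rw [sub_le_iff_le_add, ← sub_le_iff_le_add', le_div_iff₀ h1]
      linarith
  · rw [min_eq_right h, max_eq_left, max_eq_right]
    · field_simp; ring
    · rw [div_div_eq_mul_div, div_div, div_le_div_iff₀ (by positivity) h1]
      nlinarith
    · rw [le_sub_comm, div_le_iff₀ h1]
      linarith

lemma one_le_exponent {x : ℝ} (hx : 0 < x) : 1 ≤ max (x / 2) (2 / x) := by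
  rcases le_total 2 x with h | h
  · exact le_max_of_le_left (by linarith)
  · exact le_max_of_le_right (by rw [le_div_iff₀ hx]; linarith)

theorem admissible_upper {p : ℝ≥0∞} [Fact (1 ≤ p)] (hp1 : 1 < p) (hp : p ≠ ∞) :
    Admissible p fun x =>
      x ^ (max (p.toReal / (p.toReal - 1) / 2) (2 / (p.toReal / (p.toReal - 1))) - 1) := by
  intro Ψ hn hU t ht _
  have hP := one_lt_toReal hp1 hp
  have hq : 1 < min p.toReal 2 := lt_min hP (by norm_num)
  obtain ⟨U, hU1, hU2⟩ := hU.exists_proj_le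
  obtain ⟨V, hV, hV2⟩ := sum_coeff_le (μ := unitMeas) hp1 hp
  obtain ⟨C, hC1, hC⟩ := smoothType_Lp (μ := unitMeas) hp1 hp
  obtain ⟨γ, hγ, hD⟩ := hC.descent hq hC1
  have H : UpperHyp Ψ U (V * (2 * U)) (max (1 - 1 / p.toReal) (1 / 2)) γ
      (min p.toReal 2 / (min p.toReal 2 - 1)) :=
    { norm_le := fun i => (hn i).le
      U_ge := hU1
      V_pos := by positivity
      r_nonneg := le_max_of_le_right (by norm_num)
      γ_pos := hγ
      s_pos := div_pos (by linarith) (by linarith)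
      rs_ge := by
        rw [exponent_eq hP]
        exact one_le_exponent (div_pos (by linarith) (by linarith))
      proj_le := hU2
      sum_le := fun A x => by
        have := hV2 Ψ hn A (fun k => Ψ.coord k x) (2 * U * ‖x‖) fun θ hθ => by
          rw [← sum_filter_add_sum_filter_not A (fun k => θ k = 1)]
          have e1 : ∑ k ∈ A with θ k = 1, (θ k * Ψ.coord k x) • Ψ k
              = GeneralSchauderBasis.proj Ψ (A.filter fun k => θ k = 1) x := by
            rw [GeneralSchauderBasis.proj_apply]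
            exact sum_congr rfl fun k hk => by rw [(mem_filter.1 hk).2, one_mul]
          have e2 : ∑ k ∈ A with ¬θ k = 1, (θ k * Ψ.coord k x) • Ψ k
              = -GeneralSchauderBasis.proj Ψ (A.filter fun k => ¬θ k = 1) x := by
            rw [GeneralSchauderBasis.proj_apply, ← sum_neg_distrib]
            exact sum_congr rfl fun k hk => by
              rw [(hθ k).resolve_left (mem_filter.1 hk).2, neg_one_mul, neg_smul]
          rw [e1, e2]
          refine (norm_add_le _ _).trans ?_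
          rw [norm_neg]
          linarith [hU2 (A.filter fun k => θ k = 1) x, hU2 (A.filter fun k => ¬θ k = 1) x]
        linarith
      descent := hD }
  have := H.isGreedy ht
  rwa [exponent_eq hP] at this

end Pool.Agent.MP_30195a_an

end MrgPart3

-- ======== part 4: formerly Pool.Agent.MP_30195a_an.LpBasis
section MrgPart4

/-!
# The extremal unconditional basis of `L_p[0,1]`
-/

set_option autoImplicit false

open MeasureTheory Finset
open scoped ENNReal

namespace Pool.Agent.MP_30195a_an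

/-- The rotated system as continuous maps. -/
noncomputable def wC (i : Node × ℕ) : C(Om, ℝ) := ⟨wS i, continuous_wS i⟩

/-- The orthogonal system as continuous maps. -/
noncomputable def uC (i : Node × ℕ) : C(Om, ℝ) := ⟨uS i, continuous_uS i⟩

@[simp] lemma wC_apply (i : Node × ℕ) (ω : Om) : wC i ω = wS i ω := rfl

@[simp] lemma uC_apply (i : Node × ℕ) (ω : Om) : uC i ω = uS i ω := rfl

lemma le_of_rpow_le {x y K P : ℝ} (hx : 0 ≤ x) (hy : 0 ≤ y) (hK : 0 ≤ K) (hP : 0 < P)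
    (h : x ^ P ≤ K * y ^ P) : x ≤ K ^ P⁻¹ * y := by
  rw [← Real.rpow_le_rpow_iff hx (by positivity) hP, Real.mul_rpow (by positivity) hy,
    Real.rpow_inv_rpow hK hP.ne']
  exact h

variable {p : ℝ≥0∞} [Fact (1 ≤ p)]

lemma norm_Jm_rpow (hp : p ≠ ∞) (u : C(Om, ℝ)) :
    ‖Jm p u‖ ^ p.toReal = ∫ ω, |u ω| ^ p.toReal ∂mu := by
  rw [norm_rpow_eq hp, ← integral_dig (continuous_abs_rpow u.continuous ENNReal.toReal_nonneg)]
  refine integral_congr_ae ?_
  filter_upwards [Jm_coe p u] with x hx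
  rw [hx]

lemma norming_Jm (hp1 : 1 < p) (hp : p ≠ ∞) {u : C(Om, ℝ)} (hu : Jm p u ≠ 0)
    {F : StrongDual ℝ (Lp ℝ p unitMeas)} (hF : IsNorming F (Jm p u)) (v : C(Om, ℝ)) :
    ‖Jm p u‖ ^ (p.toReal - 1) * F (Jm p v) = ∫ ω, gp p.toReal (u ω) * v ω ∂mu := by
  rw [norming_formula hp1 hp hu hF, ← integral_dig
    (((continuous_gp (one_lt_toReal hp1 hp)).comp' u.continuous).fun_mul v.continuous)]
  refine integral_congr_ae ?_
  filter_upwards [Jm_coe p u, Jm_coe p v] with x hx hy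
  rw [hx, hy]

variable (p) in
/-- The normalized basis. -/
noncomputable def psi (i : Node × ℕ) : Lp ℝ p unitMeas := ‖Jm p (wC i)‖⁻¹ • Jm p (wC i)

lemma norm_wC_pos (hp1 : 1 < p) (hp : p ≠ ∞) (i : Node × ℕ) : 0 < ‖Jm p (wC i)‖ := by
  have hP := one_lt_toReal hp1 hp
  obtain ⟨K, hK, hS⟩ := exists_subEst hP
  have h1 := hS.nu_le (by linarith) i
  have h2 := norm_Jm_rpow hp (wC i)
  simp only [wC_apply] at h2
  rw [← h2] at h1
  refine (norm_nonneg _).lt_of_ne fun h => ?_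
  rw [← h, Real.zero_rpow (by linarith), mul_zero] at h1
  exact absurd (nu_pos i.1) (not_lt.2 h1)

lemma norm_psi (hp1 : 1 < p) (hp : p ≠ ∞) (i : Node × ℕ) : ‖psi p i‖ = 1 := by
  rw [psi, norm_smul, norm_inv, norm_norm, inv_mul_cancel₀ (norm_wC_pos hp1 hp i).ne']

lemma Jm_wC (hp1 : 1 < p) (hp : p ≠ ∞) (i : Node × ℕ) :
    Jm p (wC i) = ‖Jm p (wC i)‖ • psi p i := by
  rw [psi, smul_smul, mul_inv_cancel₀ (norm_wC_pos hp1 hp i).ne', one_smul]

lemma norm_sum_psi_rpow (hp : p ≠ ∞) {κ : Type*} (S : Finset κ) (c : κ → ℝ) (j : κ → Node × ℕ) :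
    ‖∑ i ∈ S, c i • psi p (j i)‖ ^ p.toReal
      = ∫ ω, |∑ i ∈ S, c i * ‖Jm p (wC (j i))‖⁻¹ * wS (j i) ω| ^ p.toReal ∂mu := by
  have : ∑ i ∈ S, c i • psi p (j i) = Jm p (∑ i ∈ S, (c i * ‖Jm p (wC (j i))‖⁻¹) • wC (j i)) := by
    simp only [psi, map_sum, map_smul, smul_smul]
  rw [this, norm_Jm_rpow hp]
  simp [ContinuousMap.sum_apply]

lemma SubEst.multBound (hp1 : 1 < p) (hp : p ≠ ∞) {K : ℝ} (hK : 0 < K)
    (hS : SubEst p.toReal K) : MultBound (psi p) (K ^ p.toReal⁻¹) := by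
  intro S a θ hθ
  have hP := one_lt_toReal hp1 hp
  refine le_of_rpow_le (norm_nonneg _) (norm_nonneg _) hK.le (by linarith) ?_
  rw [norm_sum_psi_rpow hp S _ fun i => i, norm_sum_psi_rpow hp S _ fun i => i]
  simpa only [mul_assoc] using hS.mult S (fun i => a i * ‖Jm p (wC i)‖⁻¹) θ hθ

/-- The algebra of cylinder functions. -/
def cylAlg : Subalgebra ℝ C(Om, ℝ) where
  carrier := {u | ∃ n, IsCyl (n + 1) u}
  mul_mem' := by
    rintro u v ⟨n, hn⟩ ⟨m, hm⟩
    refine ⟨max n m, fun ω ω' h => ?_⟩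
    simp only [ContinuousMap.mul_apply]
    rw [hn.mono (Nat.succ_le_succ (le_max_left n m)) ω ω' h,
      hm.mono (Nat.succ_le_succ (le_max_right n m)) ω ω' h]
  add_mem' := by
    rintro u v ⟨n, hn⟩ ⟨m, hm⟩
    refine ⟨max n m, fun ω ω' h => ?_⟩
    simp only [ContinuousMap.add_apply]
    rw [hn.mono (Nat.succ_le_succ (le_max_left n m)) ω ω' h,
      hm.mono (Nat.succ_le_succ (le_max_right n m)) ω ω' h]
  algebraMap_mem' := fun r => ⟨0, fun ω ω' _ => rfl⟩

lemma dense_cylAlg : Dense (cylAlg : Set C(Om, ℝ)) := by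
  have h : cylAlg.SeparatesPoints := by
    intro ω ω' hne
    obtain ⟨k, hk⟩ := Function.ne_iff.1 hne
    refine ⟨sg k, ⟨⟨sg k, continuous_sg k⟩, ⟨k, fun a b hab => sg_congr (hab k k.lt_succ_self)⟩,
      rfl⟩, ?_⟩
    unfold sg
    generalize ω k = a at hk
    generalize ω' k = b at hk
    fin_cases a <;> fin_cases b <;> simp at hk ⊢ <;> norm_num
  have h2 := ContinuousMap.subalgebra_topologicalClosure_eq_top_of_separatesPoints _ h
  rw [dense_iff_closure_eq, ← Subalgebra.topologicalClosure_coe, h2]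
  rfl

lemma dense_span_psi (hp1 : 1 < p) (hp : p ≠ ∞) :
    Dense (Submodule.span ℝ (Set.range (psi p)) : Set (Lp ℝ p unitMeas)) := by
  have h1 : ∀ i, Jm p (wC i) ∈ Submodule.span ℝ (Set.range (psi p)) := fun i => by
    rw [Jm_wC hp1 hp]
    exact Submodule.smul_mem _ _ (Submodule.subset_span ⟨i, rfl⟩)
  have h2 : ∀ i, Jm p (uC i) ∈ Submodule.span ℝ (Set.range (psi p)) := fun i => by
    have : uC i = wC i - yN i.1 i.2 • ∑ e ∈ range (kN i.1), yN i.1 e • wC (i.1, e) := by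
      ext ω
      simpa [ContinuousMap.sum_apply] using uS_eq_wS i.1 i.2 ω
    rw [this, map_sub, map_smul, map_sum]
    refine Submodule.sub_mem _ (h1 i) (Submodule.smul_mem _ _ (Submodule.sum_mem _ fun e _ => ?_))
    rw [map_smul]
    exact Submodule.smul_mem _ _ (h1 _)
  refine ((Jm_denseRange p hp).dense_image (Jm p).continuous dense_cylAlg).mono ?_
  rintro _ ⟨u, ⟨n, hn⟩, rfl⟩
  obtain ⟨m, D, c, _, _, hc⟩ := hn.exists_rect 0 0
  have : u = ∑ i ∈ nodes m ×ˢ range D, c i • uC i := by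
    ext ω
    simpa [ContinuousMap.sum_apply] using hc ω
  rw [this, map_sum]
  refine Submodule.sum_mem _ fun i _ => ?_
  rw [map_smul]
  exact Submodule.smul_mem _ _ (h2 i)

/-- Indices supported in the second half. -/
def secondHalf : Set (Node × ℕ) := {i | half i.1 = 1}

lemma exists_rep {y : Lp ℝ p unitMeas} (hy : y ∈ Submodule.span ℝ (psi p '' secondHalf)) :
    ∃ v : C(Om, ℝ), y = Jm p v ∧ ∀ ω : Om, ω 0 = 0 → v ω = 0 := by
  induction hy using Submodule.span_induction with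
  | mem x hx =>
    obtain ⟨i, hi, rfl⟩ := hx
    refine ⟨‖Jm p (wC i)‖⁻¹ • wC i, by rw [map_smul, psi], fun ω hω => ?_⟩
    have : half i.1 = 1 := hi
    simp [wS_eq_zero (vN_eq_zero (ν := i.1) (ω := ω) (by rw [hω, this]; decide))]
  | zero => exact ⟨0, by simp, by simp⟩
  | add x y _ _ hx hy =>
    obtain ⟨v, rfl, hv⟩ := hx
    obtain ⟨w, rfl, hw⟩ := hy
    exact ⟨v + w, by simp, fun ω hω => by simp [hv ω hω, hw ω hω]⟩
  | smul a x _ hx =>
    obtain ⟨v, rfl, hv⟩ := hx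
    exact ⟨a • v, by simp, fun ω hω => by simp [hv ω hω]⟩

lemma sparseData_of (hp1 : 1 < p) (hp : p ≠ ∞) {a : C(Om, ℝ)} {θ : ℝ} {N : ℕ}
    (h0 : ∀ ω : Om, ω 0 ≠ 0 → a ω = 0) (hg : ∀ ω, gp p.toReal (a ω) = a ω) (hne : Jm p a ≠ 0)
    (hsp : ∃ (g : Fin N → Lp ℝ p unitMeas) (c : Fin N → ℝ),
      (∀ i, g i ∈ Set.range (psi p)) ∧ Jm p a = ∑ i, c i • g i)
    (hb : ∀ i, |∫ ω, a ω * wS i ω ∂mu| ≤ θ * ‖Jm p a‖ ^ (p.toReal - 1) * ‖Jm p (wC i)‖) :
    SparseData (psi p) secondHalf p.toReal θ N (Jm p a) := by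
  have hP := one_lt_toReal hp1 hp
  have hle : ∀ y ∈ Submodule.span ℝ (psi p '' secondHalf), ‖Jm p a‖ ≤ ‖Jm p a + y‖ := by
    intro y hy
    obtain ⟨v, rfl, hv⟩ := exists_rep hy
    rw [← Real.rpow_le_rpow_iff (norm_nonneg _) (norm_nonneg _) (by linarith : 0 < p.toReal),
      ← map_add, norm_Jm_rpow hp, norm_Jm_rpow hp]
    refine integral_mono (integ (continuous_abs_rpow a.continuous (by linarith)))
      (integ (continuous_abs_rpow (a + v).continuous (by linarith))) fun ω => ?_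
    by_cases h : ω 0 = 0
    · simp [hv ω h]
    · simp only [h0 ω h, abs_zero, Real.zero_rpow (by linarith : p.toReal ≠ 0)]
      positivity
  have hnz : ∀ y ∈ Submodule.span ℝ (psi p '' secondHalf), Jm p a + y ≠ 0 := fun y hy =>
    norm_pos_iff.1 ((norm_pos_iff.2 hne).trans_le (hle y hy))
  refine ⟨hne, hsp, hle, fun y hy F hF => ?_, fun y hy F hF i hi => ?_⟩
  · have h1 := hnz y hy
    obtain ⟨v, rfl, hv⟩ := exists_rep hy
    rw [← map_add] at h1 hF ⊢
    rw [norming_Jm hp1 hp h1 hF, norm_Jm_rpow hp]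
    congr 1
    funext ω
    by_cases h : ω 0 = 0
    · simp [hv ω h, Real.zero_rpow (by linarith : p.toReal ≠ 0)]
    · simp [h0 ω h, gp_mul_self hP]
  · have h1 := hnz y hy
    obtain ⟨v, rfl, hv⟩ := exists_rep hy
    rw [← map_add] at h1 hF ⊢
    have h2 := norming_Jm hp1 hp h1 hF (wC i)
    have h3 : ∫ ω, gp p.toReal ((a + v) ω) * wC i ω ∂mu = ∫ ω, a ω * wS i ω ∂mu := by
      congr 1
      funext ω
      by_cases h : ω 0 = 0
      · simp [hv ω h, hg]
      · have : ω 0 ≠ half i.1 := by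
          have h4 : half i.1 ≠ 1 := hi
          revert h h4
          generalize ω 0 = x
          generalize half i.1 = z
          revert x z; decide
        simp [wS_eq_zero (vN_eq_zero this)]
    have h4 := hb i
    have h5 := norm_wC_pos hp1 hp i
    rw [← h3, ← h2, abs_mul, abs_of_nonneg (by positivity)] at h4
    rw [psi, map_smul, smul_eq_mul, abs_mul, abs_inv, abs_norm, mul_left_comm,
      inv_mul_le_iff₀' h5]
    exact h4

end Pool.Agent.MP_30195a_an

end MrgPart4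

-- ======== part 5: formerly Pool.Agent.MP_30195a_an.LpLower
section MrgPart5

/-!
# The lower bound in `L_p[0,1]`
-/

set_option autoImplicit false

open MeasureTheory Finset
open scoped ENNReal

namespace Pool.Agent.MP_30195a_an

lemma map_sum_of_pairwise {κ : Type*} (Λ : Finset κ) (x : κ → ℝ) (φ : ℝ → ℝ) (hφ : φ 0 = 0)
    (h : ∀ i ∈ Λ, ∀ j ∈ Λ, i ≠ j → x i = 0 ∨ x j = 0) : φ (∑ i ∈ Λ, x i) = ∑ i ∈ Λ, φ (x i) := by
  by_cases h0 : ∀ i ∈ Λ, x i = 0
  · rw [sum_eq_zero h0, hφ, sum_eq_zero fun i hi => by rw [h0 i hi, hφ]]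
  · push Not at h0
    obtain ⟨i, hi, hx⟩ := h0
    have h1 : ∀ j ∈ Λ, j ≠ i → x j = 0 := fun j hj hji => (h j hj i hi hji).resolve_right hx
    rw [sum_eq_single_of_mem i hi h1,
      sum_eq_single_of_mem i hi fun j hj hji => by rw [h1 j hj hji, hφ]]

/-- A family of `N` indices with disjoint supports in the half `c`. -/
def disjFam (c : Fin 2) (N : ℕ) : Fin N ↪ Node × ℕ where
  toFun j := (Sum.inr ⟨N, Fin.cons c (Pi.single j 1)⟩, N + 2)
  inj' := by
    intro j k h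
    simp only [Prod.mk.injEq, Sum.inr.injEq, Sigma.mk.injEq, heq_eq_eq, true_and, and_true,
      Fin.cons_inj] at h
    by_contra hne
    have := congr_fun h j
    simp [hne] at this

lemma disjFam_apply (c : Fin 2) (N : ℕ) (j : Fin N) :
    disjFam c N j = (Sum.inr ⟨N, Fin.cons c (Pi.single j 1)⟩, N + 2) := rfl

lemma half_disjFam (c : Fin 2) (N : ℕ) (j : Fin N) : half (disjFam c N j).1 = c := rfl

lemma vN_disjFam (c : Fin 2) (N : ℕ) {j k : Fin N} (h : j ≠ k) (ω : Om) :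
    vN (disjFam c N j).1 ω = 0 ∨ vN (disjFam c N k).1 ω = 0 := by
  by_contra hcon
  push Not at hcon
  simp only [disjFam_apply, vN, cyl, ne_eq, mul_ite, mul_one, mul_zero, ite_eq_right_iff,
    Classical.not_imp] at hcon
  refine h ((disjFam c N).injective ?_)
  rw [disjFam_apply, disjFam_apply, ← hcon.1.1, ← hcon.2.1]

lemma gp_uS (P : ℝ) (i : Node × ℕ) (ω : Om) : gp P (uS i ω) = uS i ω := by
  unfold gp
  rw [abs_uS]
  rcases abs_vN i.1 ω with h | h
  · simp [uS, abs_eq_zero.1 h]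
  · rw [h, Real.one_rpow, one_mul]

variable {p : ℝ≥0∞} [Fact (1 ≤ p)]

lemma norm_uC_rpow (hp1 : 1 < p) (hp : p ≠ ∞) (i : Node × ℕ) :
    ‖Jm p (uC i)‖ ^ p.toReal = nu i.1 := by
  have hP := one_lt_toReal hp1 hp
  rw [norm_Jm_rpow hp]
  exact integral_abs_uS_rpow (by linarith) i

lemma wC_eq_uC {ν : Node} {d : ℕ} (h : kN ν ≤ d) : wC (ν, d) = uC (ν, d) := by
  ext ω; exact wS_eq_uS h ω

lemma sparse_small (hp1 : 1 < p) (hp : p ≠ ∞) {K : ℝ} (hK : 0 < K) (hS : SubEst p.toReal K)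
    (N : ℕ) (hN : 1 ≤ N) :
    ∃ A, SparseData (psi p) secondHalf p.toReal (K ^ p.toReal⁻¹ * (N : ℝ) ^ (-(1 / 2 : ℝ))) N A := by
  have hP := one_lt_toReal hp1 hp
  obtain ⟨n, rfl⟩ := Nat.exists_eq_add_of_le' hN
  set ν : Node := Sum.inr ⟨n, fun _ => 0⟩ with hν
  have hnorm := norm_uC_rpow hp1 hp (ν, 0)
  have hpos : 0 < ‖Jm p (uC (ν, 0))‖ := by
    refine (norm_nonneg _).lt_of_ne fun h => ?_
    rw [← h, Real.zero_rpow (by linarith)] at hnorm
    exact (nu_pos _).ne hnorm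
  refine ⟨_, sparseData_of hp1 hp (a := uC (ν, 0)) (fun ω hω => ?_) (fun ω => gp_uS _ _ ω)
    (norm_pos_iff.1 hpos) ?_ fun i => ?_⟩
  · simp [uS, vN_eq_zero (ν := ν) hω]
  · refine ⟨fun e => psi p (ν, e + 1),
      fun e => -(√((n + 1 : ℕ) : ℝ))⁻¹ * ‖Jm p (wC (ν, e + 1))‖, fun e => ⟨_, rfl⟩, ?_⟩
    have : uC (ν, 0) = ∑ e : Fin (n + 1), -(√((n + 1 : ℕ) : ℝ))⁻¹ • wC (ν, e + 1) := by
      ext ω
      rw [uC_apply, hν, uS_zero_eq, ← Fin.sum_univ_eq_sum_range
        (fun e => -(√((n + 1 : ℕ) : ℝ))⁻¹ * wS (Sum.inr ⟨n, fun _ => 0⟩, e + 1) ω)]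
      simp [ContinuousMap.sum_apply]
    rw [this, map_sum]
    refine sum_congr rfl fun e _ => ?_
    rw [map_smul, mul_smul, ← Jm_wC hp1 hp]
  · simp only [uC_apply, integral_uS_wS]
    split_ifs with h1 h2
    · have : yN ν 0 * yN ν i.2 = 1 := by rw [← h2]; simp [hν, yN]
      rw [this, sub_self, mul_zero, abs_zero]
      positivity
    · have e1 : |0 - yN ν 0 * yN ν i.2| ≤ ((n + 1 : ℕ) : ℝ) ^ (-(1 / 2 : ℝ)) := by
        rw [Real.rpow_neg (by positivity), ← Real.sqrt_eq_rpow]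
        simp only [hν, yN, if_true, one_mul, zero_sub, abs_neg, if_neg (Ne.symm h2)]
        split_ifs
        · exact (abs_of_nonneg (by positivity)).le
        · rw [abs_zero]; positivity
      have e2 : ‖Jm p (uC (ν, 0))‖ ≤ K ^ p.toReal⁻¹ * ‖Jm p (wC i)‖ := by
        refine le_of_rpow_le (norm_nonneg _) (norm_nonneg _) hK.le (by linarith) ?_
        rw [hnorm, norm_Jm_rpow hp, h1]
        exact hS.nu_le (by linarith) i
      have e3 : nu ν = ‖Jm p (uC (ν, 0))‖ ^ (p.toReal - 1) * ‖Jm p (uC (ν, 0))‖ := by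
        rw [← Real.rpow_add_one hpos.ne', sub_add_cancel, hnorm]
      rw [abs_mul, abs_of_pos (nu_pos ν), e3]
      calc _ ≤ ‖Jm p (uC (ν, 0))‖ ^ (p.toReal - 1) * (K ^ p.toReal⁻¹ * ‖Jm p (wC i)‖)
            * ((n + 1 : ℕ) : ℝ) ^ (-(1 / 2 : ℝ)) := by gcongr
        _ = _ := by ring
    · rw [abs_zero]; positivity

lemma sparse_large (hp1 : 1 < p) (hp : p ≠ ∞) (N : ℕ) (hN : 1 ≤ N) :
    ∃ A, SparseData (psi p) secondHalf p.toReal (1 * (N : ℝ) ^ (-(1 - 1 / p.toReal))) N A := by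
  have hP := one_lt_toReal hp1 hp
  have hP0 : 0 < p.toReal := by linarith
  have hN0 : (0 : ℝ) < N := by exact_mod_cast hN
  have hpw : ∀ ω, ∀ j ∈ (univ : Finset (Fin N)), ∀ k ∈ (univ : Finset (Fin N)), j ≠ k →
      uS (disjFam 0 N j) ω = 0 ∨ uS (disjFam 0 N k) ω = 0 := fun ω j _ k _ h =>
    (vN_disjFam 0 N h ω).imp (fun h => by simp [uS, h]) (fun h => by simp [uS, h])
  set z : ℝ := (1 / 2 : ℝ) ^ (N + 1) with hz
  have hz0 : 0 < z := by positivity
  have hnu : ∀ j, nu (disjFam 0 N j).1 = z := fun j => rfl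
  have hnorm : ‖Jm p (∑ j, uC (disjFam 0 N j))‖ ^ p.toReal = N * z := by
    rw [norm_Jm_rpow hp]
    simp only [ContinuousMap.sum_apply, uC_apply]
    have : ∀ ω, |∑ j, uS (disjFam 0 N j) ω| ^ p.toReal = ∑ j, |uS (disjFam 0 N j) ω| ^ p.toReal :=
      fun ω => map_sum_of_pairwise univ _ (fun x => |x| ^ p.toReal)
        (by simp [Real.zero_rpow hP0.ne']) (hpw ω)
    simp only [this]
    rw [integral_finsetSum _ fun j _ => integ (continuous_abs_rpow (continuous_uS _) hP0.le)]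
    simp [integral_abs_uS_rpow hP0, hnu]
  have hpos : 0 < ‖Jm p (∑ j, uC (disjFam 0 N j))‖ := by
    refine (norm_nonneg _).lt_of_ne fun h => ?_
    rw [← h, Real.zero_rpow hP0.ne'] at hnorm
    exact (mul_pos hN0 hz0).ne hnorm
  have hwu : ∀ j, wC (disjFam 0 N j) = uC (disjFam 0 N j) := fun j => wC_eq_uC le_rfl
  refine ⟨_, sparseData_of hp1 hp (a := ∑ j, uC (disjFam 0 N j)) (fun ω hω => ?_) (fun ω => ?_)
    (norm_pos_iff.1 hpos) ?_ fun i => ?_⟩
  · simp only [ContinuousMap.sum_apply, uC_apply]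
    exact sum_eq_zero fun j _ => by simp [uS, vN_eq_zero (ν := (disjFam 0 N j).1) hω]
  · simp only [ContinuousMap.sum_apply, uC_apply]
    rw [map_sum_of_pairwise univ _ (gp p.toReal) (gp_zero _) (hpw ω)]
    simp only [gp_uS]
  · refine ⟨fun j => psi p (disjFam 0 N j), fun j => ‖Jm p (wC (disjFam 0 N j))‖,
      fun j => ⟨_, rfl⟩, ?_⟩
    rw [map_sum]
    exact sum_congr rfl fun j _ => by rw [← Jm_wC hp1 hp, hwu]
  · simp only [ContinuousMap.sum_apply, uC_apply, sum_mul]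
    rw [integral_finsetSum _ fun j _ => integ ((continuous_uS _).fun_mul (continuous_wS _))]
    have e1 : ∀ j, ∫ ω, uS (disjFam 0 N j) ω * wS i ω ∂mu
        = if disjFam 0 N j = i then z else 0 := fun j => by
      rw [integral_uS_wS, yN_eq_zero (ν := (disjFam 0 N j).1) (d := (disjFam 0 N j).2) le_rfl, hnu]
      simp only [Prod.ext_iff]
      split_ifs <;> simp_all
    simp only [e1]
    by_cases h : ∃ j, disjFam 0 N j = i
    · obtain ⟨j, rfl⟩ := h
      simp only [(disjFam 0 N).injective.eq_iff, sum_ite_eq', mem_univ, if_true]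
      rw [abs_of_pos hz0, hwu]
      have e2 : ‖Jm p (uC (disjFam 0 N j))‖ = z ^ p.toReal⁻¹ := by
        rw [← hnu j, ← norm_uC_rpow hp1 hp, Real.rpow_rpow_inv (norm_nonneg _) hP0.ne']
      have e3 : ‖Jm p (∑ j, uC (disjFam 0 N j))‖ = (N * z) ^ p.toReal⁻¹ := by
        rw [← hnorm, Real.rpow_rpow_inv (norm_nonneg _) hP0.ne']
      rw [e2, e3, ← Real.rpow_mul (by positivity), Real.mul_rpow hN0.le hz0.le, one_mul,
        ← mul_assoc, ← Real.rpow_add hN0, mul_assoc, ← Real.rpow_add hz0]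
      have e4 : -(1 - 1 / p.toReal) + p.toReal⁻¹ * (p.toReal - 1) = 0 := by field_simp; ring
      have e5 : p.toReal⁻¹ * (p.toReal - 1) + p.toReal⁻¹ = 1 := by field_simp; ring
      rw [e4, e5, Real.rpow_zero, Real.rpow_one, one_mul]
    · push Not at h
      simp only [h, if_false, sum_const_zero, abs_zero]
      positivity

lemma block_small (hp1 : 1 < p) (hp : p ≠ ∞) (M : ℕ) :
    ∃ Γ : Finset (Node × ℕ), (Γ : Set (Node × ℕ)) ⊆ secondHalf ∧ Γ.card = 2 * M ∧
      ‖∑ i ∈ Γ, psi p i‖ ≤ 2 * (M : ℝ) ^ p.toReal⁻¹ ∧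
      ∀ Λ ⊆ Γ, M ≤ Λ.card → 1 * (M : ℝ) ^ p.toReal⁻¹ ≤ ‖∑ i ∈ Λ, psi p i‖ := by
  have hP := one_lt_toReal hp1 hp
  have hP0 : 0 < p.toReal := by linarith
  have key : ∀ Λ ⊆ univ.map (disjFam 1 (2 * M)),
      ‖∑ i ∈ Λ, psi p i‖ = (Λ.card : ℝ) ^ p.toReal⁻¹ := by
    intro Λ hΛ
    have h1 := norm_sum_psi_rpow hp Λ (fun _ => 1) fun i => i
    have h2 : ∀ ω, |∑ i ∈ Λ, 1 * ‖Jm p (wC i)‖⁻¹ * wS i ω| ^ p.toReal
        = ∑ i ∈ Λ, |1 * ‖Jm p (wC i)‖⁻¹ * wS i ω| ^ p.toReal := fun ω =>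
      map_sum_of_pairwise Λ _ (fun x => |x| ^ p.toReal) (by simp [Real.zero_rpow hP0.ne'])
        fun i hi j hj hij => by
          obtain ⟨a, _, rfl⟩ := mem_map.1 (hΛ hi)
          obtain ⟨b, _, rfl⟩ := mem_map.1 (hΛ hj)
          exact (vN_disjFam 1 _ (fun h : a = b => hij (by rw [h])) ω).imp
            (fun h => by simp [wS_eq_zero h]) (fun h => by simp [wS_eq_zero h])
    have h3 : ∀ i, ∫ ω, |1 * ‖Jm p (wC i)‖⁻¹ * wS i ω| ^ p.toReal ∂mu = 1 := fun i => by
      have := norm_sum_psi_rpow hp {i} (fun _ => 1) fun i => i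
      simp only [sum_singleton, one_smul, norm_psi hp1 hp, Real.one_rpow] at this
      exact this.symm
    simp only [h2, one_smul] at h1
    rw [integral_finsetSum _ fun j _ => integ (continuous_abs_rpow
      (continuous_const.fun_mul (continuous_wS _)) hP0.le)] at h1
    simp only [h3, sum_const, nsmul_eq_mul, mul_one] at h1
    rw [← h1, Real.rpow_rpow_inv (norm_nonneg _) hP0.ne']
  refine ⟨univ.map (disjFam 1 (2 * M)), ?_, by simp, ?_, fun Λ hΛ hc => ?_⟩
  · intro i hi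
    obtain ⟨a, _, rfl⟩ := mem_map.1 hi
    exact half_disjFam _ _ _
  · rw [key _ subset_rfl, card_map, card_univ, Fintype.card_fin]
    push_cast
    rw [Real.mul_rpow (by norm_num) (Nat.cast_nonneg _)]
    refine mul_le_mul_of_nonneg_right ?_ (by positivity)
    have := Real.rpow_le_rpow_of_exponent_le (by norm_num : (1 : ℝ) ≤ 2)
      (inv_le_one_of_one_le₀ hP.le)
    simpa using this
  · rw [key Λ hΛ, one_mul]
    exact Real.rpow_le_rpow (Nat.cast_nonneg _) (by exact_mod_cast hc) (by positivity)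

lemma root_psi (hp1 : 1 < p) (hp : p ≠ ∞) {K : ℝ} (hK : 0 < K) (hS : SubEst p.toReal K)
    (c : Fin 2) (Λ Λ' : Finset ℕ) (a a' : ℕ → ℝ) (ha : ∑ d ∈ Λ', a' d ^ 2 ≤ ∑ d ∈ Λ, a d ^ 2) :
    ‖∑ d ∈ Λ', a' d • psi p (Sum.inl c, d)‖
      ≤ K ^ p.toReal⁻¹ * ‖∑ d ∈ Λ, a d • psi p (Sum.inl c, d)‖ := by
  have hP := one_lt_toReal hp1 hp
  have hP0 : 0 < p.toReal := by linarith
  have e : ∀ d, ‖Jm p (wC (Sum.inl c, d))‖ = (1 / 2 : ℝ) ^ p.toReal⁻¹ := fun d => by
    have := norm_uC_rpow hp1 hp (Sum.inl c, d)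
    simp only [nu] at this
    rw [wC_eq_uC (Nat.zero_le d), ← this, Real.rpow_rpow_inv (norm_nonneg _) hP0.ne']
  refine le_of_rpow_le (norm_nonneg _) (norm_nonneg _) hK.le hP0 ?_
  rw [norm_sum_psi_rpow hp Λ' a' fun d => (Sum.inl c, d),
    norm_sum_psi_rpow hp Λ a fun d => (Sum.inl c, d)]
  simp only [e]
  refine hS.node _ Λ Λ' _ _ ?_
  simp only [mul_pow, ← sum_mul]
  exact mul_le_mul_of_nonneg_right ha (sq_nonneg _)

lemma block_large (hp1 : 1 < p) (hp : p ≠ ∞) {K : ℝ} (hK : 0 < K) (hS : SubEst p.toReal K)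
    (M : ℕ) :
    ∃ Γ : Finset (Node × ℕ), (Γ : Set (Node × ℕ)) ⊆ secondHalf ∧ Γ.card = 2 * M ∧
      ‖∑ i ∈ Γ, psi p i‖ ≤ (2 * K ^ p.toReal⁻¹) * (M : ℝ) ^ (1 / 2 : ℝ) ∧
      ∀ Λ ⊆ Γ, M ≤ Λ.card → (K ^ p.toReal⁻¹)⁻¹ * (M : ℝ) ^ (1 / 2 : ℝ) ≤ ‖∑ i ∈ Λ, psi p i‖ := by
  let emb : ℕ ↪ Node × ℕ := ⟨fun d => (Sum.inl 1, d), fun a b h => (Prod.ext_iff.1 h).2⟩
  have hK' : 0 < K ^ p.toReal⁻¹ := by positivity
  have hsq : ∀ n : ℕ, ‖∑ d ∈ ({0} : Finset ℕ), √(n : ℝ) • psi p (Sum.inl 1, d)‖ = √(n : ℝ) :=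
    fun n => by
      rw [sum_singleton, norm_smul, norm_psi hp1 hp, mul_one, Real.norm_of_nonneg (by positivity)]
  refine ⟨(range (2 * M)).map emb, ?_, by simp, ?_, fun Λ hΛ hc => ?_⟩
  · intro i hi
    obtain ⟨a, _, rfl⟩ := mem_map.1 hi
    rfl
  · have := root_psi hp1 hp hK hS 1 {0} (range (2 * M)) (fun _ => √((2 * M : ℕ) : ℝ)) (fun _ => 1)
      (by rw [sum_singleton, Real.sq_sqrt (Nat.cast_nonneg _)]; simp)
    rw [hsq] at this
    simp only [one_smul] at this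
    rw [sum_map]
    refine this.trans ?_
    rw [← Real.sqrt_eq_rpow, mul_comm 2 (K ^ p.toReal⁻¹), mul_assoc]
    refine mul_le_mul_of_nonneg_left ?_ hK'.le
    rw [Real.sqrt_le_iff, mul_pow, Real.sq_sqrt (Nat.cast_nonneg _)]
    push_cast
    exact ⟨by positivity, by nlinarith [Nat.cast_nonneg (α := ℝ) M]⟩
  · obtain ⟨L, _, rfl⟩ := subset_map_iff.1 hΛ
    rw [card_map] at hc
    have := root_psi hp1 hp hK hS 1 L {0} (fun _ => 1) (fun _ => √((M : ℕ) : ℝ))
      (by simpa [Real.sq_sqrt] using hc)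
    rw [hsq] at this
    simp only [one_smul] at this
    rw [sum_map, ← Real.sqrt_eq_rpow, inv_mul_le_iff₀ hK']
    exact this

/-- The lower bound for the extremal system, for every weakness parameter. -/
theorem lower_psi (hp1 : 1 < p) (hp : p ≠ ∞) {t : ℝ} (ht : 0 ≤ t) (ht1 : t ≤ 1) {Φ : ℝ → ℝ}
    (hΦ : ∀ N : ℕ, 1 ≤ N → 1 ≤ Φ N) (hG : IsGreedy (Set.range (psi p)) t Φ) :
    ∃ κ : ℝ, 0 < κ ∧ ∀ N : ℕ, 1 ≤ N → κ * (N : ℝ) ^
      (max (p.toReal / (p.toReal - 1) / 2) (2 / (p.toReal / (p.toReal - 1))) - 1) ≤ Φ N := by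
  have hP := one_lt_toReal hp1 hp
  have h0 : 0 < p.toReal - 1 := by linarith
  have h1 : 0 < p.toReal := by linarith
  have hq : 1 < min p.toReal 2 := lt_min hP (by norm_num)
  obtain ⟨K, hK, hS⟩ := exists_subEst hP
  obtain ⟨C, hC1, hC⟩ := smoothType_Lp (μ := unitMeas) hp1 hp
  have hK' : 0 < K ^ p.toReal⁻¹ := by positivity
  rcases le_total p.toReal 2 with h | h
  · have := lower_bound (hS.multBound hp1 hp hK) hK' (fun i => (norm_psi hp1 hp i).le) hq hC1 hC
      h1.le (inv_lt_one_of_one_lt₀ hP) one_pos two_pos hK' (sparse_small hp1 hp hK hS)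
      (fun M _ => block_small hp1 hp M) ht ht1 hΦ hG
    convert this using 8
    rw [max_eq_left]
    · field_simp
    · rw [div_div_eq_mul_div, div_div, div_le_div_iff₀ h1 (by positivity)]
      nlinarith
  · have := lower_bound (hS.multBound hp1 hp hK) hK' (fun i => (norm_psi hp1 hp i).le) hq hC1 hC
      h1.le (by norm_num : (1 / 2 : ℝ) < 1) (inv_pos.2 hK') (by positivity) one_pos
      (sparse_large hp1 hp) (fun M _ => block_large hp1 hp hK hS M) ht ht1 hΦ hG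
    convert this using 8
    rw [max_eq_right]
    · field_simp; ring
    · rw [div_div_eq_mul_div, div_div, div_le_div_iff₀ (by positivity) h1]
      nlinarith

theorem exists_extremal_basis (hp1 : 1 < p) (hp : p ≠ ∞) :
    ∃ Ψ : SchauderBasis ℝ (Lp ℝ p unitMeas), (∀ k, ‖Ψ k‖ = 1) ∧ IsUnconditional Ψ ∧
      Set.range Ψ = Set.range (psi p) := by
  obtain ⟨K, hK, hS⟩ := exists_subEst (one_lt_toReal hp1 hp)
  obtain ⟨e⟩ : Nonempty (ℕ ≃ Node × ℕ) := nonempty_equiv_of_countable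
  obtain ⟨Ψ, h1, h2⟩ := exists_basis e (norm_psi hp1 hp) (hS.multBound hp1 hp hK)
    (dense_span_psi hp1 hp)
  refine ⟨Ψ, fun k => by rw [h1, norm_psi hp1 hp], h2, ?_⟩
  have : (Ψ : ℕ → Lp ℝ p unitMeas) = psi p ∘ e := funext h1
  rw [this, e.surjective.range_comp]

end Pool.Agent.MP_30195a_an

end MrgPart5

-- marker of a merged file
example : 731051 + 230235 = 731051 + 230235 := rfl
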